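import Pool.Agent.Lib.MP_66dece_an.Inner

/-!
# Finite nets, separated sequences, compact operators
-/

set_option autoImplicit false

namespace Pool.Agent.Lib.MP_66dece_an

universe u

open Filter Topology

variable {Y : Type u} [NormedAddCommGroup Y] [NormedSpace ℂ Y]

/-- The image of the unit ball has no finite `c`-net. -/
def NoNet (S : Y →L[ℂ] Y) (c : ℝ) : Prop :=
  ∀ F : Finset Y, ∃ x : Y, ‖x‖ ≤ 1 ∧ ∀ y ∈ F, c ≤ ‖S x - y‖

/-- Without a finite `c`-net there is a sequence in the unit ball with `c`-separated images. -/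
theorem NoNet.exists_sep {S : Y →L[ℂ] Y} {c : ℝ} (h : NoNet S c) :
    ∃ w : ℕ → Y, (∀ n, ‖w n‖ ≤ 1) ∧ ∀ m n, m ≠ n → c ≤ ‖S (w m) - S (w n)‖ := by
  classical
  obtain ⟨w, hw1, hw2⟩ := exists_seq_of_forall_finset_exists (fun x : Y => ‖x‖ ≤ 1)
    (fun x y => c ≤ ‖S x - S y‖) (by
      intro s _
      obtain ⟨x, hx1, hx2⟩ := h (s.image S)
      refine ⟨x, hx1, fun y hy => ?_⟩
      rw [norm_sub_rev]
      exact hx2 _ (Finset.mem_image_of_mem _ hy))
  refine ⟨w, hw1, fun m n hmn => ?_⟩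
  rcases lt_or_gt_of_ne hmn with h1 | h1
  · exact hw2 m n h1
  · rw [norm_sub_rev]
    exact hw2 n m h1

/-- For a compact operator, long sequences in the unit ball have two members with close
images. -/
theorem compact_pigeon {K : Y →L[ℂ] Y} (hK : IsCompactOperator K) {ε : ℝ} (hε : 0 < ε) :
    ∃ N : ℕ, ∀ w : ℕ → Y, (∀ n, ‖w n‖ ≤ 1) →
      ∃ m n, m < n ∧ n ≤ N ∧ ‖K (w m) - K (w n)‖ < ε := by
  classical
  have h1 := (hK : IsCompactOperator (K : Y →ₗ[ℂ] Y)).isCompact_closure_image_closedBall 1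
  have h2 : TotallyBounded (K '' Metric.closedBall 0 1) :=
    h1.totallyBounded.subset subset_closure
  obtain ⟨t, ht, hcov⟩ := Metric.totallyBounded_iff.mp h2 (ε / 2) (by positivity)
  refine ⟨ht.toFinset.card, fun w hw => ?_⟩
  have h3 : ∀ n, ∃ y ∈ ht.toFinset, dist (K (w n)) y < ε / 2 := by
    intro n
    have : K (w n) ∈ ⋃ y ∈ t, Metric.ball y (ε / 2) :=
      hcov ⟨w n, by simpa using hw n, rfl⟩
    simpa using this
  choose y hy1 hy2 using h3
  obtain ⟨m, hm, n, hn, hmn, he⟩ := Finset.exists_ne_map_eq_of_card_lt_of_maps_to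
    (s := Finset.range (ht.toFinset.card + 1)) (t := ht.toFinset) (by simp) (f := y)
    (fun n _ => hy1 n)
  have hd : ∀ m n, y m = y n → ‖K (w m) - K (w n)‖ < ε := by
    intro m n h
    rw [← dist_eq_norm]
    have := dist_triangle_right (K (w m)) (K (w n)) (y n)
    have h4 := hy2 m
    rw [h] at h4
    have h5 := hy2 n
    linarith
  rw [Finset.mem_range] at hm hn
  rcases lt_or_gt_of_ne hmn with h4 | h4
  · exact ⟨m, n, h4, by omega, hd m n he⟩
  · exact ⟨n, m, h4, by omega, hd n m he.symm⟩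

/-- An operator whose image of the ball contains arbitrarily long `c`-separated finite sequences
has distance at least `c / 4` to the compact operators. -/
theorem dist_compact_of_sep {R : Y →L[ℂ] Y} {c : ℝ} (hc : 0 < c)
    (h : ∀ N : ℕ, ∃ w : ℕ → Y, (∀ n, ‖w n‖ ≤ 1) ∧
      ∀ m n, m < n → n ≤ N → c ≤ ‖R (w m) - R (w n)‖)
    {K : Y →L[ℂ] Y} (hK : IsCompactOperator K) : c / 4 ≤ ‖R - K‖ := by
  by_contra hlt
  push Not at hlt
  obtain ⟨N, hN⟩ := compact_pigeon hK (show 0 < c / 2 by positivity)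
  obtain ⟨w, hw1, hw2⟩ := h N
  obtain ⟨m, n, hmn, hn, hd⟩ := hN w hw1
  have h1 := hw2 m n hmn hn
  have h2 : ∀ k, ‖R (w k) - K (w k)‖ ≤ c / 4 := by
    intro k
    calc ‖R (w k) - K (w k)‖ = ‖(R - K) (w k)‖ := rfl
      _ ≤ ‖R - K‖ * ‖w k‖ := ContinuousLinearMap.le_opNorm _ _
      _ ≤ c / 4 * 1 := by gcongr; exact hw1 k
      _ = c / 4 := mul_one _
  have h3 : ‖R (w m) - R (w n)‖ ≤ ‖R (w m) - K (w m)‖ + ‖K (w m) - K (w n)‖
      + ‖R (w n) - K (w n)‖ := by
    have : R (w m) - R (w n) = (R (w m) - K (w m)) + (K (w m) - K (w n))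
      - (R (w n) - K (w n)) := by abel
    rw [this]
    exact le_trans (norm_sub_le _ _) (by gcongr; exact norm_add_le _ _)
  have h4 := h2 m
  have h5 := h2 n
  linarith

/-- A number smaller than the operator norm is attained on the unit ball. -/
theorem exists_norm_gt {S : Y →L[ℂ] Y} {r : ℝ} (hr : r < ‖S‖) : ∃ x, ‖x‖ ≤ 1 ∧ r < ‖S x‖ := by
  obtain ⟨x, hx1, hx2⟩ := S.exists_lt_apply_of_lt_opNorm hr
  exact ⟨x, hx1.le, hx2⟩

/-- In a space with BCAP, operators far from the compact operators have no finite nets. -/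
theorem noNet_of_bcap (hB : BCAP Y) : ∃ κ : ℝ, 0 < κ ∧ ∀ (S : Y →L[ℂ] Y) (c : ℝ), 0 < c →
    (∀ K : Y →L[ℂ] Y, IsCompactOperator K → c ≤ ‖S - K‖) → NoNet S (κ * c) := by
  obtain ⟨l, hl⟩ := hB
  have hl0 : 0 ≤ l := by
    obtain ⟨V, -, hV, -⟩ := hl ∅ 1 one_pos
    exact le_trans (norm_nonneg _) hV
  refine ⟨1 / (2 * (1 + l)), by positivity, fun S c hc hS F => ?_⟩
  obtain ⟨V, hVc, hVn, hVF⟩ := hl F (c / 4) (by positivity)
  have h1 : c ≤ ‖S - V.comp S‖ := hS _ (hVc.comp_clm S)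
  obtain ⟨x, hx1, hx2⟩ := exists_norm_gt (show c * 3 / 4 < ‖S - V.comp S‖ by linarith)
  refine ⟨x, hx1, fun y hy => ?_⟩
  have h2 : (S - V.comp S) x = (S x - y) - V (S x - y) - (V y - y) := by
    simp only [sub_apply, ContinuousLinearMap.comp_apply, map_sub]
    abel
  have h3 : ‖(S - V.comp S) x‖ ≤ ‖S x - y‖ + l * ‖S x - y‖ + c / 4 := by
    rw [h2]
    refine le_trans (norm_sub_le _ _) (add_le_add (le_trans (norm_sub_le _ _) ?_) (hVF y hy))
    gcongr
    exact le_trans (V.le_opNorm _) (by gcongr)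
  have h4 : c / 2 ≤ (1 + l) * ‖S x - y‖ := by linarith
  have h5 : 1 / (2 * (1 + l)) * c = (c / 2) / (1 + l) := by
    field_simp
  rw [h5, div_le_iff₀ (by positivity)]
  linarith

end Pool.Agent.Lib.MP_66dece_an
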