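import Mathlib

/-!
# Rademacher signs on initial segments of `ℕ`
-/

set_option autoImplicit false

namespace Pool.Agent.Lib.MP_66dece_an

open Finset

/-- The sign `(-1)^(j-th binary digit of i)`. -/
def rs (j i : ℕ) : ℂ := if i.testBit j then -1 else 1

theorem norm_rs (j i : ℕ) : ‖rs j i‖ = 1 := by
  unfold rs
  split_ifs <;> simp

theorem rs_add_lt {j n : ℕ} (h : j < n) (i : ℕ) : rs j (2 ^ n + i) = rs j i := by
  unfold rs
  rw [Nat.testBit_two_pow_add_gt h]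

theorem rs_lt {n i : ℕ} (h : i < 2 ^ n) : rs n i = 1 := by
  unfold rs
  rw [Nat.testBit_lt_two_pow h]
  simp

theorem rs_add_eq {n i : ℕ} (h : i < 2 ^ n) : rs n (2 ^ n + i) = -1 := by
  unfold rs
  rw [Nat.testBit_two_pow_add_eq, Nat.testBit_lt_two_pow h]
  simp

theorem sum_two_pow_succ {M : Type*} [AddCommMonoid M] (f : ℕ → M) (n : ℕ) :
    ∑ i ∈ range (2 ^ (n + 1)), f i = ∑ i ∈ range (2 ^ n), (f i + f (2 ^ n + i)) := by
  rw [pow_succ, mul_two, sum_range_add, sum_add_distrib]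

theorem rad_sq (n : ℕ) (c : ℕ → ℂ) :
    ∑ i ∈ range (2 ^ n), ‖∑ j ∈ range n, c j * rs j i‖ ^ 2
      = 2 ^ n * ∑ j ∈ range n, ‖c j‖ ^ 2 := by
  induction n with
  | zero => simp
  | succ n ih =>
    rw [sum_two_pow_succ]
    have h1 : ∀ i ∈ range (2 ^ n), (‖∑ j ∈ range (n + 1), c j * rs j i‖ ^ 2
        + ‖∑ j ∈ range (n + 1), c j * rs j (2 ^ n + i)‖ ^ 2)
        = 2 * ‖∑ j ∈ range n, c j * rs j i‖ ^ 2 + 2 * ‖c n‖ ^ 2 := by
      intro i hi
      rw [mem_range] at hi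
      rw [sum_range_succ, sum_range_succ, rs_lt hi, rs_add_eq hi]
      have h2 : ∑ j ∈ range n, c j * rs j (2 ^ n + i) = ∑ j ∈ range n, c j * rs j i :=
        sum_congr rfl fun j hj => by rw [rs_add_lt (mem_range.mp hj)]
      rw [h2]
      have := parallelogram_law_with_norm ℝ (∑ j ∈ range n, c j * rs j i) (c n)
      simp only [mul_one, mul_neg, ← sub_eq_add_neg]
      nlinarith
    rw [sum_congr rfl h1, sum_add_distrib, ← mul_sum, ih, sum_range_succ, sum_const, card_range]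
    simp only [nsmul_eq_mul]
    push_cast
    ring

theorem rad_l1 (n : ℕ) (c : ℕ → ℂ) :
    (∑ i ∈ range (2 ^ n), ‖∑ j ∈ range n, c j * rs j i‖) ^ 2
      ≤ (2 ^ n) ^ 2 * ∑ j ∈ range n, ‖c j‖ ^ 2 := by
  have h := sq_sum_le_card_mul_sum_sq (s := range (2 ^ n))
    (f := fun i => ‖∑ j ∈ range n, c j * rs j i‖)
  rw [rad_sq, card_range] at h
  push_cast at h
  linarith [h]

end Pool.Agent.Lib.MP_66dece_an
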