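import Pool.Agent.Lib.MP_66dece_an.Schur
import Pool.Agent.Lib.MP_66dece_an.Rad
import Pool.Agent.Lib.MP_66dece_an.Net

/-!
# Spaces which contain `ℓ₁` and a sequence with an upper `2`-estimate
-/

set_option autoImplicit false

namespace Pool.Agent.Lib.MP_66dece_an

universe u v w

open Finset Filter Topology

variable {X : Type u} [NormedAddCommGroup X] [NormedSpace ℂ X]

/-- Functionals with prescribed values on an `ℓ₁` sequence. -/
theorem exists_functional_of_ellOne {x : ℕ → X} {δ : ℝ} (hδ : 0 < δ)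
    (h : ∀ (s : Finset ℕ) (c : ℕ → ℂ), δ * ∑ n ∈ s, ‖c n‖ ≤ ‖∑ n ∈ s, c n • x n‖) (ε : ℕ → ℂ)
    (hε : ∀ n, ‖ε n‖ ≤ 1) : ∃ f : StrongDual ℂ X, ‖f‖ ≤ 1 / δ ∧ ∀ n, f (x n) = ε n := by
  have hli : LinearIndependent ℂ x := by
    rw [linearIndependent_iff']
    intro s g hg i hi
    have h1 := h s g
    rw [hg, norm_zero] at h1
    have h2 : ∑ n ∈ s, ‖g n‖ ≤ 0 := by
      by_contra hlt
      push Not at hlt
      have := mul_pos hδ hlt
      linarith
    have h3 : ‖g i‖ ≤ ∑ n ∈ s, ‖g n‖ := single_le_sum (fun n _ => norm_nonneg _) hi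
    exact norm_le_zero_iff.mp (le_trans h3 h2)
  let b := Module.Basis.span hli
  let g0 : Submodule.span ℂ (Set.range x) →ₗ[ℂ] ℂ := b.constr ℂ ε
  have hbound : ∀ v, ‖g0 v‖ ≤ 1 / δ * ‖v‖ := by
    intro v
    have h1 : g0 v = ∑ n ∈ (b.repr v).support, b.repr v n * ε n := by
      show b.constr ℂ ε v = _
      rw [Module.Basis.constr_apply, Finsupp.sum]
      rfl
    have h2 : (v : X) = ∑ n ∈ (b.repr v).support, b.repr v n • x n := by
      have h3 := b.linearCombination_repr v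
      rw [Finsupp.linearCombination_apply, Finsupp.sum] at h3
      have h4 := congrArg (Subtype.val) h3
      rw [← h4, Submodule.coe_sum]
      refine sum_congr rfl fun n _ => ?_
      rw [Submodule.coe_smul]
      congr 1
      exact congrArg Subtype.val (Module.Basis.span_apply hli n)
    have h5 := h (b.repr v).support (b.repr v)
    rw [← h2] at h5
    have h6 : ‖g0 v‖ ≤ ∑ n ∈ (b.repr v).support, ‖b.repr v n‖ := by
      rw [h1]
      refine norm_sum_le_of_le _ fun n _ => ?_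
      rw [norm_mul]
      exact mul_le_of_le_one_right (norm_nonneg _) (hε n)
    rw [div_mul_eq_mul_div, one_mul, le_div_iff₀ hδ]
    calc ‖g0 v‖ * δ ≤ (∑ n ∈ (b.repr v).support, ‖b.repr v n‖) * δ := by gcongr
      _ = δ * ∑ n ∈ (b.repr v).support, ‖b.repr v n‖ := mul_comm _ _
      _ ≤ ‖(v : X)‖ := h5
      _ = ‖v‖ := rfl
  let g1 : StrongDual ℂ (Submodule.span ℂ (Set.range x)) := g0.mkContinuous (1 / δ) hbound
  obtain ⟨f, hf1, hf2⟩ := exists_extension_norm_eq _ g1
  refine ⟨f, ?_, fun n => ?_⟩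
  · rw [hf2]
    exact LinearMap.mkContinuous_norm_le _ (by positivity) _
  · have h1 := hf1 ⟨x n, Submodule.subset_span ⟨n, rfl⟩⟩
    have h2 : g1 ⟨x n, Submodule.subset_span ⟨n, rfl⟩⟩ = ε n := by
      show b.constr ℂ ε _ = _
      have h3 : (⟨x n, Submodule.subset_span ⟨n, rfl⟩⟩ : Submodule.span ℂ (Set.range x)) = b n := by
        exact (Module.Basis.span_apply hli n).symm
      rw [h3, Module.Basis.constr_basis]
    rw [← h2, ← h1]

theorem rs_mul_self (j i : ℕ) : rs j i * rs j i = 1 := by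
  unfold rs
  split_ifs <;> simp

theorem rs_orth (N j n : ℕ) (hj : j < N) (hn : n < N) (hjn : j ≠ n) :
    ∑ i ∈ range (2 ^ N), rs j i * rs n i = 0 := by
  induction N with
  | zero => omega
  | succ N ih =>
    rw [sum_two_pow_succ]
    rcases Nat.lt_succ_iff_lt_or_eq.mp hj with h1 | h1
    · rcases Nat.lt_succ_iff_lt_or_eq.mp hn with h2 | h2
      · have h3 : ∀ i ∈ range (2 ^ N), rs j i * rs n i + rs j (2 ^ N + i) * rs n (2 ^ N + i)
            = 2 * (rs j i * rs n i) := fun i _ => by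
          rw [rs_add_lt h1, rs_add_lt h2]
          ring
        rw [sum_congr rfl h3, ← mul_sum, ih h1 h2, mul_zero]
      · subst h2
        refine sum_eq_zero fun i hi => ?_
        rw [rs_add_lt h1, rs_lt (mem_range.mp hi), rs_add_eq (mem_range.mp hi)]
        ring
    · have h2 : n < N := by omega
      subst h1
      refine sum_eq_zero fun i hi => ?_
      rw [rs_add_lt h2, rs_lt (mem_range.mp hi), rs_add_eq (mem_range.mp hi)]
      ring

/-- Coefficient functionals with a square function estimate. -/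
theorem exists_coeff (hX : ContainsEllOne X) : ∃ (x : ℕ → X) (τ : ℕ → StrongDual ℂ X) (D : ℝ),
    0 < D ∧ (∀ n, ‖x n‖ ≤ 1) ∧ (∀ i n, τ i (x n) = if i = n then 1 else 0) ∧
    ∀ (s : Finset ℕ) (v : X), ∑ j ∈ s, ‖τ j v‖ ^ 2 ≤ (D * ‖v‖) ^ 2 := by
  classical
  obtain ⟨x, δ, hδ, hx, h⟩ := hX
  choose f hf1 hf2 using fun i : ℕ => exists_functional_of_ellOne hδ h (fun n => rs n i)
    (fun n => (norm_rs n i).le)
  -- the averages
  let t : ℕ → ℕ → StrongDual ℂ X := fun N j => ((2 : ℂ) ^ N)⁻¹ • ∑ i ∈ range (2 ^ N), rs j i • f i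
  have ht : ∀ N j v, t N j v = ((2 : ℂ) ^ N)⁻¹ * ∑ i ∈ range (2 ^ N), rs j i * f i v := by
    intro N j v
    show (((2 : ℂ) ^ N)⁻¹ • ∑ i ∈ range (2 ^ N), rs j i • f i) v = _
    rw [smul_apply, _root_.sum_apply, smul_eq_mul]
    rfl
  have hn2 : ∀ N, ‖((2 : ℂ) ^ N)⁻¹‖ = ((2 : ℝ) ^ N)⁻¹ := fun N => by simp
  have htb : ∀ N j, ‖t N j‖ ≤ 1 / δ := by
    intro N j
    show ‖((2 : ℂ) ^ N)⁻¹ • ∑ i ∈ range (2 ^ N), rs j i • f i‖ ≤ _
    rw [norm_smul, hn2]
    have h1 : ‖∑ i ∈ range (2 ^ N), rs j i • f i‖ ≤ ∑ i ∈ range (2 ^ N), 1 / δ := by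
      refine norm_sum_le_of_le _ fun i _ => ?_
      rw [norm_smul, norm_rs, one_mul]
      exact hf1 i
    rw [sum_const, card_range, nsmul_eq_mul] at h1
    push_cast at h1
    calc ((2 : ℝ) ^ N)⁻¹ * ‖∑ i ∈ range (2 ^ N), rs j i • f i‖
        ≤ ((2 : ℝ) ^ N)⁻¹ * (2 ^ N * (1 / δ)) := by gcongr
      _ = 1 / δ := by
          have : (2 : ℝ) ^ N ≠ 0 := by positivity
          field_simp
  -- Bessel inequality
  have hbessel : ∀ N (s : Finset ℕ) v, s ⊆ range N → ∑ j ∈ s, ‖t N j v‖ ^ 2 ≤ (1 / δ * ‖v‖) ^ 2 := by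
    intro N s v hs
    set q : ℝ := ∑ j ∈ s, ‖t N j v‖ ^ 2 with hq
    have hq0 : 0 ≤ q := sum_nonneg fun j _ => by positivity
    set c : ℕ → ℂ := fun j => if j ∈ s then (starRingEnd ℂ) (t N j v) else 0 with hc
    have h1 : (q : ℂ) = ((2 : ℂ) ^ N)⁻¹ * ∑ i ∈ range (2 ^ N), (∑ j ∈ range N, c j * rs j i) * f i v := by
      have h2 : ∀ i, ∑ j ∈ range N, c j * rs j i = ∑ j ∈ s, (starRingEnd ℂ) (t N j v) * rs j i := by
        intro i
        rw [← sum_subset hs]
        · exact sum_congr rfl fun j hj => by simp [hc, hj]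
        · intro j _ hj
          simp [hc, hj]
      simp only [h2, sum_mul]
      rw [sum_comm, mul_sum, hq]
      push_cast
      refine sum_congr rfl fun j _ => ?_
      have h3 : ∑ i ∈ range (2 ^ N), (starRingEnd ℂ) (t N j v) * rs j i * f i v
          = (starRingEnd ℂ) (t N j v) * ∑ i ∈ range (2 ^ N), rs j i * f i v := by
        rw [mul_sum]
        exact sum_congr rfl fun i _ => by ring
      rw [h3]
      have h4 : ((2 : ℂ) ^ N)⁻¹ * ((starRingEnd ℂ) (t N j v) * ∑ i ∈ range (2 ^ N), rs j i * f i v)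
          = (starRingEnd ℂ) (t N j v) * t N j v := by
        rw [ht N j v]
        ring
      rw [h4, mul_comm, Complex.mul_conj, Complex.normSq_eq_norm_sq]
      push_cast
      rfl
    have h5 : ∑ j ∈ range N, ‖c j‖ ^ 2 = q := by
      rw [← sum_subset hs]
      · exact sum_congr rfl fun j hj => by simp [hc, hj]
      · intro j _ hj
        simp [hc, hj]
    have h6 := rad_l1 N c
    rw [h5] at h6
    have h7 : q ≤ ((2 : ℝ) ^ N)⁻¹ * ((∑ i ∈ range (2 ^ N), ‖∑ j ∈ range N, c j * rs j i‖) * (1 / δ * ‖v‖)) := by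
      have h8 : q = ‖(q : ℂ)‖ := by rw [Complex.norm_real, Real.norm_of_nonneg hq0]
      rw [h8, h1, norm_mul, hn2]
      gcongr
      rw [sum_mul]
      refine norm_sum_le_of_le _ fun i _ => ?_
      rw [norm_mul]
      gcongr
      exact le_trans ((f i).le_opNorm _) (by gcongr; exact hf1 i)
    set p : ℝ := ∑ i ∈ range (2 ^ N), ‖∑ j ∈ range N, c j * rs j i‖ with hp
    have hp0 : 0 ≤ p := sum_nonneg fun i _ => norm_nonneg _
    set m : ℝ := 1 / δ * ‖v‖ with hm
    have hm0 : 0 ≤ m := by positivity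
    have h9 : q ^ 2 ≤ q * m ^ 2 := by
      calc q ^ 2 ≤ (((2 : ℝ) ^ N)⁻¹ * (p * m)) ^ 2 := by gcongr
        _ = (((2 : ℝ) ^ N)⁻¹) ^ 2 * m ^ 2 * p ^ 2 := by ring
        _ ≤ (((2 : ℝ) ^ N)⁻¹) ^ 2 * m ^ 2 * ((2 ^ N) ^ 2 * q) := by gcongr
        _ = q * m ^ 2 := by
            have : (2 : ℝ) ^ N ≠ 0 := by positivity
            field_simp
    rcases eq_or_lt_of_le hq0 with h10 | h10
    · rw [← h10]; positivity
    · have : q * q ≤ q * m ^ 2 := by rw [← sq]; exact h9
      exact le_of_mul_le_mul_left this h10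
  -- the ultrafilter limits
  have hlim : ∀ j v, ∃ z : ℂ, Tendsto (fun N => t N j v) (hyperfilter ℕ : Filter ℕ) (𝓝 z) := by
    intro j v
    obtain ⟨z, -, hz⟩ := (isCompact_closedBall (0 : ℂ) (1 / δ * ‖v‖)).ultrafilter_le_nhds'
      ((hyperfilter ℕ).map fun N => t N j v) (Ultrafilter.mem_map.mpr (Filter.univ_mem' fun N => by
        show t N j v ∈ Metric.closedBall (0 : ℂ) (1 / δ * ‖v‖)
        rw [mem_closedBall_zero_iff]
        exact le_trans ((t N j).le_opNorm _) (by gcongr; exact htb N j)))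
    exact ⟨z, hz⟩
  choose L hL using hlim
  let τ : ℕ → StrongDual ℂ X := fun j =>
    ContinuousLinearMap.ofTendstoOfBoundedRange (L j) (fun N => t N j)
      (tendsto_pi_nhds.mpr (hL j)) (by
        rw [isBounded_iff_forall_norm_le]
        exact ⟨1 / δ, by rintro _ ⟨n, rfl⟩; exact htb n j⟩)
  have hτ : ∀ j v, Tendsto (fun N => t N j v) (hyperfilter ℕ : Filter ℕ) (𝓝 (τ j v)) := hL
  have hge : ∀ m : ℕ, ∀ᶠ N in (hyperfilter ℕ : Filter ℕ), m < N := by
    intro m
    have h1 : (hyperfilter ℕ : Filter ℕ) ≤ atTop := by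
      rw [← Nat.cofinite_eq_atTop]
      exact hyperfilter_le_cofinite
    exact h1 (eventually_gt_atTop m)
  refine ⟨x, τ, 1 / δ, by positivity, hx, ?_, ?_⟩
  · intro j n
    have h1 : Tendsto (fun N => t N j (x n)) (hyperfilter ℕ : Filter ℕ)
        (𝓝 (if j = n then 1 else 0)) := by
      refine Tendsto.congr' ?_ tendsto_const_nhds
      filter_upwards [hge (max j n)] with N hN
      rw [ht]
      simp only [hf2]
      by_cases hjn : j = n
      · rw [if_pos hjn, hjn, sum_congr rfl (fun i _ => rs_mul_self n i), sum_const, card_range,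
          nsmul_eq_mul]
        push_cast
        field_simp
      · rw [if_neg hjn, rs_orth N j n (lt_of_le_of_lt (le_max_left _ _) hN)
          (lt_of_le_of_lt (le_max_right _ _) hN) hjn, mul_zero]
    exact tendsto_nhds_unique (hτ j (x n)) h1
  · intro s v
    have h1 : Tendsto (fun N : ℕ => ∑ j ∈ s, ‖t N j v‖ ^ 2) (hyperfilter ℕ : Filter ℕ)
        (𝓝 (∑ j ∈ s, ‖τ j v‖ ^ 2)) :=
      tendsto_finsetSum _ fun j _ => ((hτ j v).norm.pow 2)
    refine le_of_tendsto h1 ?_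
    filter_upwards [hge (s.sup id)] with N hN
    refine hbessel N s v fun j hj => ?_
    have := le_sup (f := id) hj
    simp only [id_eq] at this
    rw [mem_range]
    omega

theorem add_two_le (j : ℕ) : j + 2 ≤ 2 * 4 ^ j := by
  induction j with
  | zero => simp
  | succ j ih =>
    have h1 : 1 ≤ 4 ^ j := Nat.one_le_pow _ _ (by norm_num)
    rw [pow_succ]
    omega

/-- The selection of indices. -/
theorem exists_selection {τ : ℕ → StrongDual ℂ X} {D : ℝ}
    (hτ : ∀ (s : Finset ℕ) (v : X), ∑ j ∈ s, ‖τ j v‖ ^ 2 ≤ (D * ‖v‖) ^ 2) {u : ℕ → X} {C : ℝ}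
    (hu : ∀ (s : Finset ℕ) (c : ℕ → ℂ), ‖∑ n ∈ s, c n • u n‖ ^ 2 ≤ C * ∑ n ∈ s, ‖c n‖ ^ 2) :
    ∃ n k : ℕ → ℕ, Function.Injective n ∧ Function.Injective k ∧
      ∀ (j : ℕ) (s : Finset ℕ), ∑ i ∈ s, ‖τ (n i) (u (k j))‖ ^ 2 ≤ 2 * (1 / 4) ^ j := by
  classical
  -- the tails
  have htail : ∀ (k : ℕ) (ε : ℝ), ∃ M : ℕ, 0 < ε → ∀ s : Finset ℕ, (∀ n ∈ s, M < n) →
      ∑ n ∈ s, ‖τ n (u k)‖ ^ 2 ≤ ε := by
    intro k ε
    by_cases hε : 0 < ε
    · have hs : Summable fun n => ‖τ n (u k)‖ ^ 2 :=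
        summable_of_sum_le (fun n => by positivity) (fun s => hτ s (u k))
      obtain ⟨s₀, hs₀⟩ := summable_iff_vanishing_norm.mp hs ε hε
      refine ⟨s₀.sup id, fun _ s hs' => ?_⟩
      have h1 := hs₀ s (by
        rw [disjoint_left]
        intro a ha ha'
        have h2 := hs' a ha
        have h3 := le_sup (f := id) ha'
        simp only [id_eq] at h3
        omega)
      rw [Real.norm_of_nonneg (sum_nonneg fun n _ => by positivity)] at h1
      exact h1.le
    · exact ⟨0, fun h => absurd h hε⟩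
  choose M hM using htail
  have hweak : ∀ j, Tendsto (fun k => τ j (u k)) atTop (𝓝 0) := by
    intro j
    refine scalar_tendsto _ (‖τ j‖ ^ 2 * C) fun s c => ?_
    have h1 : ∑ n ∈ s, c n * τ j (u n) = τ j (∑ n ∈ s, c n • u n) := by
      rw [map_sum]
      exact sum_congr rfl fun n _ => by rw [map_smul, smul_eq_mul]
    rw [h1]
    calc ‖τ j (∑ n ∈ s, c n • u n)‖ ^ 2 ≤ (‖τ j‖ * ‖∑ n ∈ s, c n • u n‖) ^ 2 := by
          gcongr
          exact (τ j).le_opNorm _
      _ = ‖τ j‖ ^ 2 * ‖∑ n ∈ s, c n • u n‖ ^ 2 := by ring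
      _ ≤ ‖τ j‖ ^ 2 * (C * ∑ n ∈ s, ‖c n‖ ^ 2) := by
          gcongr
          exact hu s c
      _ = _ := by ring
  obtain ⟨p, hp1, hp2⟩ := exists_seq_of_forall_finset_exists
    (fun q : ℕ × ℕ => ‖τ q.1 (u q.2)‖ ≤ (1 / 4) ^ q.1)
    (fun p q : ℕ × ℕ => p.1 < q.1 ∧ p.2 < q.2 ∧ M p.2 ((1 / 16) ^ p.1) < q.1 ∧
      ‖τ p.1 (u q.2)‖ ≤ (1 / 4) ^ q.1) (by
      intro s _
      set n : ℕ := (s.sup fun p => p.1) + (s.sup fun p => M p.2 ((1 / 16) ^ p.1)) + 1 with hn
      have h1 : ∀ j, ∀ᶠ k in atTop, ‖τ j (u k)‖ ≤ (1 / 4 : ℝ) ^ n := by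
        intro j
        have h2 := (hweak j).norm
        rw [norm_zero] at h2
        have h3 := h2.eventually (gt_mem_nhds (show (0 : ℝ) < (1 / 4) ^ n by positivity))
        exact h3.mono fun k hk => hk.le
      have h4 : ∀ᶠ k in atTop, ∀ j ∈ insert n (s.image Prod.fst), ‖τ j (u k)‖ ≤ (1 / 4 : ℝ) ^ n := by
        rw [Filter.eventually_all_finset]
        exact fun j _ => h1 j
      obtain ⟨k, hk1, hk2⟩ := (h4.and (eventually_gt_atTop (s.sup fun p => p.2))).exists
      refine ⟨(n, k), hk1 n (mem_insert_self _ _), fun p hp => ⟨?_, ?_, ?_, ?_⟩⟩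
      · have := le_sup (f := fun p : ℕ × ℕ => p.1) hp
        show p.1 < n
        omega
      · have := le_sup (f := fun p : ℕ × ℕ => p.2) hp
        show p.2 < k
        omega
      · have := le_sup (f := fun p : ℕ × ℕ => M p.2 ((1 / 16) ^ p.1)) hp
        show M p.2 ((1 / 16) ^ p.1) < n
        omega
      · exact hk1 p.1 (mem_insert_of_mem (mem_image_of_mem _ hp)))
  have hmono : StrictMono fun j => (p j).1 := strictMono_nat_of_lt_succ fun j =>
    (hp2 j (j + 1) (by omega)).1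
  have hmono2 : StrictMono fun j => (p j).2 := strictMono_nat_of_lt_succ fun j =>
    (hp2 j (j + 1) (by omega)).2.1
  have hge : ∀ j, j ≤ (p j).1 := fun j => hmono.le_apply
  refine ⟨fun j => (p j).1, fun j => (p j).2, hmono.injective, hmono2.injective, fun j s => ?_⟩
  have hsplit : ∑ i ∈ s, ‖τ (p i).1 (u (p j).2)‖ ^ 2
      = ∑ i ∈ s with i ≤ j, ‖τ (p i).1 (u (p j).2)‖ ^ 2
        + ∑ i ∈ s with ¬ i ≤ j, ‖τ (p i).1 (u (p j).2)‖ ^ 2 :=
    (sum_filter_add_sum_filter_not s _ _).symm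
  have h16 : (0 : ℝ) < (1 / 16) ^ (p j).1 := by positivity
  have h16' : ((1 : ℝ) / 16) ^ (p j).1 ≤ (1 / 16) ^ j :=
    pow_le_pow_of_le_one (by norm_num) (by norm_num) (hge j)
  have h1 : ∑ i ∈ s with i ≤ j, ‖τ (p i).1 (u (p j).2)‖ ^ 2 ≤ (j + 1) * (1 / 16) ^ j := by
    have h2 : ∀ i ∈ s.filter (fun i => i ≤ j), ‖τ (p i).1 (u (p j).2)‖ ^ 2 ≤ (1 / 16) ^ j := by
      intro i hi
      have hij : i ≤ j := (mem_filter.mp hi).2
      have h3 : ‖τ (p i).1 (u (p j).2)‖ ≤ (1 / 4) ^ (p j).1 := by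
        rcases Nat.lt_or_eq_of_le hij with h4 | h4
        · exact (hp2 i j h4).2.2.2
        · rw [h4]; exact hp1 j
      calc ‖τ (p i).1 (u (p j).2)‖ ^ 2 ≤ ((1 / 4 : ℝ) ^ (p j).1) ^ 2 := by gcongr
        _ = (1 / 16) ^ (p j).1 := by rw [← pow_mul, mul_comm, pow_mul]; norm_num
        _ ≤ (1 / 16) ^ j := h16'
    calc ∑ i ∈ s with i ≤ j, ‖τ (p i).1 (u (p j).2)‖ ^ 2
        ≤ ∑ i ∈ s with i ≤ j, (1 / 16 : ℝ) ^ j := sum_le_sum h2
      _ = ((s.filter (fun i => i ≤ j)).card : ℝ) * (1 / 16) ^ j := by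
          rw [sum_const, nsmul_eq_mul]
      _ ≤ (j + 1) * (1 / 16) ^ j := by
          gcongr
          have h5 : s.filter (fun i => i ≤ j) ⊆ range (j + 1) := by
            intro i hi
            rw [mem_range]
            have := (mem_filter.mp hi).2
            omega
          have h6 := card_le_card h5
          rw [card_range] at h6
          exact_mod_cast h6
  have h2 : ∑ i ∈ s with ¬ i ≤ j, ‖τ (p i).1 (u (p j).2)‖ ^ 2 ≤ (1 / 16) ^ j := by
    have h3 := hM (p j).2 ((1 / 16) ^ (p j).1) h16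
      ((s.filter (fun i => ¬ i ≤ j)).image fun i => (p i).1) (by
        intro n hn
        obtain ⟨i, hi, rfl⟩ := mem_image.mp hn
        have hij : ¬ i ≤ j := (mem_filter.mp hi).2
        exact (hp2 j i (by omega)).2.2.1)
    rw [sum_image (fun a _ b _ h => hmono.injective h)] at h3
    exact le_trans h3 h16'
  have h3 : ((j : ℝ) + 2) * (1 / 16) ^ j ≤ 2 * (1 / 4) ^ j := by
    have h4 : (j : ℝ) + 2 ≤ 2 * 4 ^ j := by
      exact_mod_cast add_two_le j
    calc ((j : ℝ) + 2) * (1 / 16) ^ j ≤ (2 * 4 ^ j) * (1 / 16) ^ j := by gcongr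
      _ = 2 * ((4 * (1 / 16)) ^ j) := by rw [mul_pow]; ring
      _ = 2 * (1 / 4) ^ j := by norm_num
  rw [hsplit]
  linarith

/-- The noncompact operator with compact square. -/
theorem exists_nilpotent [CompleteSpace X] (hX : ContainsEllOne X) (hU : HasUpperTwo X) :
    ∃ S : X →L[ℂ] X, ¬ IsCompactOperator S ∧ IsCompactOperator (S.comp S) := by
  classical
  obtain ⟨x, τ, D, hD, hx, hτx, hτ⟩ := exists_coeff hX
  obtain ⟨u, C, δ, hδ, hδu, hu⟩ := hU
  have hC : 0 ≤ C := by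
    have h1 := hu {0} (fun _ => 1)
    simp only [sum_singleton, one_smul, norm_one, one_pow, mul_one] at h1
    exact le_trans (by positivity) h1
  obtain ⟨n, k, hn, hk, hsel⟩ := exists_selection hτ hu
  have hw : ∀ (s : Finset ℕ) (c : ℕ → ℂ), ‖∑ i ∈ s, c i • u (k i)‖ ^ 2 ≤ C * ∑ i ∈ s, ‖c i‖ ^ 2 := by
    intro s c
    have h1 := hu (s.image k) (fun m => c (Function.invFun k m))
    rw [sum_image (fun a _ b _ h => hk h), sum_image (fun a _ b _ h => hk h)] at h1
    simpa only [Function.leftInverse_invFun hk _] using h1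
  have hσ : ∀ (s : Finset ℕ) (v : X), ∑ i ∈ s, ‖τ (n i) v‖ ^ 2 ≤ (D * ‖v‖) ^ 2 := by
    intro s v
    have h1 := hτ (s.image n) v
    rwa [sum_image (fun a _ b _ h => hn h)] at h1
  -- the finite partial sums
  let R : Finset ℕ → X →L[ℂ] X := fun s => ∑ i ∈ s, (τ (n i)).smulRight (u (k i))
  have hR : ∀ s v, R s v = ∑ i ∈ s, τ (n i) v • u (k i) := by
    intro s v
    show (∑ i ∈ s, (τ (n i)).smulRight (u (k i))) v = _
    rw [_root_.sum_apply]
    rfl
  have hRb : ∀ s v, ‖R s v‖ ^ 2 ≤ C * ∑ i ∈ s, ‖τ (n i) v‖ ^ 2 := by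
    intro s v
    rw [hR]
    exact hw s _
  have hRn : ∀ s, ‖R s‖ ≤ Real.sqrt C * D := by
    intro s
    refine ContinuousLinearMap.opNorm_le_bound _ (by positivity) fun v => ?_
    refine abs_le_of_sq_le_sq' ?_ (by positivity) |>.2
    calc ‖R s v‖ ^ 2 ≤ C * ∑ i ∈ s, ‖τ (n i) v‖ ^ 2 := hRb s v
      _ ≤ C * (D * ‖v‖) ^ 2 := by gcongr; exact hσ s v
      _ = (Real.sqrt C * D * ‖v‖) ^ 2 := by
          rw [mul_pow, mul_pow, mul_pow, Real.sq_sqrt hC]
          ring
  have hsum : ∀ v, Summable fun i => τ (n i) v • u (k i) := by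
    intro v
    have h1 : Summable fun i => ‖τ (n i) v‖ ^ 2 :=
      summable_of_sum_le (fun i => by positivity) (fun s => hσ s v)
    rw [summable_iff_vanishing_norm]
    intro ε hε
    obtain ⟨s₀, hs₀⟩ := summable_iff_vanishing_norm.mp h1 (ε ^ 2 / (C + 1)) (by positivity)
    refine ⟨s₀, fun t ht => ?_⟩
    have h2 := hs₀ t ht
    rw [Real.norm_of_nonneg (sum_nonneg fun n _ => by positivity)] at h2
    have h3 := hw t (fun i => τ (n i) v)
    have h4 : ‖∑ i ∈ t, τ (n i) v • u (k i)‖ ^ 2 < ε ^ 2 := by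
      calc ‖∑ i ∈ t, τ (n i) v • u (k i)‖ ^ 2 ≤ C * ∑ i ∈ t, ‖τ (n i) v‖ ^ 2 := h3
        _ ≤ C * (ε ^ 2 / (C + 1)) := by gcongr
        _ < ε ^ 2 := by
            rw [mul_div_assoc', div_lt_iff₀ (by positivity)]
            nlinarith [sq_pos_of_pos hε]
    exact lt_of_pow_lt_pow_left₀ 2 hε.le h4
  let S : X →L[ℂ] X := ContinuousLinearMap.ofTendstoOfBoundedRange
    (fun v => ∑' i, τ (n i) v • u (k i)) (fun s : Finset ℕ => R s)
    (tendsto_pi_nhds.mpr fun v => by
      have h1 := (hsum v).hasSum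
      simp only [hR]
      exact h1) (by
      rw [isBounded_iff_forall_norm_le]
      exact ⟨Real.sqrt C * D, by rintro _ ⟨s, rfl⟩; exact hRn s⟩)
  have hS : ∀ v, S v = ∑' i, τ (n i) v • u (k i) := fun v => rfl
  have hSt : ∀ v, Tendsto (fun s : Finset ℕ => R s v) atTop (𝓝 (S v)) := by
    intro v
    have h1 := (hsum v).hasSum
    simp only [hR]
    exact h1
  have hSy : ∀ j, S (x (n j)) = u (k j) := by
    intro j
    rw [hS, tsum_eq_single j]
    · rw [hτx, if_pos rfl, one_smul]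
    · intro i hi
      rw [hτx, if_neg (fun h => hi (hn h)), zero_smul]
  have hSw : ∀ j, ‖S (u (k j))‖ ≤ Real.sqrt (2 * C) * (1 / 2) ^ j := by
    intro j
    refine abs_le_of_sq_le_sq' ?_ (by positivity) |>.2
    have h1 : ∀ s, ‖R s (u (k j))‖ ^ 2 ≤ (Real.sqrt (2 * C) * (1 / 2) ^ j) ^ 2 := by
      intro s
      calc ‖R s (u (k j))‖ ^ 2 ≤ C * ∑ i ∈ s, ‖τ (n i) (u (k j))‖ ^ 2 := hRb s _
        _ ≤ C * (2 * (1 / 4) ^ j) := by gcongr; exact hsel j s
        _ = (Real.sqrt (2 * C) * (1 / 2) ^ j) ^ 2 := by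
            rw [mul_pow, Real.sq_sqrt (by positivity), ← pow_mul, mul_comm j 2, pow_mul]
            norm_num
            ring
    exact le_of_tendsto ((hSt (u (k j))).norm.pow 2) (Eventually.of_forall h1)
  refine ⟨S, ?_, ?_⟩
  · -- `S` is not compact
    intro hSc
    obtain ⟨K, hK, hKx⟩ := hSc.image_closedBall_subset_compact (1 : ℝ)
    have hmem : ∀ j, u (k j) ∈ K := by
      intro j
      refine hKx ⟨x (n j), ?_, ?_⟩
      · rw [mem_closedBall_zero_iff]
        exact hx _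
      · exact hSy j
    obtain ⟨w, -, φ, hφ, hw2⟩ := hK.tendsto_subseq hmem
    have h1 : ∀ f : StrongDual ℂ X, f w = 0 := by
      intro f
      have h2 : Tendsto (fun j => f (u (k j))) atTop (𝓝 0) := by
        refine scalar_tendsto _ (‖f‖ ^ 2 * C) fun s c => ?_
        have h1 : ∑ i ∈ s, c i * f (u (k i)) = f (∑ i ∈ s, c i • u (k i)) := by
          rw [map_sum]
          exact sum_congr rfl fun n _ => by rw [map_smul, smul_eq_mul]
        rw [h1]
        calc ‖f (∑ i ∈ s, c i • u (k i))‖ ^ 2 ≤ (‖f‖ * ‖∑ i ∈ s, c i • u (k i)‖) ^ 2 := by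
              gcongr
              exact f.le_opNorm _
          _ = ‖f‖ ^ 2 * ‖∑ i ∈ s, c i • u (k i)‖ ^ 2 := by ring
          _ ≤ ‖f‖ ^ 2 * (C * ∑ i ∈ s, ‖c i‖ ^ 2) := by
              gcongr
              exact hw s c
          _ = _ := by ring
      have h3 : Tendsto (fun j => f (u (k (φ j)))) atTop (𝓝 0) := h2.comp hφ.tendsto_atTop
      have h4 : Tendsto (fun j => f (u (k (φ j)))) atTop (𝓝 (f w)) :=
        (f.continuous.tendsto w).comp hw2
      exact tendsto_nhds_unique h4 h3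
    have h5 : w = 0 := SeparatingDual.eq_zero_of_forall_dual_eq_zero (R := ℂ) h1
    have h6 : δ ≤ ‖w‖ := ge_of_tendsto hw2.norm (Eventually.of_forall fun j => hδu _)
    rw [h5, norm_zero] at h6
    linarith
  · -- the square is compact
    let Q : Finset ℕ → X →L[ℂ] X := fun s => ∑ j ∈ s, (τ (n j)).smulRight (S (u (k j)))
    have hsm : Summable fun j => (τ (n j)).smulRight (S (u (k j))) := by
      refine Summable.of_norm_bounded (g := fun j => D * (Real.sqrt (2 * C) * (1 / 2) ^ j)) ?_ ?_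
      · exact ((summable_geometric_of_lt_one (by norm_num) (by norm_num)).mul_left _).mul_left _
      · intro j
        rw [ContinuousLinearMap.norm_smulRight_apply]
        have h1 : ‖τ (n j)‖ ≤ D := by
          refine ContinuousLinearMap.opNorm_le_bound _ hD.le fun v => ?_
          have h2 := hσ {j} v
          rw [sum_singleton] at h2
          exact abs_le_of_sq_le_sq' h2 (by positivity) |>.2
        gcongr
        exact hSw j
    have hcomp : S.comp S = ∑' j, (τ (n j)).smulRight (S (u (k j))) := by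
      ext v
      have h1 : Tendsto (fun s : Finset ℕ => (∑ j ∈ s, (τ (n j)).smulRight (S (u (k j)))) v) atTop
          (𝓝 ((∑' j, (τ (n j)).smulRight (S (u (k j)))) v)) :=
        ((ContinuousLinearMap.apply ℂ X v).continuous.tendsto _).comp hsm.hasSum
      have h2 : Tendsto (fun s : Finset ℕ => S (R s v)) atTop (𝓝 (S (S v))) :=
        (S.continuous.tendsto _).comp (hSt v)
      have h3 : ∀ s : Finset ℕ, S (R s v) = (∑ j ∈ s, (τ (n j)).smulRight (S (u (k j)))) v := by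
        intro s
        rw [hR, map_sum, _root_.sum_apply]
        exact sum_congr rfl fun i _ => by rw [map_smul]; rfl
      simp only [h3] at h2
      exact tendsto_nhds_unique h2 h1
    rw [hcomp]
    have hclosed := isClosed_setOfPred_isCompactOperator (𝕜₁ := ℂ) (𝕜₂ := ℂ) (σ₁₂ := RingHom.id ℂ)
      (M₁ := X) (M₂ := X)
    refine hclosed.mem_of_tendsto hsm.hasSum (Eventually.of_forall fun s => ?_)
    have h1 : (∑ j ∈ s, (τ (n j)).smulRight (S (u (k j)))) ∈ compactOperator (RingHom.id ℂ) X X := by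
      refine Submodule.sum_mem _ fun j _ => ?_
      show IsCompactOperator _
      have h2 : (τ (n j)).smulRight (S (u (k j)))
          = (ContinuousLinearMap.smulRight (1 : ℂ →L[ℂ] ℂ) (S (u (k j)))).comp (τ (n j)) := by
        ext v
        simp
      rw [h2]
      exact (isCompactOperator_of_locallyCompactSpace_dom (τ (n j))).clm_comp
        (ContinuousLinearMap.smulRight (1 : ℂ →L[ℂ] ℂ) (S (u (k j))))
    exact h1

/-- No multiplicative isomorphism for a space which contains `ℓ₁` and a sequence with an upper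
`2`-estimate. -/
theorem not_multiplicative_of_upper [CompleteSpace X] {Γ : Type v} (hX : ContainsEllOne X)
    (hU : HasUpperTwo X) (Ψ : Calkin X ≃L[ℂ] EllOneUnit Γ) : ¬ IsMultiplicative (Ψ : Calkin X → EllOneUnit Γ) := by
  intro hm
  obtain ⟨S, hS, hSS⟩ := exists_nilpotent hX hU
  have h0 : toCalkin (S.comp S) = 0 := by
    show Submodule.Quotient.mk _ = 0
    rw [Submodule.Quotient.mk_eq_zero]
    exact hSS
  obtain ⟨h1, h2⟩ := hm S S
  rw [h0, map_zero] at h1
  have h3 : (Ψ (toCalkin S)).2 = 0 := by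
    have : (Ψ (toCalkin S)).2 * (Ψ (toCalkin S)).2 = 0 := h1.symm
    exact mul_self_eq_zero.mp this
  have h4 : ∀ g, (Ψ (toCalkin S)).1 g = 0 := by
    intro g
    have h5 := h2 g
    rw [h0, map_zero, h3, zero_mul, add_zero, add_zero] at h5
    exact mul_self_eq_zero.mp h5.symm
  have h6 : Ψ (toCalkin S) = 0 := by
    refine Prod.ext ?_ h3
    ext g
    exact h4 g
  have h7 : toCalkin S = 0 := by
    have := (map_eq_zero_iff Ψ Ψ.injective).mp h6
    exact this
  apply hS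
  have h8 : (Submodule.Quotient.mk S : Calkin X) = 0 := h7
  rw [Submodule.Quotient.mk_eq_zero] at h8
  exact h8

end Pool.Agent.Lib.MP_66dece_an
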