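import Pool.Agent.Lib.MP_66dece_an.Mult
import Pool.Agent.Lib.MP_66dece_an.Upper

/-!
# Multiplicative isomorphisms: complemented subspaces
-/

set_option autoImplicit false

namespace Pool.Agent.Lib.MP_66dece_an

universe u v w

open Finset

/-- A noncompact operator has no finite net for some positive constant. -/
theorem exists_noNet_of_not_compact {X : Type u} [NormedAddCommGroup X] [NormedSpace ℂ X]
    [CompleteSpace X] {S : X →L[ℂ] X} (hS : ¬ IsCompactOperator S) : ∃ c > 0, NoNet S c := by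
  by_contra hno
  push Not at hno
  apply hS
  have h1 : TotallyBounded (S '' Metric.closedBall 0 1) := by
    rw [Metric.totallyBounded_iff]
    intro ε hε
    have h2 := hno ε hε
    unfold NoNet at h2
    push Not at h2
    obtain ⟨F, hF⟩ := h2
    refine ⟨F, F.finite_toSet, ?_⟩
    rintro _ ⟨x, hx, rfl⟩
    obtain ⟨y, hy, hxy⟩ := hF x (by simpa using hx)
    refine Set.mem_biUnion hy ?_
    rw [Metric.mem_ball, dist_eq_norm]
    exact hxy
  have h3 : IsCompact (closure (S '' Metric.closedBall 0 1)) := h1.closure.isCompact_of_isClosed isClosed_closure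
  exact (isCompactOperator_iff_isCompact_closure_image_closedBall
    (S : X →ₗ[ℂ] X) one_pos).mpr h3

section

variable {X : Type u} [NormedAddCommGroup X] [NormedSpace ℂ X] {Γ : Type v}
  {Y : Type w} [NormedAddCommGroup Y] [NormedSpace ℂ Y]

/-- The compression `S ↦ Ψ [i S r]`. -/
noncomputable def compMap (Ψ : Calkin X ≃L[ℂ] EllOneUnit Γ) (i : Y →L[ℂ] X) (r : X →L[ℂ] Y) :
    (Y →L[ℂ] Y) →L[ℂ] EllOneUnit Γ :=
  (inducedMap (Ψ : Calkin X →L[ℂ] EllOneUnit Γ)).comp
    ((ContinuousLinearMap.compL ℂ X Y X i).comp ((ContinuousLinearMap.compL ℂ X Y Y).flip r))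

theorem compMap_apply (Ψ : Calkin X ≃L[ℂ] EllOneUnit Γ) (i : Y →L[ℂ] X) (r : X →L[ℂ] Y)
    (S : Y →L[ℂ] Y) : compMap Ψ i r S = Ψ (toCalkin (i.comp (S.comp r))) := rfl

theorem compMap_compact (Ψ : Calkin X ≃L[ℂ] EllOneUnit Γ) (i : Y →L[ℂ] X) (r : X →L[ℂ] Y)
    {K : Y →L[ℂ] Y} (hK : IsCompactOperator K) : compMap Ψ i r K = 0 := by
  rw [compMap_apply, toCalkin_eq_zero.mpr, map_zero]
  exact (hK.comp_clm r).clm_comp i

theorem compact_of_compMap (Ψ : Calkin X ≃L[ℂ] EllOneUnit Γ) {i : Y →L[ℂ] X} {r : X →L[ℂ] Y}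
    (hri : r.comp i = ContinuousLinearMap.id ℂ Y) {S : Y →L[ℂ] Y} (hS : compMap Ψ i r S = 0) :
    IsCompactOperator S := by
  rw [compMap_apply] at hS
  have h1 : IsCompactOperator (i.comp (S.comp r)) := by
    rw [← toCalkin_eq_zero]
    exact (map_eq_zero_iff Ψ Ψ.injective).mp hS
  have h2 : IsCompactOperator (r.comp ((i.comp (S.comp r)).comp i)) :=
    (h1.comp_clm i).clm_comp r
  have h3 : r.comp ((i.comp (S.comp r)).comp i) = S := by
    have h4 : ∀ y, r (i y) = y := fun y => by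
      have := congrArg (fun f : Y →L[ℂ] Y => f y) hri
      simpa using this
    ext y
    simp [h4]
  rwa [h3] at h2

theorem compMap_near (Ψ : Calkin X ≃L[ℂ] EllOneUnit Γ) {i : Y →L[ℂ] X} {r : X →L[ℂ] Y}
    (hri : r.comp i = ContinuousLinearMap.id ℂ Y) {B : ℝ} (hB : ∀ y : EllOneUnit Γ,
      ∃ S : X →L[ℂ] X, inducedMap (Ψ : Calkin X →L[ℂ] EllOneUnit Γ) S = y ∧ ‖S‖ ≤ B * ‖y‖)
    (S : Y →L[ℂ] Y) {ε : ℝ} (hε : 0 < ε) :
    ∃ K : Y →L[ℂ] Y, IsCompactOperator K ∧ ‖S - K‖ ≤ (‖r‖ * ‖i‖ * B) * ‖compMap Ψ i r S‖ + ε := by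
  have h0 : 0 < ‖r‖ * ‖i‖ + 1 := by positivity
  obtain ⟨K', hK1, hK2⟩ := exists_compact_near Ψ hB (i.comp (S.comp r)) (div_pos hε h0)
  refine ⟨r.comp (K'.comp i), (hK1.comp_clm i).clm_comp r, ?_⟩
  have h4 : ∀ y, r (i y) = y := fun y => by
    have := congrArg (fun f : Y →L[ℂ] Y => f y) hri
    simpa using this
  have h1 : S - r.comp (K'.comp i) = r.comp ((i.comp (S.comp r) - K').comp i) := by
    ext y
    simp [h4]
  have h2 : ‖S - r.comp (K'.comp i)‖ ≤ ‖r‖ * ‖i‖ * ‖i.comp (S.comp r) - K'‖ := by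
    rw [h1]
    calc ‖r.comp ((i.comp (S.comp r) - K').comp i)‖
        ≤ ‖r‖ * ‖(i.comp (S.comp r) - K').comp i‖ := ContinuousLinearMap.opNorm_comp_le _ _
      _ ≤ ‖r‖ * (‖i.comp (S.comp r) - K'‖ * ‖i‖) := by
          gcongr
          exact ContinuousLinearMap.opNorm_comp_le _ _
      _ = _ := by ring
  have h3 : inducedMap (Ψ : Calkin X →L[ℂ] EllOneUnit Γ) (i.comp (S.comp r)) = compMap Ψ i r S :=
    rfl
  rw [h3] at hK2
  have h5 : ‖r‖ * ‖i‖ * (ε / (‖r‖ * ‖i‖ + 1)) ≤ ε := by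
    rw [← mul_div_assoc, div_le_iff₀ h0]
    nlinarith [mul_nonneg (norm_nonneg r) (norm_nonneg i)]
  calc ‖S - r.comp (K'.comp i)‖ ≤ ‖r‖ * ‖i‖ * (B * ‖compMap Ψ i r S‖ + ε / (‖r‖ * ‖i‖ + 1)) :=
        le_trans h2 (by gcongr)
    _ = (‖r‖ * ‖i‖ * B) * ‖compMap Ψ i r S‖ + ‖r‖ * ‖i‖ * (ε / (‖r‖ * ‖i‖ + 1)) := by ring
    _ ≤ _ := by linarith

theorem compMap_mul {Ψ : Calkin X ≃L[ℂ] EllOneUnit Γ} (hΨ : IsMultiplicative Ψ)
    {i : Y →L[ℂ] X} {r : X →L[ℂ] Y} (hri : r.comp i = ContinuousLinearMap.id ℂ Y) :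
    MulMap (compMap Ψ i r) := by
  intro S T
  have h4 : ∀ y, r (i y) = y := fun y => by
    have := congrArg (fun f : Y →L[ℂ] Y => f y) hri
    simpa using this
  have e0 : i.comp ((S.comp T).comp r) = (i.comp (S.comp r)).comp (i.comp (T.comp r)) := by
    ext y
    simp [h4]
  rw [compMap_apply, compMap_apply, compMap_apply, e0]
  exact hΨ _ _

/-- The class of the projection `i r` is an idempotent. -/
theorem proj_idem {Ψ : Calkin X ≃L[ℂ] EllOneUnit Γ} (hΨ : IsMultiplicative Ψ)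
    {i : Y →L[ℂ] X} {r : X →L[ℂ] Y} (hri : r.comp i = ContinuousLinearMap.id ℂ Y) :
    ((Ψ (toCalkin (i.comp r))).2 = 0 ∨ (Ψ (toCalkin (i.comp r))).2 = 1) ∧
    ∀ g, (Ψ (toCalkin (i.comp r))).1 g =
      (Ψ (toCalkin (i.comp r))).1 g * (Ψ (toCalkin (i.comp r))).1 g
        + 2 * (Ψ (toCalkin (i.comp r))).2 * (Ψ (toCalkin (i.comp r))).1 g := by
  have h1 := hΨ (i.comp r) (i.comp r)
  have h2 : (i.comp r).comp (i.comp r) = i.comp r := by
    have h4 : ∀ y, r (i y) = y := fun y => by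
      have := congrArg (fun f : Y →L[ℂ] Y => f y) hri
      simpa using this
    ext y
    simp [h4]
  rw [h2] at h1
  obtain ⟨h3, h4⟩ := h1
  refine ⟨?_, fun g => ?_⟩
  · set l := (Ψ (toCalkin (i.comp r))).2
    have h5 : l * (l - 1) = 0 := by
      rw [mul_sub, mul_one, ← h3, sub_self]
    rcases mul_eq_zero.mp h5 with h6 | h6
    · exact Or.inl h6
    · exact Or.inr (sub_eq_zero.mp h6)
  · conv_lhs => rw [h4 g]
    ring

/-- If `Y` contains `ℓ₁`, then it has no upper `2`-estimate sequence. -/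
theorem algGood_cases [CompleteSpace Y] (hY : AlgGood Y) {Ψ : Calkin X ≃L[ℂ] EllOneUnit Γ}
    (hΨ : IsMultiplicative Ψ) {i : Y →L[ℂ] X} {r : X →L[ℂ] Y}
    (hri : r.comp i = ContinuousLinearMap.id ℂ Y) :
    TopologicalSpace.SeparableSpace Y ∧ (BCAP Y ∨ ¬ ContainsEllOne Y ∨ HasDecomposition Y) := by
  obtain ⟨hsep, h1 | h1 | h1 | h1⟩ := hY
  · exact ⟨hsep, Or.inl h1⟩
  · exact ⟨hsep, Or.inr (Or.inl h1)⟩
  · exact ⟨hsep, Or.inr (Or.inr h1)⟩
  · refine ⟨hsep, Or.inr (Or.inl fun h2 => ?_)⟩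
    obtain ⟨S, hS, hSS⟩ := exists_nilpotent h2 h1
    have h3 := compMap_mul hΨ hri S S
    rw [compMap_compact Ψ i r hSS] at h3
    obtain ⟨h4, h5⟩ := h3
    have h6 : (compMap Ψ i r S).2 = 0 := mul_self_eq_zero.mp h4.symm
    refine hS (compact_of_compMap Ψ hri (Prod.ext ?_ h6))
    ext g
    have h7 := h5 g
    rw [h6, zero_mul, add_zero, add_zero] at h7
    exact mul_self_eq_zero.mp h7.symm

/-- If `Y` is good, then the class of the projection is not of the form `1 - 1_F`. -/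
theorem proj_snd_eq_zero [Uncountable Γ] [CompleteSpace X] [CompleteSpace Y] (hY : AlgGood Y)
    {Ψ : Calkin X ≃L[ℂ] EllOneUnit Γ} (hΨ : IsMultiplicative Ψ)
    {i : Y →L[ℂ] X} {r : X →L[ℂ] Y} (hri : r.comp i = ContinuousLinearMap.id ℂ Y) :
    (Ψ (toCalkin (i.comp r))).2 = 0 := by
  classical
  obtain ⟨h01, hidem⟩ := proj_idem hΨ hri
  rcases h01 with h0 | h1
  · exact h0
  exfalso
  set a := (Ψ (toCalkin (i.comp r))).1 with ha
  have hcount : {g | a g ≠ 0}.Countable := by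
    have := (summable_one a).countable_support
    refine this.mono fun g hg => ?_
    simp only [Function.mem_support, ne_eq, norm_eq_zero]
    exact hg
  have hunc := uncountable_compl hcount
  have hA : ∀ g : {g : Γ // g ∉ {g | a g ≠ 0}}, a g = 0 := fun g => by
    have := g.2
    simpa using this
  obtain ⟨B, hB0, hB⟩ := exists_lift Ψ
  choose T hT1 hT2 using fun g : Γ => hB (unitVec g)
  have hTΨ : ∀ g, Ψ (toCalkin (T g)) = unitVec g := fun g => hT1 g
  have hTR : ∀ g : {g : Γ // g ∉ {g | a g ≠ 0}}, Ψ (toCalkin ((T g).comp (i.comp r))) =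
      unitVec (g : Γ) := by
    intro g
    obtain ⟨h2, h3⟩ := hΨ (T g) (i.comp r)
    rw [hTΨ] at h2 h3
    have e2 : (Ψ (toCalkin ((T g).comp (i.comp r)))).2 = 0 := by
      rw [h2, unitVec_snd, zero_mul]
    have e1 : (Ψ (toCalkin ((T g).comp (i.comp r)))).1 = (unitVec (g : Γ)).1 := by
      ext h
      rw [h3 h, ← ha, h1, unitVec_snd, unitVec_fst]
      by_cases hh : h = g
      · rw [hh, hA g]
        simp
      · simp [hh]
    exact Prod.ext e1 e2
  have hRTR : ∀ g : {g : Γ // g ∉ {g | a g ≠ 0}},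
      compMap Ψ i r (r.comp ((T g).comp i)) = unitVec (g : Γ) := by
    intro g
    have e0 : i.comp ((r.comp ((T g).comp i)).comp r)
        = (i.comp r).comp ((T g).comp (i.comp r)) := rfl
    rw [compMap_apply, e0]
    obtain ⟨h2, h3⟩ := hΨ (i.comp r) ((T g).comp (i.comp r))
    rw [hTR] at h2 h3
    have e2 : (Ψ (toCalkin ((i.comp r).comp ((T g).comp (i.comp r))))).2 = 0 := by
      rw [h2, unitVec_snd, mul_zero]
    have e1 : (Ψ (toCalkin ((i.comp r).comp ((T g).comp (i.comp r))))).1 = (unitVec (g : Γ)).1 := by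
      ext h
      rw [h3 h, ← ha, h1, unitVec_snd, unitVec_fst]
      by_cases hh : h = g
      · rw [hh, hA g]
        simp
      · simp [hh]
    exact Prod.ext e1 e2
  refine core_mult (algGood_cases hY hΨ hri) (compMap_mul hΨ hri) (fun S hS => compact_of_compMap Ψ hri hS)
    (B := ‖r‖ * ‖i‖ * B) (by positivity) (fun S ε hε => compMap_near Ψ hri hB S hε)
    (fun g : {g : Γ // g ∉ {g | a g ≠ 0}} => r.comp ((T g).comp i)) Subtype.val
    Subtype.val_injective hRTR (M := ‖r‖ * (B * ‖i‖))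
    (c₀ := 1 / (‖compMap Ψ i r‖ + 1)) ?_ (by positivity) ?_
  · intro g
    refine le_trans (ContinuousLinearMap.opNorm_comp_le _ _) ?_
    gcongr
    refine le_trans (ContinuousLinearMap.opNorm_comp_le _ _) ?_
    gcongr
    have := hT2 g
    rwa [norm_unitVec, mul_one] at this
  · intro s c K hK
    have h2 : compMap Ψ i r (∑ g ∈ s, c g • r.comp ((T g).comp i) - K)
        = ∑ g ∈ s, c g • unitVec (g : Γ) := by
      rw [map_sub, map_sum, compMap_compact Ψ i r hK, sub_zero]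
      exact sum_congr rfl fun g _ => by rw [map_smul, hRTR]
    have h3 : ‖∑ g ∈ s, c g • unitVec (g : Γ)‖ = ∑ g ∈ s, ‖c g‖ := by
      obtain ⟨s', c', -, e1, e2⟩ := subtype_comb (fun g : Γ => unitVec g) _ s c
      rw [← e1, ← e2, norm_sum_unitVec]
    have h4 : ∑ g ∈ s, ‖c g‖ ≤ (‖compMap Ψ i r‖ + 1) *
        ‖∑ g ∈ s, c g • r.comp ((T g).comp i) - K‖ := by
      rw [← h3, ← h2]
      refine le_trans ((compMap Ψ i r).le_opNorm _) ?_
      gcongr
      linarith
    rw [one_div, inv_mul_le_iff₀ (by positivity)]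
    exact h4

/-- The class of a projection with vanishing scalar part has finite support. -/
theorem proj_finite {Ψ : Calkin X ≃L[ℂ] EllOneUnit Γ} (hΨ : IsMultiplicative Ψ)
    {i : Y →L[ℂ] X} {r : X →L[ℂ] Y} (hri : r.comp i = ContinuousLinearMap.id ℂ Y)
    (h0 : (Ψ (toCalkin (i.comp r))).2 = 0) :
    {g | (Ψ (toCalkin (i.comp r))).1 g ≠ 0}.Finite := by
  obtain ⟨-, hidem⟩ := proj_idem hΨ hri
  set a := (Ψ (toCalkin (i.comp r))).1 with ha
  have h1 : ∀ g, a g ≠ 0 → 1 ≤ ‖a g‖ := by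
    intro g hg
    have h2 := hidem g
    rw [h0, mul_zero, zero_mul, add_zero] at h2
    have h3 : a g = 1 := by
      have h4 : a g * a g = a g * 1 := by rw [mul_one]; exact h2.symm
      exact mul_left_cancel₀ hg h4
    rw [h3, norm_one]
  have h2 := (summable_one a).tendsto_cofinite_zero
  have h3 : ∀ᶠ g in Filter.cofinite, ‖a g‖ < 1 := h2.eventually (gt_mem_nhds one_pos)
  rw [Filter.eventually_cofinite] at h3
  refine h3.subset fun g hg => ?_
  simp only [Set.mem_ofPred_eq, not_lt]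
  exact h1 g hg

/-- Theorem 3: complemented good subspaces have finite dimensional Calkin algebras. -/
theorem finiteDimensional_calkin [Uncountable Γ] [CompleteSpace X] [CompleteSpace Y]
    (hY : AlgGood Y) {Ψ : Calkin X ≃L[ℂ] EllOneUnit Γ} (hΨ : IsMultiplicative Ψ)
    {i : Y →L[ℂ] X} {r : X →L[ℂ] Y} (hri : r.comp i = ContinuousLinearMap.id ℂ Y) :
    FiniteDimensional ℂ (Calkin Y) := by
  have h0 := proj_snd_eq_zero hY hΨ hri
  have hfin := proj_finite hΨ hri h0
  set a := (Ψ (toCalkin (i.comp r))).1 with ha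
  set F := {g | a g ≠ 0} with hF
  have : Finite F := hfin
  let φ : (Y →L[ℂ] Y) →ₗ[ℂ] (F → ℂ) :=
    { toFun := fun S g => (compMap Ψ i r S).1 g
      map_add' := fun S T => by
        ext g
        rw [map_add]
        rfl
      map_smul' := fun c S => by
        ext g
        rw [map_smul]
        rfl }
  have hker : ∀ S, φ S = 0 → IsCompactOperator S := by
    intro S hS
    refine compact_of_compMap Ψ hri ?_
    have e0 : (i.comp r).comp (i.comp (S.comp r)) = i.comp (S.comp r) := by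
      have h4 : ∀ y, r (i y) = y := fun y => by
        have := congrArg (fun f : Y →L[ℂ] Y => f y) hri
        simpa using this
      ext y
      simp [h4]
    obtain ⟨h2, h3⟩ := hΨ (i.comp r) (i.comp (S.comp r))
    rw [e0] at h2 h3
    rw [← compMap_apply, h0, zero_mul] at h2
    refine Prod.ext ?_ h2
    ext g
    by_cases hg : a g = 0
    · have h4 := h3 g
      rw [← compMap_apply, ← ha, hg, h0] at h4
      rw [h4]
      simp
    · exact congrFun hS ⟨g, hg⟩
  have hle : compactOperator (RingHom.id ℂ) Y Y ≤ LinearMap.ker φ := by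
    intro K hK
    rw [LinearMap.mem_ker]
    ext g
    show (compMap Ψ i r K).1 g = 0
    rw [compMap_compact Ψ i r hK]
    rfl
  refine FiniteDimensional.of_injective ((compactOperator (RingHom.id ℂ) Y Y).liftQ φ hle) ?_
  rw [← LinearMap.ker_eq_bot, Submodule.ker_liftQ_eq_bot]
  intro S hS
  exact hker S (LinearMap.mem_ker.mp hS)

end

/-- Theorem 2: for `Nice` spaces there is no multiplicative isomorphism. -/
theorem not_multiplicative {Γ : Type v} [Uncountable Γ] {X : Type u} [NormedAddCommGroup X]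
    [NormedSpace ℂ X] [CompleteSpace X] (hX : Nice X) :
    ¬ ∃ Ψ : Calkin X ≃L[ℂ] EllOneUnit Γ, IsMultiplicative Ψ := by
  rintro ⟨Ψ, hΨ⟩
  obtain ⟨B, hB0, hB⟩ := exists_lift Ψ
  choose T hT1 hT2 using fun g : Γ => hB (unitVec g)
  have hTΨ : ∀ g, Ψ (toCalkin (T g)) = unitVec g := fun g => hT1 g
  have hTnc : ∀ g, ¬ IsCompactOperator (T g) := by
    intro g hg
    have h1 := hTΨ g
    rw [toCalkin_eq_zero.mpr hg, map_zero] at h1
    have h2 := norm_unitVec g
    rw [← h1, norm_zero] at h2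
    exact zero_ne_one h2
  have hsep : ∀ g, ∃ c > 0, ∃ w : ℕ → X, (∀ n, ‖w n‖ ≤ 1) ∧
      ∀ m n, m ≠ n → c ≤ ‖T g (w m) - T g (w n)‖ := by
    intro g
    obtain ⟨c, hc, hN⟩ := exists_noNet_of_not_compact (hTnc g)
    exact ⟨c, hc, hN.exists_sep⟩
  choose c hc w hw1 hw2 using hsep
  obtain ⟨γ⟩ : Nonempty (ℕ ↪ Γ) := ⟨Infinite.natEmbedding Γ⟩
  obtain ⟨Y, _, _, _, hY, i, r, hri, hs⟩ := hX (⋃ k, Set.range (w (γ k)))
    (Set.countable_iUnion fun k => Set.countable_range _)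
  have h0 := proj_snd_eq_zero hY hΨ hri
  have hfin := proj_finite hΨ hri h0
  obtain ⟨k, hk⟩ : ∃ k, (Ψ (toCalkin (i.comp r))).1 (γ k) = 0 := by
    by_contra hno
    push Not at hno
    exact Set.infinite_univ (hfin.preimage γ.injective.injOn |>.subset fun k _ => hno k)
  have hcomp : IsCompactOperator ((T (γ k)).comp (i.comp r)) := by
    rw [← toCalkin_eq_zero]
    refine (map_eq_zero_iff Ψ Ψ.injective).mp ?_
    obtain ⟨h2, h3⟩ := hΨ (T (γ k)) (i.comp r)
    rw [hTΨ] at h2 h3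
    refine Prod.ext ?_ ?_
    · ext h
      rw [h3 h, h0, unitVec_snd, unitVec_fst]
      by_cases hh : h = γ k
      · rw [hh, hk]
        simp
      · simp [hh]
    · rw [h2, unitVec_snd, zero_mul]
      rfl
  obtain ⟨N, hN⟩ := compact_pigeon hcomp (hc (γ k))
  obtain ⟨m, n, hmn, -, hlt⟩ := hN (w (γ k)) (hw1 (γ k))
  have hR : ∀ n, (T (γ k)).comp (i.comp r) (w (γ k) n) = T (γ k) (w (γ k) n) := by
    intro n
    obtain ⟨y, hy⟩ := hs (Set.mem_iUnion.mpr ⟨k, n, rfl⟩)
    have h4 : r (i y) = y := by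
      have := congrArg (fun f : Y →L[ℂ] Y => f y) hri
      simpa using this
    rw [← hy]
    simp [h4]
  rw [hR, hR] at hlt
  exact absurd (hw2 (γ k) m n (by omega)) (not_le.mpr hlt)

end Pool.Agent.Lib.MP_66dece_an
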