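import Pool.Agent.Lib.MP_66dece_an.Net

/-!
# Disjoint blocks
-/

set_option autoImplicit false

namespace Pool.Agent.Lib.MP_66dece_an

universe u w

open Finset

/-- Either there is an uncountable disjoint family of blocks with property `Q`, or countably many
indices meet all blocks with property `Q`. -/
theorem block_dichotomy {A : Type w} (Q : Finset A → (A → ℂ) → Prop)
    (hQ : ∀ s c, Q s c → s.Nonempty) :
    (∃ 𝓕 : Set (Finset A × (A → ℂ)), ¬ 𝓕.Countable ∧ (∀ β ∈ 𝓕, Q β.1 β.2) ∧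
      𝓕.PairwiseDisjoint Prod.fst) ∨
    ∃ N : Set A, N.Countable ∧ ∀ s c, Q s c → ∃ a ∈ s, a ∈ N := by
  classical
  obtain ⟨𝓕, h𝓕⟩ := zorn_subset
    {𝓕 : Set (Finset A × (A → ℂ)) | (∀ β ∈ 𝓕, Q β.1 β.2) ∧ 𝓕.PairwiseDisjoint Prod.fst} (by
      intro c hc hch
      refine ⟨⋃₀ c, ⟨?_, ?_⟩, fun s hs => Set.subset_sUnion_of_mem hs⟩
      · rintro β ⟨s, hs, hβ⟩
        exact (hc hs).1 β hβ
      · rintro β ⟨s, hs, hβ⟩ β' ⟨s', hs', hβ'⟩ hne
        rcases hch.total hs hs' with h | h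
        · exact (hc hs').2 (h hβ) hβ' hne
        · exact (hc hs).2 hβ (h hβ') hne)
  by_cases hcount : 𝓕.Countable
  · right
    refine ⟨⋃ β ∈ 𝓕, (β.1 : Set A), hcount.biUnion fun β _ => β.1.countable_toSet, ?_⟩
    intro s c hsc
    by_contra hno
    push Not at hno
    have h1 : insert (s, c) 𝓕 ∈
        {𝓕 : Set (Finset A × (A → ℂ)) | (∀ β ∈ 𝓕, Q β.1 β.2) ∧ 𝓕.PairwiseDisjoint Prod.fst} := by
      refine ⟨?_, ?_⟩
      · rintro β (rfl | hβ)
        · exact hsc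
        · exact h𝓕.prop.1 β hβ
      · refine h𝓕.prop.2.insert fun β hβ _ => ?_
        rw [disjoint_left]
        intro a ha haβ
        exact hno a ha (Set.mem_biUnion hβ haβ)
    have h2 : insert (s, c) 𝓕 ⊆ 𝓕 := h𝓕.le_of_ge h1 (Set.subset_insert _ _)
    have h3 : (s, c) ∈ 𝓕 := h2 (Set.mem_insert _ _)
    obtain ⟨a, ha⟩ := hQ s c hsc
    exact hno a ha (Set.mem_biUnion h3 ha)
  · left
    exact ⟨𝓕, hcount, h𝓕.prop.1, h𝓕.prop.2⟩

/-- Pigeonhole: a map from an uncountable set to a countable type is constant on an uncountable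
subset. -/
theorem exists_uncountable_fiber {α β : Type*} [Countable β] {S : Set α} (hS : ¬ S.Countable)
    (f : α → β) : ∃ b, ¬ {a ∈ S | f a = b}.Countable := by
  by_contra h
  push Not at h
  apply hS
  have : S = ⋃ b, {a ∈ S | f a = b} := by
    ext a
    simp
  rw [this]
  exact Set.countable_iUnion h

/-- Linear combinations of disjoint blocks are linear combinations of the original family. -/
theorem block_comb {A : Type w} {E : Type*} [AddCommGroup E] [Module ℂ E] (T : A → E)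
    (𝓕 : Set (Finset A × (A → ℂ))) (h1 : ∀ β ∈ 𝓕, ∑ a ∈ β.1, ‖β.2 a‖ = 1)
    (h2 : 𝓕.PairwiseDisjoint Prod.fst) (S : Finset 𝓕) (d : 𝓕 → ℂ) :
    ∃ (s : Finset A) (c : A → ℂ), ∑ a ∈ s, ‖c a‖ = ∑ β ∈ S, ‖d β‖ ∧
      ∑ a ∈ s, c a • T a = ∑ β ∈ S, d β • ∑ a ∈ β.1.1, β.1.2 a • T a := by
  classical
  set s := S.biUnion fun β => β.1.1 with hs
  set c : A → ℂ := fun a => ∑ β ∈ S, if a ∈ β.1.1 then d β * β.1.2 a else 0 with hc
  have hdisj : (S : Set 𝓕).PairwiseDisjoint fun β => β.1.1 := by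
    intro β _ β' _ hne
    exact h2 β.2 β'.2 (fun h => hne (Subtype.ext h))
  have hcβ : ∀ β ∈ S, ∀ a ∈ β.1.1, c a = d β * β.1.2 a := by
    intro β hβ a ha
    show ∑ β ∈ S, (if a ∈ β.1.1 then d β * β.1.2 a else 0) = _
    rw [sum_eq_single_of_mem β hβ]
    · rw [if_pos ha]
    · intro β' hβ' hne
      rw [if_neg]
      intro ha'
      exact (disjoint_left.mp (hdisj hβ' hβ hne)) ha' ha
  refine ⟨s, c, ?_, ?_⟩
  · rw [hs, sum_biUnion hdisj]
    refine sum_congr rfl fun β hβ => ?_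
    rw [sum_congr rfl (fun a ha => by rw [hcβ β hβ a ha, norm_mul]), ← mul_sum, h1 β.1 β.2,
      mul_one]
  · rw [hs, sum_biUnion hdisj]
    refine sum_congr rfl fun β hβ => ?_
    rw [smul_sum]
    refine sum_congr rfl fun a ha => ?_
    rw [hcβ β hβ a ha, smul_smul]

end Pool.Agent.Lib.MP_66dece_an
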