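import Mathlib

/-!
# Condensation points and a fusion sequence
-/

set_option autoImplicit false

namespace Pool.Agent.Lib.MP_66dece_an

open Topology TopologicalSpace

/-- In an uncountable second countable space there is a nonempty set of points all of whose
neighbourhoods contain infinitely many points of the set. -/
theorem exists_condensation (A : Type*) [TopologicalSpace A] [SecondCountableTopology A]
    [Uncountable A] :
    ∃ A₁ : Set A, A₁.Nonempty ∧ ∀ a ∈ A₁, ∀ U ∈ 𝓝 a, (U ∩ A₁).Infinite := by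
  set N : Set A := ⋃ b ∈ {b ∈ countableBasis A | b.Countable}, b with hN
  have hNc : N.Countable := by
    refine Set.Countable.biUnion ((countable_countableBasis A).mono (Set.sep_subset _ _)) ?_
    intro b hb
    exact hb.2
  refine ⟨Nᶜ, ?_, ?_⟩
  · by_contra hne
    rw [Set.not_nonempty_iff_eq_empty, Set.compl_empty_iff] at hne
    rw [hne] at hNc
    exact Set.not_countable_univ hNc
  · intro a ha U hU
    obtain ⟨b, hb, hab, hbU⟩ := (isBasis_countableBasis A).mem_nhds_iff.mp hU
    have hbc : ¬ b.Countable := by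
      intro hc
      apply ha
      rw [hN]
      exact Set.mem_biUnion (show b ∈ {b ∈ countableBasis A | b.Countable} from ⟨hb, hc⟩) hab
    intro hfin
    apply hbc
    have h1 : b ⊆ (U ∩ Nᶜ) ∪ N := by
      intro x hx
      by_cases hxN : x ∈ N
      · exact Or.inr hxN
      · exact Or.inl ⟨hbU hx, hxN⟩
    exact (hfin.countable.union hNc).mono h1

/-- The fusion sequence. -/
theorem exists_fusion {A : Type*} [TopologicalSpace A] (A₁ : Set A) (hne : A₁.Nonempty)
    (h : ∀ a ∈ A₁, ∀ U ∈ 𝓝 a, (U ∩ A₁).Infinite)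
    (U : ℕ → (ℕ → A) → ℕ → Set A)
    (hU : ∀ n g i, U n g i ∈ 𝓝 (g i))
    (hdep : ∀ n g g', (∀ j < 2 ^ n, g j = g' j) → ∀ i < 2 ^ n, U n g i = U n g' i) :
    ∃ g : ℕ → A, Function.Injective g ∧ (∀ i, g i ∈ A₁) ∧
      ∀ n, ∀ i < 2 ^ n, g (2 ^ n + i) ∈ U n g i := by
  classical
  obtain ⟨a0, ha0⟩ := hne
  let S : ℕ → (ℕ → A) → Set A := fun m f =>
    (U (Nat.log 2 m) f (m - 2 ^ Nat.log 2 m) ∩ A₁) \ (f '' Set.Iio m)
  let ch : ℕ → (ℕ → A) → A := fun m f =>
    if hs : (S m f).Nonempty then hs.some else a0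
  let G : ℕ → (ℕ → A) := fun k =>
    Nat.rec (fun _ => a0) (fun k f => Function.update f (k + 1) (ch (k + 1) f)) k
  have hG0 : G 0 = fun _ => a0 := rfl
  have hGs : ∀ k, G (k + 1) = Function.update (G k) (k + 1) (ch (k + 1) (G k)) := fun k => rfl
  let g : ℕ → A := fun i => G i i
  have hagree : ∀ k j, j ≤ k → G k j = g j := by
    intro k
    induction k with
    | zero =>
      intro j hj
      rw [Nat.le_zero.mp hj]
    | succ k ih =>
      intro j hj
      rcases Nat.lt_or_eq_of_le hj with h1 | h1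
      · rw [hGs, Function.update_of_ne (by omega)]
        exact ih j (by omega)
      · rw [h1]
  have hgs : ∀ k, g (k + 1) = ch (k + 1) (G k) := by
    intro k
    show G (k + 1) (k + 1) = _
    rw [hGs, Function.update_self]
  have hlog : ∀ m, 1 ≤ m → 2 ^ Nat.log 2 m ≤ m ∧ m - 2 ^ Nat.log 2 m < 2 ^ Nat.log 2 m := by
    intro m hm
    have h1 : 2 ^ Nat.log 2 m ≤ m := Nat.pow_log_le_self 2 (by omega)
    have h2 : m < 2 ^ (Nat.log 2 m + 1) := Nat.lt_pow_succ_log_self (by norm_num) m
    rw [pow_succ] at h2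
    exact ⟨h1, by omega⟩
  -- main step
  have hstep : ∀ k, (∀ j ≤ k, g j ∈ A₁) → g (k + 1) ∈ S (k + 1) (G k) := by
    intro k hk
    have hne : (S (k + 1) (G k)).Nonempty := by
      obtain ⟨h1, h2⟩ := hlog (k + 1) (by omega)
      set n := Nat.log 2 (k + 1) with hn
      set i := k + 1 - 2 ^ n with hi
      have hik : i ≤ k := by
        have : 1 ≤ 2 ^ n := Nat.one_le_two_pow
        omega
      have h3 : G k i ∈ A₁ := by rw [hagree k i hik]; exact hk i hik
      have h4 := h (G k i) h3 (U n (G k) i) (hU n (G k) i)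
      exact (h4.sdiff ((Set.finite_Iio (k + 1)).image (G k))).nonempty
    rw [hgs]
    show (if hs : (S (k + 1) (G k)).Nonempty then hs.some else a0) ∈ _
    rw [dif_pos hne]
    exact hne.some_mem
  have hmem : ∀ i, g i ∈ A₁ := by
    intro i
    induction i using Nat.strong_induction_on with
    | _ i ih =>
      rcases Nat.eq_zero_or_pos i with h0 | h0
      · rw [h0]; exact ha0
      · obtain ⟨k, rfl⟩ : ∃ k, i = k + 1 := ⟨i - 1, by omega⟩
        exact (hstep k (fun j hj => ih j (by omega))).1.2
  have hnew : ∀ k j, j ≤ k → g (k + 1) ≠ g j := by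
    intro k j hj heq
    have h1 := (hstep k (fun j _ => hmem j)).2
    apply h1
    exact ⟨j, by simp only [Set.mem_Iio]; omega, by rw [hagree k j hj, heq]⟩
  refine ⟨g, ?_, hmem, ?_⟩
  · intro i j hij
    rcases lt_trichotomy i j with h1 | h1 | h1
    · obtain ⟨k, rfl⟩ : ∃ k, j = k + 1 := ⟨j - 1, by omega⟩
      exact absurd hij.symm (hnew k i (by omega))
    · exact h1
    · obtain ⟨k, rfl⟩ : ∃ k, i = k + 1 := ⟨i - 1, by omega⟩
      exact absurd hij (hnew k j (by omega))
  · intro n i hi
    have hpos : 1 ≤ 2 ^ n := Nat.one_le_two_pow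
    obtain ⟨k, hk⟩ : ∃ k, 2 ^ n + i = k + 1 := ⟨2 ^ n + i - 1, by omega⟩
    have h1 := (hstep k (fun j _ => hmem j)).1.1
    have hl : Nat.log 2 (k + 1) = n := by
      rw [← hk]
      refine Nat.log_eq_of_pow_le_of_lt_pow (by omega) ?_
      rw [pow_succ]
      omega
    rw [hl, ← hk] at h1
    rw [show 2 ^ n + i - 2 ^ n = i by omega] at h1
    rw [hdep n g (G k) (fun j hj => (hagree k j (by omega)).symm) i hi]
    exact h1

/-- A family of uniformly Lipschitz maps from a separable space to a second countable space: the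
index set has a second countable topology for which the evaluations are continuous. -/
theorem exists_topology {A Y Z : Type*} [PseudoMetricSpace Y] [SeparableSpace Y] [Nonempty Y]
    [PseudoMetricSpace Z] [SecondCountableTopology Z] (F : A → Y → Z) (M : ℝ)
    (hF : ∀ a x y, dist (F a x) (F a y) ≤ M * dist x y) :
    ∃ _ : TopologicalSpace A, SecondCountableTopology A ∧ ∀ x, Continuous (fun a => F a x) := by
  let E : A → (ℕ → Z) := fun a n => F a (denseSeq Y n)
  let t : TopologicalSpace A := TopologicalSpace.induced E inferInstance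
  refine ⟨t, secondCountableTopology_induced A (ℕ → Z) E, fun x => ?_⟩
  have hE : Continuous E := continuous_induced_dom
  refine continuous_of_uniform_approx_of_continuous fun u hu => ?_
  obtain ⟨ε, hε, hεu⟩ := Metric.mem_uniformity_dist.mp hu
  have hM : 0 < |M| + 1 := by positivity
  obtain ⟨n, hn⟩ := (denseRange_denseSeq Y).exists_dist_lt x (div_pos hε hM)
  refine ⟨fun a => F a (denseSeq Y n), (continuous_apply n).comp hE, fun a => hεu ?_⟩
  calc dist (F a x) (F a (denseSeq Y n)) ≤ M * dist x (denseSeq Y n) := hF _ _ _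
    _ ≤ (|M| + 1) * dist x (denseSeq Y n) := by
        have h1 := le_abs_self M
        have h2 : 0 ≤ dist x (denseSeq Y n) := dist_nonneg
        nlinarith
    _ < (|M| + 1) * (ε / (|M| + 1)) := by gcongr
    _ = ε := by field_simp

/-- The fusion sequence for a uniformly Lipschitz family, with finite sets of test vectors. -/
theorem exists_fusion_near {A Y Z : Type*} [PseudoMetricSpace Y] [SeparableSpace Y] [Nonempty Y]
    [PseudoMetricSpace Z] [SecondCountableTopology Z] (F : A → Y → Z) (M : ℝ)
    (hF : ∀ a x y, dist (F a x) (F a y) ≤ M * dist x y) [Uncountable A]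
    (D : ℕ → (ℕ → A) → Finset Y) (η : ℕ → ℝ) (hη : ∀ n, 0 < η n)
    (hD : ∀ n g g', (∀ j < 2 ^ n, g j = g' j) → D n g = D n g') :
    ∃ g : ℕ → A, Function.Injective g ∧ ∀ n, ∀ i < 2 ^ n, ∀ m ≤ n, ∀ x ∈ D m g,
      dist (F (g (2 ^ n + i)) x) (F (g i) x) < η n := by
  obtain ⟨t, ht, hc⟩ := exists_topology F M hF
  obtain ⟨A₁, hne, hA₁⟩ := exists_condensation A
  obtain ⟨g, hg1, -, hg3⟩ := exists_fusion A₁ hne hA₁
    (fun n g i => {b | ∀ m ∈ Finset.range (n + 1), ∀ x ∈ D m g, dist (F b x) (F (g i) x) < η n})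
    (by
      intro n g i
      refine IsOpen.mem_nhds ?_ ?_
      · have : {b | ∀ m ∈ Finset.range (n + 1), ∀ x ∈ D m g, dist (F b x) (F (g i) x) < η n}
            = ⋂ m ∈ Finset.range (n + 1), ⋂ x ∈ D m g, {b | dist (F b x) (F (g i) x) < η n} := by
          ext b
          simp
        rw [this]
        refine isOpen_biInter_finset fun m _ => isOpen_biInter_finset fun x _ => ?_
        exact isOpen_lt ((hc x).dist continuous_const) continuous_const
      · intro m _ x _
        rw [dist_self]
        exact hη n)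
    (by
      intro n g g' hgg i hi
      have h1 : ∀ m ∈ Finset.range (n + 1), D m g = D m g' := by
        intro m hm
        refine hD m g g' fun j hj => hgg j (lt_of_lt_of_le hj ?_)
        exact Nat.pow_le_pow_right (by norm_num) (by simpa [Nat.lt_succ_iff] using hm)
      ext b
      simp only [Set.mem_ofPred_eq]
      refine forall₂_congr fun m hm => ?_
      rw [h1 m hm, hgg i hi])
  refine ⟨g, hg1, fun n i hi m hm x hx => ?_⟩
  exact hg3 n i hi m (by simp; omega) x hx

end Pool.Agent.Lib.MP_66dece_an
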