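import Pool.Agent.Lib.MP_66dece_an.Helly
import Pool.Agent.Lib.MP_66dece_an.Fusion
import Pool.Agent.Lib.MP_66dece_an.Rad

/-!
# An uncountable `ℓ₁` family in the dual of a separable space
-/

set_option autoImplicit false

namespace Pool.Agent.Lib.MP_66dece_an

universe u w

open Finset

variable {Y : Type u} [NormedAddCommGroup Y] [NormedSpace ℂ Y]

/-- Every pattern of binary digits occurs. -/
theorem exists_pattern (p : ℕ → Bool) (N : ℕ) : ∃ i < 2 ^ N, ∀ k < N, i.testBit k = p k := by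
  induction N with
  | zero => exact ⟨0, by simp, fun k hk => absurd hk (by omega)⟩
  | succ N ih =>
    obtain ⟨i, hi, hp⟩ := ih
    cases hb : p N with
    | false =>
      refine ⟨i, by rw [pow_succ]; omega, fun k hk => ?_⟩
      rcases Nat.lt_succ_iff_lt_or_eq.mp hk with h | h
      · exact hp k h
      · rw [h, Nat.testBit_lt_two_pow hi, hb]
    | true =>
      refine ⟨2 ^ N + i, by rw [pow_succ]; omega, fun k hk => ?_⟩
      rcases Nat.lt_succ_iff_lt_or_eq.mp hk with h | h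
      · rw [Nat.testBit_two_pow_add_gt h]
        exact hp k h
      · rw [h, Nat.testBit_two_pow_add_eq, Nat.testBit_lt_two_pow hi, hb]
        rfl

/-- Signs chosen for a real sequence. -/
theorem exists_signs (r : ℕ → ℝ) (N : ℕ) : ∃ i < 2 ^ N, ∀ k < N, rs k i * (r k : ℂ) = (|r k| : ℝ) := by
  obtain ⟨i, hi, hp⟩ := exists_pattern (fun k => decide (r k < 0)) N
  refine ⟨i, hi, fun k hk => ?_⟩
  unfold rs
  rw [hp k hk]
  by_cases h : r k < 0
  · simp [h, abs_of_neg h]
  · simp [h, abs_of_nonneg (not_lt.mp h)]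

/-- Lower `ℓ₁` estimate from functionals which are nearly a multiple of the signs. -/
theorem lower_of_signs {x : ℕ → Y} {ψ : ℕ → StrongDual ℂ Y} {M κ : ℝ} (hM : ∀ i, ‖ψ i‖ ≤ M)
    (hM1 : 0 < M) (hκ : 0 < κ) (h : ∀ i k, ‖ψ i (x k) - κ * rs k i‖ ≤ κ / 4)
    (s : Finset ℕ) (c : ℕ → ℂ) :
    κ / (4 * M) * ∑ n ∈ s, ‖c n‖ ≤ ‖∑ n ∈ s, c n • x n‖ := by
  classical
  -- a general estimate
  have key : ∀ (q : ℕ → ℂ) (r : ℕ → ℝ), (∀ n, ‖q n‖ = ‖c n‖) → (∀ n, (q n).re = r n) →
      κ * ∑ n ∈ s, |r n| - κ / 4 * ∑ n ∈ s, ‖c n‖ ≤ M * ‖∑ n ∈ s, q n • x n‖ := by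
    intro q r hq hr
    obtain ⟨i, -, hi⟩ := exists_signs r (s.sup id + 1)
    have h1 : ψ i (∑ n ∈ s, q n • x n) = ∑ n ∈ s, (κ * (rs n i * q n) + q n * (ψ i (x n) - κ * rs n i)) := by
      rw [map_sum]
      refine sum_congr rfl fun n _ => ?_
      rw [map_smul, smul_eq_mul]
      ring
    have h2 : (ψ i (∑ n ∈ s, q n • x n)).re ≤ M * ‖∑ n ∈ s, q n • x n‖ :=
      le_trans (Complex.re_le_norm _) (le_trans ((ψ i).le_opNorm _) (by gcongr; exact hM i))
    refine le_trans ?_ h2
    rw [h1, Complex.re_sum, mul_sum, mul_sum, ← sum_sub_distrib]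
    refine sum_le_sum fun n hn => ?_
    have hn' : n < s.sup id + 1 := by
      have := le_sup (f := id) hn
      simp only [id_eq] at this
      omega
    have h3 : (rs n i * q n).re = |r n| := by
      have h4 := hi n hn'
      unfold rs at h4 ⊢
      by_cases hb : i.testBit n = true
      · rw [if_pos hb] at h4 ⊢
        have h5 := congrArg Complex.re h4
        simp only [neg_mul, one_mul, Complex.neg_re, Complex.ofReal_re] at h5 ⊢
        rw [hr n]
        exact h5
      · rw [if_neg hb] at h4 ⊢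
        have h5 := congrArg Complex.re h4
        simp only [one_mul, Complex.ofReal_re] at h5 ⊢
        rw [hr n]
        exact h5
    have h6 : -(κ / 4 * ‖c n‖) ≤ (q n * (ψ i (x n) - κ * rs n i)).re := by
      have h7 : |(q n * (ψ i (x n) - κ * rs n i)).re| ≤ κ / 4 * ‖c n‖ := by
        refine le_trans (Complex.abs_re_le_norm _) ?_
        rw [norm_mul, hq n, mul_comm]
        gcongr
        exact h i n
      exact (abs_le.mp h7).1
    rw [Complex.add_re, Complex.re_ofReal_mul, h3]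
    linarith
  have h1 := key c (fun n => (c n).re) (fun _ => rfl) (fun _ => rfl)
  have h2 := key (fun n => -Complex.I * c n) (fun n => (c n).im) (fun n => by simp)
    (fun n => by simp)
  have h3 : ‖∑ n ∈ s, (-Complex.I * c n) • x n‖ = ‖∑ n ∈ s, c n • x n‖ := by
    have : ∑ n ∈ s, (-Complex.I * c n) • x n = (-Complex.I) • ∑ n ∈ s, c n • x n := by
      rw [smul_sum]
      exact sum_congr rfl fun n _ => by rw [smul_smul]
    rw [this, norm_smul]
    simp
  rw [h3] at h2
  have h4 : ∑ n ∈ s, ‖c n‖ ≤ ∑ n ∈ s, |(c n).re| + ∑ n ∈ s, |(c n).im| := by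
    rw [← sum_add_distrib]
    exact sum_le_sum fun n _ => Complex.norm_le_abs_re_add_abs_im _
  have h5 : κ / (4 * M) * ∑ n ∈ s, ‖c n‖ = (κ / 4 * ∑ n ∈ s, ‖c n‖) / M := by
    field_simp
  rw [h5, div_le_iff₀ hM1]
  have h6 : κ * ∑ n ∈ s, ‖c n‖ ≤ κ * ∑ n ∈ s, |(c n).re| + κ * ∑ n ∈ s, |(c n).im| := by
    rw [← mul_add]
    gcongr
  linarith

open Classical in
/-- A vector with the property `P`, if there is one. -/
noncomputable def pickVec (P : Y → Prop) : Y := if h : ∃ x, P x then h.choose else 0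

omit [NormedSpace ℂ Y] in
theorem pickVec_spec {P : Y → Prop} (h : ∃ x, P x) : P (pickVec P) := by
  unfold pickVec
  rw [dif_pos h]
  exact h.choose_spec

/-- The Helly vector, if it exists. -/
noncomputable def hellyVec {A : Type w} (φ : A → StrongDual ℂ Y) (κ ε : ℝ) (k : ℕ)
    (g : ℕ → A) : Y :=
  pickVec fun x : Y => ‖x‖ ≤ 1 ∧ ∀ i < 2 ^ (k + 1), ‖φ (g i) x - κ * rs k i‖ ≤ ε

theorem hellyVec_congr {A : Type w} (φ : A → StrongDual ℂ Y) (κ ε : ℝ) {k : ℕ} {g g' : ℕ → A}
    (h : ∀ i < 2 ^ (k + 1), g i = g' i) : hellyVec φ κ ε k g = hellyVec φ κ ε k g' := by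
  have : (fun x : Y => ‖x‖ ≤ 1 ∧ ∀ i < 2 ^ (k + 1), ‖φ (g i) x - κ * rs k i‖ ≤ ε)
      = fun x : Y => ‖x‖ ≤ 1 ∧ ∀ i < 2 ^ (k + 1), ‖φ (g' i) x - κ * rs k i‖ ≤ ε := by
    funext x
    congr 1
    refine propext (forall₂_congr fun i hi => ?_)
    rw [h i hi]
  unfold hellyVec
  rw [this]

/-- An uncountable family of functionals on a separable space which is equivalent to the basis of
`ℓ₁(A)` gives a copy of `ℓ₁` in the space. -/
theorem containsEllOne_of_dual {A : Type w} [Uncountable A] [TopologicalSpace.SeparableSpace Y]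
    (φ : A → StrongDual ℂ Y) {M κ : ℝ} (hM : ∀ a, ‖φ a‖ ≤ M) (hκ : 0 < κ)
    (h : ∀ (s : Finset A) (c : A → ℂ), ∑ a ∈ s, ‖c a‖ = 1 →
      ∃ x : Y, ‖x‖ ≤ 1 ∧ κ ≤ ‖∑ a ∈ s, c a * φ a x‖) : ContainsEllOne Y := by
  classical
  have hM0 : 0 ≤ M := by
    obtain ⟨a⟩ : Nonempty A := inferInstance
    exact le_trans (norm_nonneg _) (hM a)
  set κ' : ℝ := κ / 2 with hκ'
  have hκ'0 : 0 < κ' := by positivity
  set ε : ℝ := κ' / 8 with hε
  have hε0 : 0 < ε := by positivity
  let D : ℕ → (ℕ → A) → Finset Y := fun n g =>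
    if n = 0 then ∅ else {hellyVec φ κ' ε (n - 1) g}
  obtain ⟨g, hg, hnear⟩ := exists_fusion_near (fun a x => φ a x) M
    (by
      intro a x y
      rw [dist_eq_norm, dist_eq_norm, ← map_sub]
      exact le_trans ((φ a).le_opNorm _) (by gcongr; exact hM a))
    D (fun n => ε * (1 / 2) ^ (n + 1)) (fun n => by positivity)
    (by
      intro n g g' h
      show (if n = 0 then (∅ : Finset Y) else _) = if n = 0 then (∅ : Finset Y) else _
      by_cases hn : n = 0
      · simp [hn]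
      · simp only [hn, if_false]
        rw [hellyVec_congr φ κ' ε (k := n - 1) (g := g) (g' := g')]
        rw [show n - 1 + 1 = n by omega]
        exact h)
  let x : ℕ → Y := fun k => hellyVec φ κ' ε k g
  have hx : ∀ k, ‖x k‖ ≤ 1 ∧ ∀ i < 2 ^ (k + 1), ‖φ (g i) (x k) - κ' * rs k i‖ ≤ ε := by
    intro k
    have h1 : ∃ x : Y, ‖x‖ ≤ 1 ∧ ∀ i < 2 ^ (k + 1), ‖φ (g i) x - κ' * rs k i‖ ≤ ε := by
      obtain ⟨x, hx1, hx2⟩ := helly φ (show κ' < κ by rw [hκ']; linarith) h
        ((range (2 ^ (k + 1))).image g)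
        (fun a => if ha : ∃ i, g i = a then κ' * rs k ha.choose else 0)
        (by
          intro a _
          show ‖(if ha : ∃ i, g i = a then κ' * rs k ha.choose else 0 : ℂ)‖ ≤ κ'
          split_ifs with ha
          · rw [norm_mul, norm_rs, Complex.norm_real, Real.norm_of_nonneg hκ'0.le, mul_one]
          · rw [norm_zero]; exact hκ'0.le) hε0
      refine ⟨x, hx1, fun i hi => ?_⟩
      have h2 := hx2 (g i) (mem_image_of_mem g (mem_range.mpr hi))
      have h3 : ∃ i', g i' = g i := ⟨i, rfl⟩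
      have h4 : (if ha : ∃ i', g i' = g i then (κ' : ℂ) * rs k ha.choose else 0) = κ' * rs k i := by
        rw [dif_pos h3, hg h3.choose_spec]
      rw [h4] at h2
      exact h2
    exact pickVec_spec h1
  have hall : ∀ k n, k + 1 ≤ n → ∀ i < 2 ^ n,
      ‖φ (g i) (x k) - κ' * rs k i‖ ≤ ε * (2 - (1 / 2) ^ n) := by
    intro k n hn
    induction n, hn using Nat.le_induction with
    | base =>
      intro i hi
      refine le_trans ((hx k).2 i hi) ?_
      have h5 : ((1 : ℝ) / 2) ^ (k + 1) ≤ 1 := pow_le_one₀ (by norm_num) (by norm_num)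
      nlinarith
    | succ n hn ih =>
      intro i hi
      by_cases hin : i < 2 ^ n
      · refine le_trans (ih i hin) ?_
        have h5 : ((1 : ℝ) / 2) ^ (n + 1) ≤ (1 / 2) ^ n := by
          rw [pow_succ]
          have : (0 : ℝ) < (1 / 2) ^ n := by positivity
          linarith
        gcongr
      · obtain ⟨i', rfl⟩ : ∃ i', i = 2 ^ n + i' := ⟨i - 2 ^ n, by omega⟩
        have hi' : i' < 2 ^ n := by rw [pow_succ] at hi; omega
        have h6 := hnear n i' hi' (k + 1) hn (x k) (by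
          show _ ∈ (if k + 1 = 0 then (∅ : Finset Y) else {hellyVec φ κ' ε (k + 1 - 1) g})
          rw [if_neg (by omega)]
          simp [x])
        rw [dist_eq_norm] at h6
        have h7 := ih i' hi'
        rw [rs_add_lt (by omega)]
        have h8 : φ (g (2 ^ n + i')) (x k) - κ' * rs k i'
            = (φ (g (2 ^ n + i')) (x k) - φ (g i') (x k)) + (φ (g i') (x k) - κ' * rs k i') := by
          ring
        rw [h8]
        refine le_trans (norm_add_le _ _) ?_
        have h9 : ε * (2 - (1 / 2) ^ (n + 1)) = ε * (1 / 2) ^ (n + 1) + ε * (2 - (1 / 2) ^ n) := by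
          ring
        rw [h9]
        exact add_le_add h6.le h7
  have hfin : ∀ i k, ‖φ (g i) (x k) - κ' * rs k i‖ ≤ κ' / 4 := by
    intro i k
    have h1 : i < 2 ^ (max (k + 1) i) :=
      lt_of_lt_of_le Nat.lt_two_pow_self (Nat.pow_le_pow_right (by norm_num) (le_max_right _ _))
    have h2 := hall k _ (le_max_left _ _) i h1
    refine le_trans h2 ?_
    have h3 : (0 : ℝ) ≤ (1 / 2) ^ (max (k + 1) i) := by positivity
    rw [hε]
    nlinarith
  refine ⟨x, κ' / (4 * (M + 1)), by positivity, fun n => (hx n).1, fun s c => ?_⟩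
  exact lower_of_signs (ψ := fun i => φ (g i)) (fun i => by linarith [hM (g i)])
    (by linarith) hκ'0 hfin s c

end Pool.Agent.Lib.MP_66dece_an
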