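import Pool.Agent.Lib.MP_66dece_an.Block
import Pool.Agent.Lib.MP_66dece_an.Hagler

/-!
# Spaces without a copy of `ℓ₁`

In a separable space without a copy of `ℓ₁`, an uncountable family of operators which is
equivalent to the basis of `ℓ₁` has, up to countably many members, no combinations with finite
nets.
-/

set_option autoImplicit false

namespace Pool.Agent.Lib.MP_66dece_an

universe u w

open Finset

variable {Y : Type u} [NormedAddCommGroup Y] [NormedSpace ℂ Y]

/-- Finitely many functionals which norm the absolutely convex hull of a finite set. -/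
theorem exists_functionals (G : Finset Y) {δ : ℝ} (hδ : 0 < δ) :
    ∃ Λ : Finset (StrongDual ℂ Y), (∀ f ∈ Λ, ‖f‖ ≤ 1) ∧
      ∀ (v : Y) (d : Y → ℂ), (∀ y ∈ G, ‖d y‖ ≤ 1) → ‖v - ∑ y ∈ G, d y • y‖ ≤ 2 * δ →
        ∃ f ∈ Λ, ‖v‖ ≤ ‖f v‖ + 5 * δ := by
  classical
  let L : (G → ℂ) → Y := fun d => ∑ y : G, d y • (y : Y)
  have hL : Continuous L := by
    show Continuous fun d : G → ℂ => ∑ y : G, d y • (y : Y)
    fun_prop
  have hcomp : IsCompact (L '' Metric.closedBall 0 1) := (isCompact_closedBall 0 1).image hL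
  obtain ⟨t, ht, hcov⟩ := Metric.totallyBounded_iff.mp hcomp.totallyBounded (δ / 2) (by positivity)
  have hf : ∀ w : Y, ∃ f : StrongDual ℂ Y, ‖f‖ ≤ 1 ∧ f w = ‖w‖ := fun w =>
    exists_dual_vector'' ℂ w
  choose f hf1 hf2 using hf
  refine ⟨ht.toFinset.image f, ?_, ?_⟩
  · intro g hg
    obtain ⟨w, -, rfl⟩ := mem_image.mp hg
    exact hf1 w
  · intro v d hd hv
    have h1 : ∑ y ∈ G, d y • y = L (fun y => d y) := by
      show _ = ∑ y : G, d y • (y : Y)
      rw [sum_coe_sort G (fun y => d y • y)]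
    have h2 : L (fun y => d y) ∈ L '' Metric.closedBall 0 1 := by
      refine ⟨_, ?_, rfl⟩
      rw [mem_closedBall_zero_iff, pi_norm_le_iff_of_nonneg (by norm_num)]
      exact fun y => hd y y.2
    have h3 := hcov h2
    simp only [Set.mem_iUnion, Metric.mem_ball, exists_prop] at h3
    obtain ⟨w, hw, hw2⟩ := h3
    refine ⟨f w, mem_image_of_mem f (by simpa using hw), ?_⟩
    rw [h1] at hv
    have h4 : ‖v - w‖ ≤ 2 * δ + δ / 2 := by
      have : v - w = (v - L (fun y => d y)) + (L (fun y => d y) - w) := by abel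
      rw [this]
      refine le_trans (norm_add_le _ _) (add_le_add hv ?_)
      rw [dist_eq_norm] at hw2
      exact hw2.le
    have h5 : ‖f w (v - w)‖ ≤ 2 * δ + δ / 2 := by
      refine le_trans ((f w).le_opNorm _) ?_
      calc ‖f w‖ * ‖v - w‖ ≤ 1 * (2 * δ + δ / 2) := by gcongr; exact hf1 w
        _ = _ := one_mul _
    have h6 : ‖v‖ ≤ ‖w‖ + ‖v - w‖ := by
      have := norm_add_le w (v - w)
      rwa [add_sub_cancel] at this
    have h7 : ‖w‖ ≤ ‖f w v‖ + ‖f w (v - w)‖ := by
      have h8 : f w w = f w v - f w (v - w) := by rw [map_sub]; ring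
      have h9 : ‖f w w‖ = ‖w‖ := by rw [hf2 w]; simp
      rw [← h9, h8]
      exact norm_sub_le _ _
    linarith

/-- Reduction to one functional. -/
theorem containsEllOne_of_functionals [TopologicalSpace.SeparableSpace Y] {M κ : ℝ}
    (hκ : 0 < κ) (Λ : Finset (StrongDual ℂ Y)) : ∀ (A : Type w) [Uncountable A]
    (T : A → Y →L[ℂ] Y), (∀ a, ‖T a‖ ≤ M) → (∀ f ∈ Λ, ‖f‖ ≤ 1) →
    (∀ (s : Finset A) (c : A → ℂ), ∑ a ∈ s, ‖c a‖ = 1 →
      ∃ x : Y, ‖x‖ ≤ 1 ∧ ∃ f ∈ Λ, κ ≤ ‖f ((∑ a ∈ s, c a • T a) x)‖) →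
    ContainsEllOne Y := by
  classical
  induction Λ using Finset.induction_on with
  | empty =>
    intro A _ T _ _ h
    obtain ⟨a⟩ : Nonempty A := inferInstance
    obtain ⟨x, -, f, hf, -⟩ := h {a} (fun _ => 1) (by simp)
    exact absurd hf (notMem_empty f)
  | insert f Λ hfΛ ih =>
    intro A _ T hM hΛ h
    rcases block_dichotomy (fun (s : Finset A) (c : A → ℂ) => ∑ a ∈ s, ‖c a‖ = 1 ∧
      ∀ x : Y, ‖x‖ ≤ 1 → ‖f ((∑ a ∈ s, c a • T a) x)‖ ≤ κ / 2) (by
        rintro s c ⟨h1, -⟩
        rw [nonempty_iff_ne_empty]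
        rintro rfl
        simp at h1) with ⟨𝓕, h𝓕1, h𝓕2, h𝓕3⟩ | ⟨N, hN1, hN2⟩
    · have : Uncountable 𝓕 := by
        rw [← not_countable_iff]
        intro hc
        exact h𝓕1 (Set.countable_coe_iff.mp hc)
      refine ih 𝓕 (fun β => ∑ a ∈ β.1.1, β.1.2 a • T a) ?_ (fun g hg => hΛ g (mem_insert_of_mem hg)) ?_
      · intro β
        calc ‖∑ a ∈ β.1.1, β.1.2 a • T a‖ ≤ ∑ a ∈ β.1.1, ‖β.1.2 a‖ * M := by
              refine norm_sum_le_of_le _ fun a _ => ?_
              rw [norm_smul]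
              gcongr
              exact hM a
          _ = M := by rw [← sum_mul, (h𝓕2 β.1 β.2).1, one_mul]
      · intro S d hd
        obtain ⟨s, c, hsc1, hsc2⟩ := block_comb T 𝓕 (fun β hβ => (h𝓕2 β hβ).1) h𝓕3 S d
        obtain ⟨x, hx, g, hg, hgx⟩ := h s c (by rw [hsc1, hd])
        rw [hsc2] at hgx
        refine ⟨x, hx, g, ?_, hgx⟩
        rcases mem_insert.mp hg with rfl | hg'
        · exfalso
          have h1 : ‖g ((∑ β ∈ S, d β • ∑ a ∈ β.1.1, β.1.2 a • T a) x)‖ ≤ κ / 2 := by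
            rw [_root_.sum_apply, map_sum]
            calc ‖∑ β ∈ S, g ((d β • ∑ a ∈ β.1.1, β.1.2 a • T a) x)‖
                ≤ ∑ β ∈ S, ‖d β‖ * (κ / 2) := by
                  refine norm_sum_le_of_le _ fun β _ => ?_
                  rw [smul_apply, map_smul, norm_smul]
                  gcongr
                  exact (h𝓕2 β.1 β.2).2 x hx
              _ = κ / 2 := by rw [← sum_mul, hd, one_mul]
          linarith
        · exact hg'
    · -- the functional `f` works on the complement of `N`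
      have : Uncountable {a : A // a ∉ N} := by
        rw [← not_countable_iff]
        intro hc
        have h1 : (Nᶜ : Set A).Countable := Set.countable_coe_iff.mp hc
        have h2 : (Set.univ : Set A).Countable := by
          rw [← Set.union_compl_self N]
          exact hN1.union h1
        exact Set.not_countable_univ h2
      refine containsEllOne_of_dual (A := {a : A // a ∉ N}) (fun a => f.comp (T a)) (M := |M|)
        (κ := κ / 2) ?_ (by positivity) ?_
      · intro a
        calc ‖f.comp (T a)‖ ≤ ‖f‖ * ‖T a‖ := ContinuousLinearMap.opNorm_comp_le _ _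
          _ ≤ 1 * |M| := by
              gcongr
              · exact hΛ f (mem_insert_self _ _)
              · exact le_trans (hM a) (le_abs_self M)
          _ = |M| := one_mul _
      · intro s c hsc
        by_contra hno
        push Not at hno
        let c' : A → ℂ := fun a => if ha : a ∉ N then c ⟨a, ha⟩ else 0
        have hc' : ∀ a : {a : A // a ∉ N}, c' a = c a := fun a => by
          show (if ha : (a : A) ∉ N then c ⟨a, ha⟩ else 0) = _
          rw [dif_pos a.2]
        have hinj : Set.InjOn (Subtype.val : {a : A // a ∉ N} → A) s := Subtype.val_injective.injOn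
        have h3 : ∑ a ∈ s.image Subtype.val, ‖c' a‖ = 1 := by
          rw [sum_image (fun a ha b hb hab => Subtype.ext hab), ← hsc]
          exact sum_congr rfl fun a _ => by rw [hc' a]
        have h4 : ∑ a ∈ s.image Subtype.val, c' a • T a = ∑ a ∈ s, c a • T a := by
          rw [sum_image (fun a ha b hb hab => Subtype.ext hab)]
          exact sum_congr rfl fun a _ => by rw [hc' a]
        obtain ⟨a, ha1, ha2⟩ := hN2 (s.image Subtype.val) c' ⟨h3, fun x hx => by
          rw [h4]
          refine le_trans (le_of_eq ?_) (hno x hx).le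
          congr 1
          rw [_root_.sum_apply, map_sum]
          exact sum_congr rfl fun a _ => by
            rw [smul_apply, map_smul, smul_eq_mul]
            rfl⟩
        obtain ⟨b, -, rfl⟩ := mem_image.mp ha1
        exact b.2 ha2

theorem NoNet.smul {S : Y →L[ℂ] Y} {c : ℝ} (h : NoNet S c) {r : ℝ} (hr : 0 < r) :
    NoNet ((r : ℂ) • S) (r * c) := by
  classical
  intro F
  obtain ⟨x, hx, hF⟩ := h (F.image fun y => ((r : ℂ)⁻¹) • y)
  refine ⟨x, hx, fun y hy => ?_⟩
  have h1 := hF _ (mem_image_of_mem _ hy)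
  have hr' : (r : ℂ) ≠ 0 := by exact_mod_cast hr.ne'
  have h2 : ((r : ℂ) • S) x - y = (r : ℂ) • (S x - (r : ℂ)⁻¹ • y) := by
    rw [smul_sub, smul_smul, mul_inv_cancel₀ hr', one_smul, smul_apply]
  rw [h2, norm_smul, Complex.norm_real, Real.norm_of_nonneg hr.le]
  gcongr

/-- In a separable space without a copy of `ℓ₁`, an uncountable family of operators equivalent to
the basis of `ℓ₁` has no finite nets outside a countable set of indices. -/
theorem noNet_of_not_containsEllOne [TopologicalSpace.SeparableSpace Y] (hY : ¬ ContainsEllOne Y)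
    {A : Type w} (T : A → Y →L[ℂ] Y) {M c₀ : ℝ} (hM : ∀ a, ‖T a‖ ≤ M) (hc₀ : 0 < c₀)
    (hT : ∀ (s : Finset A) (c : A → ℂ), c₀ * ∑ a ∈ s, ‖c a‖ ≤ ‖∑ a ∈ s, c a • T a‖) :
    ∃ N : Set A, N.Countable ∧ ∀ (s : Finset A) (c : A → ℂ), (∀ a ∈ s, a ∉ N) →
      NoNet (∑ a ∈ s, c a • T a) (c₀ / 12 * ∑ a ∈ s, ‖c a‖) := by
  classical
  rcases block_dichotomy (fun (s : Finset A) (c : A → ℂ) => ∑ a ∈ s, ‖c a‖ = 1 ∧
      ¬ NoNet (∑ a ∈ s, c a • T a) (c₀ / 12)) (by
        rintro s c ⟨h1, -⟩
        rw [nonempty_iff_ne_empty]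
        rintro rfl
        simp at h1) with ⟨𝓕, h𝓕1, h𝓕2, h𝓕3⟩ | ⟨N, hN1, hN2⟩
  · exfalso
    set δ : ℝ := c₀ / 12 with hδ
    have hδ0 : 0 < δ := by positivity
    -- nets in the dense sequence
    have hnet : ∀ β : Finset A × (A → ℂ), ∃ F : Finset ℕ, β ∈ 𝓕 → ∀ x : Y, ‖x‖ ≤ 1 →
        ∃ n ∈ F, ‖(∑ a ∈ β.1, β.2 a • T a) x - TopologicalSpace.denseSeq Y n‖ ≤ 2 * δ := by
      intro β
      by_cases hβ : β ∈ 𝓕
      · have h1 := (h𝓕2 β hβ).2
        unfold NoNet at h1
        push Not at h1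
        obtain ⟨F, hF⟩ := h1
        have h2 : ∀ y : Y, ∃ n, ‖y - TopologicalSpace.denseSeq Y n‖ < δ := by
          intro y
          obtain ⟨n, hn⟩ := (TopologicalSpace.denseRange_denseSeq Y).exists_dist_lt y hδ0
          exact ⟨n, by rwa [dist_eq_norm] at hn⟩
        choose n hn using h2
        refine ⟨F.image n, fun _ x hx => ?_⟩
        obtain ⟨y, hy, hxy⟩ := hF x hx
        refine ⟨n y, mem_image_of_mem n hy, ?_⟩
        have h3 : (∑ a ∈ β.1, β.2 a • T a) x - TopologicalSpace.denseSeq Y (n y)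
            = ((∑ a ∈ β.1, β.2 a • T a) x - y) + (y - TopologicalSpace.denseSeq Y (n y)) := by abel
        rw [h3]
        refine le_trans (norm_add_le _ _) ?_
        have h4 := hn y
        linarith
      · exact ⟨∅, fun h => absurd h hβ⟩
    choose F hF using hnet
    obtain ⟨F₀, hF₀⟩ := exists_uncountable_fiber h𝓕1 F
    set 𝓖 : Set (Finset A × (A → ℂ)) := {β ∈ 𝓕 | F β = F₀} with h𝓖
    have : Uncountable 𝓖 := by
      rw [← not_countable_iff]
      intro hc
      exact hF₀ (Set.countable_coe_iff.mp hc)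
    obtain ⟨Λ, hΛ1, hΛ2⟩ := exists_functionals (F₀.image (TopologicalSpace.denseSeq Y)) hδ0
    apply hY
    refine containsEllOne_of_functionals (M := M) (κ := c₀ / 2) (by positivity) Λ 𝓖
      (fun β => ∑ a ∈ β.1.1, β.1.2 a • T a) ?_ hΛ1 ?_
    · intro β
      calc ‖∑ a ∈ β.1.1, β.1.2 a • T a‖ ≤ ∑ a ∈ β.1.1, ‖β.1.2 a‖ * M := by
            refine norm_sum_le_of_le _ fun a _ => ?_
            rw [norm_smul]
            gcongr
            exact hM a
        _ = M := by rw [← sum_mul, (h𝓕2 β.1 β.2.1).1, one_mul]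
    · intro S d hd
      obtain ⟨s, c, hsc1, hsc2⟩ := block_comb T 𝓖 (fun β hβ => (h𝓕2 β hβ.1).1)
        (h𝓕3.subset (fun β hβ => hβ.1)) S d
      have h1 : c₀ ≤ ‖∑ β ∈ S, d β • ∑ a ∈ β.1.1, β.1.2 a • T a‖ := by
        rw [← hsc2]
        have := hT s c
        rwa [hsc1, hd, mul_one] at this
      obtain ⟨x, hx, hx2⟩ := exists_norm_gt
        (show c₀ * 11 / 12 < ‖∑ β ∈ S, d β • ∑ a ∈ β.1.1, β.1.2 a • T a‖ by linarith)
      -- approximate by the net
      have h2 : ∀ β : 𝓖, ∃ n ∈ F₀,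
          ‖(∑ a ∈ β.1.1, β.1.2 a • T a) x - TopologicalSpace.denseSeq Y n‖ ≤ 2 * δ := by
        intro β
        have := hF β.1 β.2.1 x hx
        rwa [β.2.2] at this
      choose n hn1 hn2 using h2
      let D : Y → ℂ := fun y => ∑ β ∈ S, if TopologicalSpace.denseSeq Y (n β) = y then d β else 0
      have hD1 : ∀ y ∈ F₀.image (TopologicalSpace.denseSeq Y), ‖D y‖ ≤ 1 := by
        intro y _
        rw [← hd]
        refine norm_sum_le_of_le _ fun β _ => ?_
        split_ifs
        · exact le_rfl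
        · rw [norm_zero]; exact norm_nonneg _
      have hD2 : ∑ y ∈ F₀.image (TopologicalSpace.denseSeq Y), D y • y
          = ∑ β ∈ S, d β • TopologicalSpace.denseSeq Y (n β) := by
        show ∑ y ∈ F₀.image (TopologicalSpace.denseSeq Y),
          (∑ β ∈ S, if TopologicalSpace.denseSeq Y (n β) = y then d β else 0) • y = _
        simp only [sum_smul]
        rw [sum_comm]
        refine sum_congr rfl fun β _ => ?_
        rw [sum_eq_single_of_mem (TopologicalSpace.denseSeq Y (n β))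
          (mem_image_of_mem _ (hn1 β))]
        · rw [if_pos rfl]
        · intro y _ hy
          rw [if_neg (fun h => hy h.symm), zero_smul]
      have h3 : ‖(∑ β ∈ S, d β • ∑ a ∈ β.1.1, β.1.2 a • T a) x
          - ∑ y ∈ F₀.image (TopologicalSpace.denseSeq Y), D y • y‖ ≤ 2 * δ := by
        rw [hD2, _root_.sum_apply, ← sum_sub_distrib]
        calc ‖∑ β ∈ S, ((d β • ∑ a ∈ β.1.1, β.1.2 a • T a) x
              - d β • TopologicalSpace.denseSeq Y (n β))‖
            ≤ ∑ β ∈ S, ‖d β‖ * (2 * δ) := by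
              refine norm_sum_le_of_le _ fun β _ => ?_
              rw [smul_apply, ← smul_sub, norm_smul]
              gcongr
              exact hn2 β
          _ = 2 * δ := by rw [← sum_mul, hd, one_mul]
      obtain ⟨f, hf, hfv⟩ := hΛ2 _ D hD1 h3
      refine ⟨x, hx, f, hf, ?_⟩
      rw [hδ] at hfv
      linarith
  · refine ⟨N, hN1, fun s c hs => ?_⟩
    have hσ0 : 0 ≤ ∑ a ∈ s, ‖c a‖ := sum_nonneg fun a _ => norm_nonneg _
    rcases eq_or_lt_of_le hσ0 with h0 | h0
    · rw [← h0, mul_zero]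
      exact fun F => ⟨0, by simp, fun y _ => norm_nonneg _⟩
    · set σ := ∑ a ∈ s, ‖c a‖ with hσ
      have h1 : NoNet (∑ a ∈ s, (c a / σ) • T a) (c₀ / 12) := by
        by_contra hno
        obtain ⟨a, ha1, ha2⟩ := hN2 s (fun a => c a / σ) ⟨by
          rw [sum_congr rfl (fun a _ => by rw [norm_div, Complex.norm_real,
            Real.norm_of_nonneg hσ0]), ← sum_div, ← hσ]
          exact div_self h0.ne', hno⟩
        exact hs a ha1 ha2
      have h2 := h1.smul h0
      have h3 : (σ : ℂ) • ∑ a ∈ s, (c a / σ) • T a = ∑ a ∈ s, c a • T a := by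
        rw [smul_sum]
        refine sum_congr rfl fun a _ => ?_
        rw [smul_smul, mul_div_cancel₀]
        exact_mod_cast h0.ne'
      rw [h3, mul_comm] at h2
      exact h2

end Pool.Agent.Lib.MP_66dece_an
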