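import Pool.Agent.Lib.MP_66dece_an.Limit
import Pool.Agent.Lib.MP_66dece_an.NoEll

/-!
# The core theorem for separable spaces
-/

set_option autoImplicit false

namespace Pool.Agent.Lib.MP_66dece_an

universe u v w

open Finset

variable {Y : Type u} [NormedAddCommGroup Y] [NormedSpace ℂ Y]

/-- The complement of a countable set of indices is uncountable. -/
theorem uncountable_compl {A : Type w} [Uncountable A] {N : Set A} (hN : N.Countable) :
    Uncountable {a : A // a ∉ N} := by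
  rw [← not_countable_iff]
  intro hc
  have h1 : (Nᶜ : Set A).Countable := Set.countable_coe_iff.mp hc
  have h2 : (Set.univ : Set A).Countable := by
    rw [← Set.union_compl_self N]
    exact hN.union h1
  exact Set.not_countable_univ h2

/-- Linear combinations over a subtype. -/
theorem subtype_comb {A : Type w} {E : Type*} [AddCommGroup E] [Module ℂ E] (T : A → E)
    (N : Set A) (s : Finset {a : A // a ∉ N}) (c : {a : A // a ∉ N} → ℂ) :
    ∃ (s' : Finset A) (c' : A → ℂ), (∀ a ∈ s', a ∉ N) ∧ ∑ a ∈ s', ‖c' a‖ = ∑ a ∈ s, ‖c a‖ ∧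
      ∑ a ∈ s', c' a • T a = ∑ a ∈ s, c a • T a := by
  classical
  let c' : A → ℂ := fun a => if ha : a ∉ N then c ⟨a, ha⟩ else 0
  have hc' : ∀ a : {a : A // a ∉ N}, c' a = c a := fun a => by
    show (if ha : (a : A) ∉ N then c ⟨a, ha⟩ else 0) = _
    rw [dif_pos a.2]
  refine ⟨s.image Subtype.val, c', ?_, ?_, ?_⟩
  · intro a ha
    obtain ⟨b, -, rfl⟩ := mem_image.mp ha
    exact b.2
  · rw [sum_image (fun a ha b hb hab => Subtype.ext hab)]
    exact sum_congr rfl fun a _ => by rw [hc' a]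
  · rw [sum_image (fun a ha b hb hab => Subtype.ext hab)]
    exact sum_congr rfl fun a _ => by rw [hc' a]

theorem noNet_zero (S : Y →L[ℂ] Y) : NoNet S 0 := fun _ => ⟨0, by simp, fun _ _ => norm_nonneg _⟩

/-- The core theorem. -/
theorem core {A : Type w} [Uncountable A] {Γ : Type v} [CompleteSpace Y] (hY : Good Y)
    (Φ : (Y →L[ℂ] Y) →L[ℂ] EllOneUnit Γ) (C : ℝ)
    (hΦ : ∀ (S : Y →L[ℂ] Y) (ε : ℝ), 0 < ε →
      ∃ K : Y →L[ℂ] Y, IsCompactOperator K ∧ ‖S - K‖ ≤ C * ‖Φ S‖ + ε)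
    (T : A → Y →L[ℂ] Y) {M c₀ : ℝ} (hM : ∀ a, ‖T a‖ ≤ M) (hc₀ : 0 < c₀)
    (hT : ∀ (s : Finset A) (c : A → ℂ) (K : Y →L[ℂ] Y), IsCompactOperator K →
      c₀ * ∑ a ∈ s, ‖c a‖ ≤ ‖∑ a ∈ s, c a • T a - K‖) : False := by
  obtain ⟨hsep, hB | hE⟩ := hY
  · obtain ⟨κ, hκ, hκS⟩ := noNet_of_bcap hB
    refine core_net Φ C hΦ T hM (κ := κ * c₀) (θ := 1) (by positivity) one_pos fun s c hc _ => ?_
    refine hκS _ _ hc₀ fun K hK => ?_
    have := hT s c K hK
    rwa [hc, mul_one] at this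
  · obtain ⟨N, hN1, hN2⟩ := noNet_of_not_containsEllOne hE T hM hc₀ (fun s c => by
      have := hT s c 0 isCompactOperator_zero
      rwa [sub_zero] at this)
    have := uncountable_compl hN1
    refine core_net Φ C hΦ (fun a : {a : A // a ∉ N} => T a) (fun a => hM a)
      (κ := c₀ / 12) (θ := 1) (by positivity) one_pos fun s c hc _ => ?_
    obtain ⟨s', c', h1, h2, h3⟩ := subtype_comb T N s c
    rw [← h3]
    have h4 := hN2 s' c' h1
    rwa [h2, hc, mul_one] at h4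

/-- The operator `L(X) → ℓ₁(Γ) ⊕ ℂ` induced by an isomorphism of the Calkin algebra. -/
noncomputable def inducedMap {X : Type u} [NormedAddCommGroup X] [NormedSpace ℂ X] {Γ : Type v}
    (Ψ : Calkin X →L[ℂ] EllOneUnit Γ) : (X →L[ℂ] X) →L[ℂ] EllOneUnit Γ :=
  Ψ.comp (compactOperator (RingHom.id ℂ) X X).mkQL

theorem inducedMap_apply {X : Type u} [NormedAddCommGroup X] [NormedSpace ℂ X] {Γ : Type v}
    (Ψ : Calkin X →L[ℂ] EllOneUnit Γ) (S : X →L[ℂ] X) : inducedMap Ψ S = Ψ (toCalkin S) := rfl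

theorem toCalkin_eq_zero {X : Type u} [NormedAddCommGroup X] [NormedSpace ℂ X] {S : X →L[ℂ] X} :
    toCalkin S = 0 ↔ IsCompactOperator S :=
  Submodule.Quotient.mk_eq_zero _

theorem inducedMap_compact {X : Type u} [NormedAddCommGroup X] [NormedSpace ℂ X] {Γ : Type v}
    (Ψ : Calkin X →L[ℂ] EllOneUnit Γ) {K : X →L[ℂ] X} (hK : IsCompactOperator K) :
    inducedMap Ψ K = 0 := by
  rw [inducedMap_apply, toCalkin_eq_zero.mpr hK, map_zero]

/-- Lifting with control of the norm (open mapping theorem). -/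
theorem exists_lift {X : Type u} [NormedAddCommGroup X] [NormedSpace ℂ X] [CompleteSpace X]
    {Γ : Type v} (Ψ : Calkin X ≃L[ℂ] EllOneUnit Γ) : ∃ B > 0, ∀ y : EllOneUnit Γ,
      ∃ S : X →L[ℂ] X, inducedMap (Ψ : Calkin X →L[ℂ] EllOneUnit Γ) S = y ∧ ‖S‖ ≤ B * ‖y‖ := by
  refine ContinuousLinearMap.exists_preimage_norm_le _ fun y => ?_
  obtain ⟨S, hS⟩ := Submodule.Quotient.mk_surjective (compactOperator (RingHom.id ℂ) X X)
    (Ψ.symm y)
  refine ⟨S, ?_⟩
  rw [inducedMap_apply]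
  show Ψ (Submodule.Quotient.mk S) = y
  rw [hS]
  exact Ψ.apply_symm_apply y

theorem exists_compact_near {X : Type u} [NormedAddCommGroup X] [NormedSpace ℂ X] {Γ : Type v}
    (Ψ : Calkin X ≃L[ℂ] EllOneUnit Γ) {B : ℝ} (hB : ∀ y : EllOneUnit Γ,
      ∃ S : X →L[ℂ] X, inducedMap (Ψ : Calkin X →L[ℂ] EllOneUnit Γ) S = y ∧ ‖S‖ ≤ B * ‖y‖)
    (S : X →L[ℂ] X) {ε : ℝ} (hε : 0 < ε) :
    ∃ K : X →L[ℂ] X, IsCompactOperator K ∧
      ‖S - K‖ ≤ B * ‖inducedMap (Ψ : Calkin X →L[ℂ] EllOneUnit Γ) S‖ + ε := by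
  obtain ⟨m, hm1, hm2⟩ := hB (inducedMap (Ψ : Calkin X →L[ℂ] EllOneUnit Γ) S)
  refine ⟨S - m, ?_, ?_⟩
  · rw [← toCalkin_eq_zero]
    have h1 : inducedMap (Ψ : Calkin X →L[ℂ] EllOneUnit Γ) (S - m) = 0 := by
      rw [map_sub, hm1, sub_self]
    rw [inducedMap_apply] at h1
    exact (map_eq_zero_iff Ψ Ψ.injective).mp h1
  · rw [sub_sub_cancel]
    linarith

/-- The unit vector `e_g` in `ℓ₁(Γ) ⊕ ℂ`. -/
noncomputable def unitVec {Γ : Type v} (g : Γ) : EllOneUnit Γ :=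
  letI := Classical.decEq Γ
  (lp.single 1 g (1 : ℂ), 0)

theorem unitVec_snd {Γ : Type v} (g : Γ) : (unitVec g).2 = 0 := rfl

open Classical in
theorem unitVec_fst {Γ : Type v} (g h : Γ) : (unitVec g).1 h = if h = g then 1 else 0 := by
  unfold unitVec
  rw [lp.single_apply]
  by_cases hh : h = g
  · subst hh
    simp
  · simp [hh]

theorem norm_unitVec {Γ : Type v} (g : Γ) : ‖unitVec g‖ = 1 := by
  let _ := Classical.decEq Γ
  show ‖((lp.single 1 g (1 : ℂ) : lp (fun _ : Γ => ℂ) 1), (0 : ℂ))‖ = 1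
  rw [Prod.norm_def, lp.norm_single (by simp)]
  simp

theorem norm_sum_unitVec {Γ : Type v} (s : Finset Γ) (c : Γ → ℂ) :
    ‖∑ g ∈ s, c g • unitVec g‖ = ∑ g ∈ s, ‖c g‖ := by
  let _ := Classical.decEq Γ
  have h1 : ∑ g ∈ s, c g • unitVec g
      = ((∑ g ∈ s, lp.single 1 g (c g) : lp (fun _ : Γ => ℂ) 1), (0 : ℂ)) := by
    have h2 : ∀ g, c g • unitVec g = ((lp.single 1 g (c g) : lp (fun _ : Γ => ℂ) 1), (0 : ℂ)) := by
      intro g
      show c g • ((lp.single 1 g (1 : ℂ) : lp (fun _ : Γ => ℂ) 1), (0 : ℂ)) = _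
      rw [Prod.smul_mk, ← lp.single_smul, smul_eq_mul, mul_one, smul_zero]
    rw [sum_congr rfl fun g _ => h2 g]
    ext1
    · rw [Prod.fst_sum]
    · rw [Prod.snd_sum]
      simp
  have h3 := lp.norm_sum_single (p := 1) (by simp) (fun g => c g) s
  simp only [ENNReal.toReal_one, Real.rpow_one] at h3
  rw [h1, Prod.norm_def]
  show max ‖(∑ g ∈ s, lp.single 1 g (c g) : lp (fun _ : Γ => ℂ) 1)‖ ‖(0 : ℂ)‖ = _
  rw [h3, norm_zero]
  exact max_eq_left (sum_nonneg fun g _ => norm_nonneg _)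

/-- Theorem 1: for separable spaces with BCAP or without a copy of `ℓ₁`, the Calkin algebra is not
isomorphic, even as a Banach space, to `ℓ₁(Γ) ⊕ ℂ` with `Γ` uncountable. -/
theorem not_isomorphic {Γ : Type v} [Uncountable Γ] {X : Type u} [NormedAddCommGroup X]
    [NormedSpace ℂ X] [CompleteSpace X] (hX : Good X) : IsEmpty (Calkin X ≃L[ℂ] EllOneUnit Γ) := by
  refine ⟨fun Ψ => ?_⟩
  set Φ := inducedMap (Ψ : Calkin X →L[ℂ] EllOneUnit Γ) with hΦ
  obtain ⟨B, -, hB⟩ := exists_lift Ψ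
  choose T hT1 hT2 using fun g : Γ => hB (unitVec g)
  refine core hX Φ B (fun S ε hε => exists_compact_near Ψ hB S hε) T (M := B)
    (fun g => by have := hT2 g; rwa [norm_unitVec, mul_one] at this)
    (c₀ := 1 / (‖Φ‖ + 1)) (by positivity) ?_
  intro s c K hK
  have h1 : Φ (∑ g ∈ s, c g • T g - K) = ∑ g ∈ s, c g • unitVec g := by
    rw [map_sub, map_sum, hΦ, inducedMap_compact _ hK, sub_zero]
    exact sum_congr rfl fun g _ => by rw [map_smul, hT1]
  have h2 : ∑ g ∈ s, ‖c g‖ ≤ (‖Φ‖ + 1) * ‖∑ g ∈ s, c g • T g - K‖ := by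
    rw [← norm_sum_unitVec, ← h1]
    refine le_trans (Φ.le_opNorm _) ?_
    gcongr
    linarith
  rw [one_div, inv_mul_le_iff₀ (by positivity)]
  exact h2

end Pool.Agent.Lib.MP_66dece_an
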