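import Mathlib

/-!
# Calkin algebras and the unitization of `ℓ₁(Γ)`: definitions

Everything the three statements use:

* `CalkinAlgebra X` is `L(X)/K(X)`, with the quotient topology and norm;
* `UnitEllOne Γ` is the Banach space `ℓ₁(Γ) ⊕ ℂ`, and `IsProduct` is the product of the
  unitization of `ℓ₁(Γ)` (coordinatewise product);
* `BCAP`, `ContainsEllOne`, `HasDecomposition`, `HasUpperTwo`: properties of a Banach space;
* `Good`, `AlgGood`, `Nice`: the classes of Banach spaces in the theorems.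
-/

set_option autoImplicit false

namespace Pool.Agent.Lib.MP_66dece_an

universe u v

section

variable (X : Type u) [NormedAddCommGroup X] [NormedSpace ℂ X]

/-- The Calkin algebra of `X`: bounded operators modulo compact operators. -/
def CalkinAlgebra : Type u := (X →L[ℂ] X) ⧸ compactOperator (RingHom.id ℂ) X X

/-- The quotient norm. -/
noncomputable instance calkinNorm : SeminormedAddCommGroup (CalkinAlgebra X) :=
  (inferInstance : SeminormedAddCommGroup ((X →L[ℂ] X) ⧸ compactOperator (RingHom.id ℂ) X X))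

noncomputable instance calkinSpace : NormedSpace ℂ (CalkinAlgebra X) :=
  (inferInstance : NormedSpace ℂ ((X →L[ℂ] X) ⧸ compactOperator (RingHom.id ℂ) X X))

variable {X}

/-- The class of an operator in the Calkin algebra. -/
def CalkinAlgebra.mk (S : X →L[ℂ] X) : CalkinAlgebra X :=
  (Submodule.Quotient.mk S : (X →L[ℂ] X) ⧸ compactOperator (RingHom.id ℂ) X X)

end

section

variable (Γ : Type v)

/-- The Banach space `ℓ₁(Γ) ⊕ ℂ`. -/
def UnitEllOne : Type v := lp (fun _ : Γ => ℂ) 1 × ℂ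

noncomputable instance unitEllOneNorm : NormedAddCommGroup (UnitEllOne Γ) :=
  (inferInstance : NormedAddCommGroup (lp (fun _ : Γ => ℂ) 1 × ℂ))

noncomputable instance unitEllOneSpace : NormedSpace ℂ (UnitEllOne Γ) :=
  (inferInstance : NormedSpace ℂ (lp (fun _ : Γ => ℂ) 1 × ℂ))

variable {Γ}

/-- The coordinate at `g ∈ Γ` of the `ℓ₁(Γ)` part. -/
def UnitEllOne.coord (w : UnitEllOne Γ) (g : Γ) : ℂ := (Prod.fst w : lp (fun _ : Γ => ℂ) 1) g

/-- The scalar part. -/
def UnitEllOne.scal (w : UnitEllOne Γ) : ℂ := Prod.snd w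

/-- `w = u v` for the product `(x, λ) (y, μ) = (x y + λ y + μ x, λ μ)` of the unitization of
`ℓ₁(Γ)` with the coordinatewise product. -/
def IsProduct (w u v : UnitEllOne Γ) : Prop :=
  w.scal = u.scal * v.scal ∧
    ∀ g : Γ, w.coord g = u.coord g * v.coord g + u.scal * v.coord g + v.scal * u.coord g

end

/-- The map `Ψ` takes the composition of operators to the product of the unitization. -/
def PreservesProducts {X : Type u} [NormedAddCommGroup X] [NormedSpace ℂ X] {Γ : Type v}
    (Ψ : CalkinAlgebra X → UnitEllOne Γ) : Prop :=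
  ∀ S T : X →L[ℂ] X, IsProduct (Ψ (CalkinAlgebra.mk (S.comp T))) (Ψ (CalkinAlgebra.mk S))
    (Ψ (CalkinAlgebra.mk T))

/-- The bounded compact approximation property. -/
def BCAP (X : Type u) [NormedAddCommGroup X] [NormedSpace ℂ X] : Prop :=
  ∃ l : ℝ, ∀ (F : Finset X) (ε : ℝ), 0 < ε → ∃ V : X →L[ℂ] X,
    IsCompactOperator V ∧ ‖V‖ ≤ l ∧ ∀ x ∈ F, ‖V x - x‖ ≤ ε

/-- `X` contains an isomorphic copy of `ℓ₁`. -/
def ContainsEllOne (X : Type u) [NormedAddCommGroup X] [NormedSpace ℂ X] : Prop :=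
  ∃ (x : ℕ → X) (δ : ℝ), 0 < δ ∧ (∀ n, ‖x n‖ ≤ 1) ∧
    ∀ (s : Finset ℕ) (c : ℕ → ℂ), δ * ∑ n ∈ s, ‖c n‖ ≤ ‖∑ n ∈ s, c n • x n‖

/-- `X` is separable and has BCAP or does not contain `ℓ₁`. -/
def Good (X : Type u) [NormedAddCommGroup X] [NormedSpace ℂ X] : Prop :=
  TopologicalSpace.SeparableSpace X ∧ (BCAP X ∨ ¬ ContainsEllOne X)

/-- `X` has a Schauder decomposition with infinitely many infinite dimensional members (given by
its projections). -/
def HasDecomposition (X : Type u) [NormedAddCommGroup X] [NormedSpace ℂ X] : Prop :=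
  ∃ Q : ℕ → X →L[ℂ] X, (∀ n, (Q n).comp (Q n) = Q n) ∧ (∀ m n, m ≠ n → (Q m).comp (Q n) = 0) ∧
    {n | ¬ IsCompactOperator (Q n)}.Infinite ∧
    ∀ x, Filter.Tendsto (fun N => ∑ n ∈ Finset.range N, Q n x) Filter.atTop (nhds x)

/-- `X` contains a sequence with an upper `2`-estimate whose norms are bounded below. -/
def HasUpperTwo (X : Type u) [NormedAddCommGroup X] [NormedSpace ℂ X] : Prop :=
  ∃ (x : ℕ → X) (C δ : ℝ), 0 < δ ∧ (∀ n, δ ≤ ‖x n‖) ∧
    ∀ (s : Finset ℕ) (c : ℕ → ℂ), ‖∑ n ∈ s, c n • x n‖ ^ 2 ≤ C * ∑ n ∈ s, ‖c n‖ ^ 2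

/-- `X` is separable and has one of: BCAP, no copy of `ℓ₁`, a Schauder decomposition with
infinitely many infinite dimensional members, a sequence with an upper `2`-estimate whose norms are
bounded below. -/
def AlgGood (X : Type u) [NormedAddCommGroup X] [NormedSpace ℂ X] : Prop :=
  TopologicalSpace.SeparableSpace X ∧
    (BCAP X ∨ ¬ ContainsEllOne X ∨ HasDecomposition X ∨ HasUpperTwo X)

/-- Every countable subset of `X` is contained in a complemented subspace which is `AlgGood`
(`i` is the inclusion, `r` the projection). -/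
def Nice (X : Type u) [NormedAddCommGroup X] [NormedSpace ℂ X] : Prop :=
  ∀ s : Set X, s.Countable → ∃ (Y : Type u) (_ : NormedAddCommGroup Y) (_ : NormedSpace ℂ Y)
    (_ : CompleteSpace Y), AlgGood Y ∧ ∃ (i : Y →L[ℂ] X) (r : X →L[ℂ] Y),
      r.comp i = ContinuousLinearMap.id ℂ Y ∧ s ⊆ Set.range i

end Pool.Agent.Lib.MP_66dece_an
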