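import Pool.Agent.Lib.MP_66dece_an.Net

/-!
# Helly's lemma for families of functionals equivalent to the `ℓ₁` basis
-/

set_option autoImplicit false

namespace Pool.Agent.Lib.MP_66dece_an

universe u w

open Finset

variable {Y : Type u} [NormedAddCommGroup Y] [NormedSpace ℂ Y]

theorem helly {A : Type w} (φ : A → StrongDual ℂ Y) {κ κ' : ℝ} (hκ : κ' < κ)
    (h : ∀ (s : Finset A) (c : A → ℂ), ∑ a ∈ s, ‖c a‖ = 1 →
      ∃ x : Y, ‖x‖ ≤ 1 ∧ κ ≤ ‖∑ a ∈ s, c a * φ a x‖)
    (s : Finset A) (t : A → ℂ) (ht : ∀ a ∈ s, ‖t a‖ ≤ κ') {ε : ℝ} (hε : 0 < ε) :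
    ∃ x : Y, ‖x‖ ≤ 1 ∧ ∀ a ∈ s, ‖φ a x - t a‖ ≤ ε := by
  classical
  let L : Y →L[ℂ] (s → ℂ) := ContinuousLinearMap.pi (fun a => φ a)
  have hL : ∀ x a, L x a = φ a x := fun x a => rfl
  let t' : s → ℂ := fun a => t a
  set C : Set (s → ℂ) := closure (L '' Metric.closedBall 0 1) with hC
  by_cases htC : t' ∈ C
  · rw [hC, Metric.mem_closure_iff] at htC
    obtain ⟨_, ⟨x, hx, rfl⟩, hd⟩ := htC ε hε
    refine ⟨x, by simpa using hx, fun a ha => ?_⟩
    have h1 := dist_le_pi_dist t' (L x) ⟨a, ha⟩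
    rw [hL, dist_comm, dist_eq_norm] at h1
    exact le_trans h1 hd.le
  · exfalso
    have hconv : Convex ℝ C := by
      rw [hC]
      refine Convex.closure ?_
      exact (convex_closedBall (0 : Y) 1).linear_image
        ((L.restrictScalars ℝ : Y →L[ℝ] (s → ℂ)) : Y →ₗ[ℝ] (s → ℂ))
    obtain ⟨f, u, hf1, hf2⟩ := RCLike.geometric_hahn_banach_closed_point (𝕜 := ℂ) hconv
      isClosed_closure htC
    set b : s → ℂ := fun a => f (Pi.single a 1) with hb
    have hfz : ∀ z : s → ℂ, f z = ∑ a, b a * z a := by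
      intro z
      conv_lhs => rw [← Finset.univ_sum_single z]
      rw [map_sum]
      refine sum_congr rfl fun a _ => ?_
      have : (Pi.single a (z a) : s → ℂ) = z a • Pi.single a 1 := by
        rw [← Pi.single_smul, smul_eq_mul, mul_one]
      rw [this, map_smul, smul_eq_mul, mul_comm]
    set σ : ℝ := ∑ a, ‖b a‖ with hσ
    have hσ0 : 0 ≤ σ := sum_nonneg fun a _ => norm_nonneg _
    have hft : ‖f t'‖ ≤ κ' * σ := by
      rw [hfz, hσ, mul_sum]
      refine norm_sum_le_of_le _ fun a _ => ?_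
      rw [norm_mul, mul_comm]
      gcongr
      exact ht a a.2
    have h0 : (0 : s → ℂ) ∈ C := subset_closure ⟨0, by simp, map_zero L⟩
    have hu : 0 < u := by
      have := hf1 0 h0
      rw [map_zero] at this
      simpa using this
    have hσpos : 0 < σ := by
      rcases eq_or_lt_of_le hσ0 with h1 | h1
      · rw [← h1, mul_zero] at hft
        have h2 : RCLike.re (f t') ≤ ‖f t'‖ := RCLike.re_le_norm _
        linarith
      · exact h1
    let c : A → ℂ := fun a => if ha : a ∈ s then b ⟨a, ha⟩ / σ else 0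
    have hcs : ∀ a : s, c a = b a / σ := fun a => by
      show (if ha : (a : A) ∈ s then b ⟨a, ha⟩ / σ else 0) = _
      rw [dif_pos a.2]
    have hc1 : ∑ a ∈ s, ‖c a‖ = 1 := by
      rw [← sum_coe_sort s (fun a => ‖c a‖)]
      rw [sum_congr rfl (fun a _ => by rw [hcs a, norm_div, Complex.norm_real,
        Real.norm_of_nonneg hσ0]), ← sum_div, ← hσ]
      exact div_self hσpos.ne'
    obtain ⟨x, hx, hκx⟩ := h s c hc1
    have h1 : ∑ a ∈ s, c a * φ a x = f (L x) / σ := by
      rw [← sum_coe_sort s (fun a => c a * φ a x), hfz, sum_div]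
      refine sum_congr rfl fun a _ => ?_
      rw [hcs a, hL]
      ring
    rw [h1, norm_div, Complex.norm_real, Real.norm_of_nonneg hσ0, le_div_iff₀ hσpos] at hκx
    obtain ⟨θ, hθ, hθ2⟩ := RCLike.exists_norm_eq_mul_self (f (L x))
    have h2 : L (θ • x) ∈ C := by
      refine subset_closure ⟨θ • x, ?_, rfl⟩
      rw [mem_closedBall_zero_iff, norm_smul, hθ, one_mul]
      exact hx
    have h3 := hf1 _ h2
    rw [map_smul, map_smul, smul_eq_mul, ← hθ2] at h3
    have h4 : RCLike.re (K := ℂ) ((‖f (L x)‖ : ℝ) : ℂ) = ‖f (L x)‖ := by simp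
    have h5 : RCLike.re (f t') ≤ ‖f t'‖ := RCLike.re_le_norm _
    have h6 : ‖f (L x)‖ < u := by
      simpa using h3
    nlinarith

end Pool.Agent.Lib.MP_66dece_an
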