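import Pool.Agent.Lib.MP_66dece_an.Defs

/-!
# Transparent versions of the definitions, for the proofs
-/

set_option autoImplicit false

namespace Pool.Agent.Lib.MP_66dece_an

universe u v

/-- The Calkin algebra of `X`: bounded operators modulo compact operators. -/
abbrev Calkin (X : Type u) [NormedAddCommGroup X] [NormedSpace ℂ X] : Type u :=
  (X →L[ℂ] X) ⧸ compactOperator (RingHom.id ℂ) X X

/-- The class of an operator in the Calkin algebra. -/
def toCalkin {X : Type u} [NormedAddCommGroup X] [NormedSpace ℂ X] (S : X →L[ℂ] X) : Calkin X :=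
  Submodule.Quotient.mk S

/-- The Banach space `ℓ₁(Γ) ⊕ ℂ`, the unitization of `ℓ₁(Γ)`. -/
abbrev EllOneUnit (Γ : Type v) : Type v := lp (fun _ : Γ => ℂ) 1 × ℂ

/-- `Ψ` is multiplicative for the composition of operators and the product
`(x, λ) (y, μ) = (x y + λ y + μ x, λ μ)` of the unitization, with the coordinatewise product. -/
def IsMultiplicative {X : Type u} [NormedAddCommGroup X] [NormedSpace ℂ X] {Γ : Type v}
    (Ψ : Calkin X → EllOneUnit Γ) : Prop :=
  ∀ S T : X →L[ℂ] X,
    (Ψ (toCalkin (S.comp T))).2 = (Ψ (toCalkin S)).2 * (Ψ (toCalkin T)).2 ∧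
    ∀ g : Γ, (Ψ (toCalkin (S.comp T))).1 g =
      (Ψ (toCalkin S)).1 g * (Ψ (toCalkin T)).1 g + (Ψ (toCalkin S)).2 * (Ψ (toCalkin T)).1 g
        + (Ψ (toCalkin T)).2 * (Ψ (toCalkin S)).1 g

end Pool.Agent.Lib.MP_66dece_an
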