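import Pool.Agent.Lib.MP_66dece_an.Schur
import Pool.Agent.Lib.MP_66dece_an.Rad
import Pool.Agent.Lib.MP_66dece_an.Fusion
import Pool.Agent.Lib.MP_66dece_an.Net

/-!
# Rademacher averages of an uncountable family of operators and their limits
-/

set_option autoImplicit false

namespace Pool.Agent.Lib.MP_66dece_an

universe u v w

open Filter Topology Finset

variable {Y : Type u} [NormedAddCommGroup Y] [NormedSpace ℂ Y]

/-- The Rademacher averages of a sequence of operators. -/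
noncomputable def avg {A : Type w} (T : A → Y →L[ℂ] Y) (g : ℕ → A) (n j : ℕ) : Y →L[ℂ] Y :=
  ((2 : ℂ) ^ n)⁻¹ • ∑ i ∈ range (2 ^ n), rs j i • T (g i)

theorem avg_congr {A : Type w} (T : A → Y →L[ℂ] Y) {g g' : ℕ → A} {n : ℕ}
    (h : ∀ i < 2 ^ n, g i = g' i) (j : ℕ) : avg T g n j = avg T g' n j := by
  unfold avg
  congr 1
  exact sum_congr rfl fun i hi => by rw [h i (mem_range.mp hi)]

theorem norm_inv_two_pow (n : ℕ) : ‖((2 : ℂ) ^ n)⁻¹‖ = ((2 : ℝ) ^ n)⁻¹ := by
  simp

theorem avg_comb {A : Type w} (T : A → Y →L[ℂ] Y) (g : ℕ → A) {M : ℝ} (hM : ∀ a, ‖T a‖ ≤ M)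
    (n : ℕ) (s : Finset ℕ) (hs : s ⊆ range n) (c : ℕ → ℂ) :
    ‖∑ j ∈ s, c j • avg T g n j‖ ^ 2 ≤ M ^ 2 * ∑ j ∈ s, ‖c j‖ ^ 2 := by
  classical
  set c' : ℕ → ℂ := fun j => if j ∈ s then c j else 0 with hc'
  have hM0 : 0 ≤ M := le_trans (norm_nonneg _) (hM (g 0))
  have h1 : ∑ j ∈ s, c j • avg T g n j
      = ((2 : ℂ) ^ n)⁻¹ • ∑ i ∈ range (2 ^ n), (∑ j ∈ range n, c' j * rs j i) • T (g i) := by
    have h2 : ∀ i, ∑ j ∈ range n, c' j * rs j i = ∑ j ∈ s, c j * rs j i := by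
      intro i
      rw [← sum_subset hs]
      · exact sum_congr rfl fun j hj => by simp [hc', hj]
      · intro j _ hj
        simp [hc', hj]
    simp only [h2, avg, sum_smul, smul_sum]
    rw [sum_comm]
    refine sum_congr rfl fun i _ => sum_congr rfl fun j _ => ?_
    rw [smul_smul, smul_smul, smul_smul]
    congr 1
    ring
  have h3 : ∑ j ∈ range n, ‖c' j‖ ^ 2 = ∑ j ∈ s, ‖c j‖ ^ 2 := by
    rw [← sum_subset hs]
    · exact sum_congr rfl fun j hj => by simp [hc', hj]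
    · intro j _ hj
      simp [hc', hj]
  have h4 : ‖∑ j ∈ s, c j • avg T g n j‖
      ≤ ((2 : ℝ) ^ n)⁻¹ * (M * ∑ i ∈ range (2 ^ n), ‖∑ j ∈ range n, c' j * rs j i‖) := by
    rw [h1, norm_smul, norm_inv_two_pow]
    gcongr
    rw [mul_sum]
    refine norm_sum_le_of_le _ fun i _ => ?_
    rw [norm_smul, mul_comm]
    gcongr
    exact hM _
  have h5 := rad_l1 n c'
  rw [h3] at h5
  calc ‖∑ j ∈ s, c j • avg T g n j‖ ^ 2
      ≤ (((2 : ℝ) ^ n)⁻¹ * (M * ∑ i ∈ range (2 ^ n), ‖∑ j ∈ range n, c' j * rs j i‖)) ^ 2 := by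
        gcongr
    _ = (((2 : ℝ) ^ n)⁻¹) ^ 2 * M ^ 2 *
        (∑ i ∈ range (2 ^ n), ‖∑ j ∈ range n, c' j * rs j i‖) ^ 2 := by ring
    _ ≤ (((2 : ℝ) ^ n)⁻¹) ^ 2 * M ^ 2 * ((2 ^ n) ^ 2 * ∑ j ∈ s, ‖c j‖ ^ 2) := by gcongr
    _ = M ^ 2 * ∑ j ∈ s, ‖c j‖ ^ 2 := by
        have : (2 : ℝ) ^ n ≠ 0 := by positivity
        field_simp

theorem avg_norm_le {A : Type w} (T : A → Y →L[ℂ] Y) (g : ℕ → A) {M : ℝ} (hM : ∀ a, ‖T a‖ ≤ M)
    (n j : ℕ) : ‖avg T g n j‖ ≤ M := by
  have hM0 : 0 ≤ M := le_trans (norm_nonneg _) (hM (g 0))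
  unfold avg
  rw [norm_smul, norm_inv_two_pow]
  have h1 : ‖∑ i ∈ range (2 ^ n), rs j i • T (g i)‖ ≤ ∑ i ∈ range (2 ^ n), M := by
    refine norm_sum_le_of_le _ fun i _ => ?_
    rw [norm_smul, norm_rs, one_mul]
    exact hM _
  rw [sum_const, card_range, nsmul_eq_mul] at h1
  push_cast at h1
  calc ((2 : ℝ) ^ n)⁻¹ * ‖∑ i ∈ range (2 ^ n), rs j i • T (g i)‖
      ≤ ((2 : ℝ) ^ n)⁻¹ * (2 ^ n * M) := by gcongr
    _ = M := by
        have : (2 : ℝ) ^ n ≠ 0 := by positivity
        field_simp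

theorem avg_step {A : Type w} (T : A → Y →L[ℂ] Y) (g : ℕ → A) {n j : ℕ} (hj : j < n) {x : Y}
    {η : ℝ} (hη : 0 ≤ η) (h : ∀ i < 2 ^ n, ‖T (g (2 ^ n + i)) x - T (g i) x‖ ≤ η) :
    ‖avg T g (n + 1) j x - avg T g n j x‖ ≤ η := by
  have h1 : avg T g (n + 1) j x - avg T g n j x
      = ((2 : ℂ) ^ (n + 1))⁻¹ • ∑ i ∈ range (2 ^ n), rs j i • (T (g (2 ^ n + i)) x - T (g i) x) := by
    have h2 : avg T g n j x = ((2 : ℂ) ^ (n + 1))⁻¹ • ∑ i ∈ range (2 ^ n),
        (rs j i • T (g i) x + rs j i • T (g i) x) := by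
      unfold avg
      rw [sum_add_distrib, ← two_smul ℂ, smul_smul, smul_apply, _root_.sum_apply]
      simp only [smul_apply]
      congr 1
      rw [pow_succ]
      field_simp
    have h3 : avg T g (n + 1) j x = ((2 : ℂ) ^ (n + 1))⁻¹ • ∑ i ∈ range (2 ^ n),
        (rs j i • T (g i) x + rs j i • T (g (2 ^ n + i)) x) := by
      unfold avg
      rw [smul_apply, _root_.sum_apply, sum_two_pow_succ]
      simp only [smul_apply]
      congr 1
      exact sum_congr rfl fun i _ => by rw [rs_add_lt hj]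
    rw [h2, h3, ← smul_sub, ← sum_sub_distrib]
    congr 1
    refine sum_congr rfl fun i _ => ?_
    rw [smul_sub]
    abel
  rw [h1, norm_smul, norm_inv_two_pow]
  have h4 : ‖∑ i ∈ range (2 ^ n), rs j i • (T (g (2 ^ n + i)) x - T (g i) x)‖
      ≤ ∑ i ∈ range (2 ^ n), η := by
    refine norm_sum_le_of_le _ fun i hi => ?_
    rw [norm_smul, norm_rs, one_mul]
    exact h i (mem_range.mp hi)
  rw [sum_const, card_range, nsmul_eq_mul] at h4
  push_cast at h4
  calc ((2 : ℝ) ^ (n + 1))⁻¹ * ‖∑ i ∈ range (2 ^ n), rs j i • (T (g (2 ^ n + i)) x - T (g i) x)‖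
      ≤ ((2 : ℝ) ^ (n + 1))⁻¹ * (2 ^ n * η) := by gcongr
    _ = η / 2 := by
        have : (2 : ℝ) ^ n ≠ 0 := by positivity
        rw [pow_succ]
        field_simp
    _ ≤ η := by linarith

open Classical in
/-- A sequence in the ball with separated images, if there is one. -/
noncomputable def sepSeq (κ : ℝ) (S : Y →L[ℂ] Y) : ℕ → Y :=
  if h : ∃ w : ℕ → Y, (∀ n, ‖w n‖ ≤ 1) ∧ ∀ m n, m ≠ n → κ ≤ ‖S (w m) - S (w n)‖ then h.choose
  else fun _ => 0

theorem sepSeq_spec {κ : ℝ} {S : Y →L[ℂ] Y} (h : NoNet S κ) :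
    (∀ n, ‖sepSeq κ S n‖ ≤ 1) ∧ ∀ m n, m ≠ n → κ ≤ ‖S (sepSeq κ S m) - S (sepSeq κ S n)‖ := by
  have h1 := h.exists_sep
  unfold sepSeq
  rw [dif_pos h1]
  exact h1.choose_spec

/-- The main construction. -/
theorem exists_limits {A : Type w} [Uncountable A] [CompleteSpace Y]
    [TopologicalSpace.SeparableSpace Y] (T : A → Y →L[ℂ] Y) {M κ θ : ℝ} (hM : ∀ a, ‖T a‖ ≤ M)
    (hκ : 0 < κ) (hθ : 0 < θ)
    (hN : ∀ (s : Finset A) (c : A → ℂ), ∑ a ∈ s, ‖c a‖ = 1 → (∀ a ∈ s, ‖c a‖ ≤ θ) →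
      NoNet (∑ a ∈ s, c a • T a) κ) :
    ∃ R : ℕ → Y →L[ℂ] Y,
      (∀ (s : Finset ℕ) (c : ℕ → ℂ), ‖∑ j ∈ s, c j • R j‖ ^ 2 ≤ M ^ 2 * ∑ j ∈ s, ‖c j‖ ^ 2) ∧
      ∀ j, ∀ K : Y →L[ℂ] Y, IsCompactOperator K → κ / 8 ≤ ‖R j - K‖ := by
  classical
  have hM0 : 0 ≤ M := by
    obtain ⟨a⟩ : Nonempty A := inferInstance
    exact le_trans (norm_nonneg _) (hM a)
  let D : ℕ → (ℕ → A) → Finset Y := fun n g =>
    insert (TopologicalSpace.denseSeq Y n)
      ((range n).biUnion fun j => (range n).image (sepSeq κ (avg T g n j)))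
  let η : ℕ → ℝ := fun n => κ / 8 / 2 * (1 / 2) ^ n
  obtain ⟨g, hg, hnear⟩ := exists_fusion_near (fun a x => T a x) M
    (by
      intro a x y
      rw [dist_eq_norm, dist_eq_norm, ← map_sub]
      exact le_trans ((T a).le_opNorm _) (by gcongr; exact hM a))
    D η (fun n => by positivity)
    (by
      intro n g g' h
      show insert _ _ = insert _ _
      congr 1
      refine biUnion_congr rfl fun j _ => ?_
      rw [avg_congr T h j])
  have hstep : ∀ j m n, m ≤ n → j < n → ∀ x ∈ D m g,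
      ‖avg T g (n + 1) j x - avg T g n j x‖ ≤ η n := by
    intro j m n hmn hjn x hx
    refine avg_step T g hjn (by positivity) fun i hi => ?_
    rw [← dist_eq_norm]
    exact (hnear n i hi m hmn x hx).le
  -- geometric estimates
  have hgeo : ∀ j m n, m ≤ n → j < n → ∀ x ∈ D m g, ∀ k,
      dist (avg T g (n + k) j x) (avg T g (n + (k + 1)) j x)
        ≤ (κ / 8 / 2 * (1 / 2) ^ n) * (1 / 2) ^ k := by
    intro j m n hmn hjn x hx k
    rw [dist_comm, dist_eq_norm, ← add_assoc]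
    refine le_trans (hstep j m (n + k) (by omega) (by omega) x hx) (le_of_eq ?_)
    show κ / 8 / 2 * (1 / 2) ^ (n + k) = _
    rw [pow_add]
    ring
  have hcauchyD : ∀ j m, ∀ x ∈ D m g, CauchySeq (fun n => avg T g n j x) := by
    intro j m x hx
    have h1 := cauchySeq_of_le_geometric (1 / 2) _ (by norm_num)
      (hgeo j m (max m (j + 1)) (le_max_left _ _) (by
        have := le_max_right m (j + 1); omega) x hx)
    have h2 : (fun k => avg T g (max m (j + 1) + k) j x)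
        = (fun n => avg T g n j x) ∘ (fun k => k + max m (j + 1)) := by
      funext k
      simp [add_comm]
    rw [h2] at h1
    exact (cauchySeq_shift (max m (j + 1))).mp h1
  have hcauchy : ∀ j x, CauchySeq (fun n => avg T g n j x) := by
    intro j x
    rw [Metric.cauchySeq_iff']
    intro ε hε
    have hM1 : 0 < 3 * (M + 1) := by positivity
    obtain ⟨m, hm⟩ := (TopologicalSpace.denseRange_denseSeq Y).exists_dist_lt x
      (div_pos hε hM1)
    have h1 := hcauchyD j m (TopologicalSpace.denseSeq Y m) (mem_insert_self _ _)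
    rw [Metric.cauchySeq_iff'] at h1
    obtain ⟨N, hN'⟩ := h1 (ε / 3) (by positivity)
    refine ⟨N, fun n hn => ?_⟩
    have h2 : ∀ n, dist (avg T g n j x) (avg T g n j (TopologicalSpace.denseSeq Y m)) < ε / 3 := by
      intro n
      rw [dist_eq_norm, ← map_sub]
      calc ‖avg T g n j (x - TopologicalSpace.denseSeq Y m)‖
          ≤ M * ‖x - TopologicalSpace.denseSeq Y m‖ :=
            le_trans ((avg T g n j).le_opNorm _) (by gcongr; exact avg_norm_le T g hM n j)
        _ ≤ (M + 1) * dist x (TopologicalSpace.denseSeq Y m) := by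
            rw [dist_eq_norm]
            gcongr
            linarith
        _ < (M + 1) * (ε / (3 * (M + 1))) := by gcongr
        _ = ε / 3 := by field_simp
    calc dist (avg T g n j x) (avg T g N j x)
        ≤ dist (avg T g n j x) (avg T g n j (TopologicalSpace.denseSeq Y m))
          + dist (avg T g n j (TopologicalSpace.denseSeq Y m))
              (avg T g N j (TopologicalSpace.denseSeq Y m))
          + dist (avg T g N j (TopologicalSpace.denseSeq Y m)) (avg T g N j x) :=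
            dist_triangle4 _ _ _ _
      _ < ε / 3 + ε / 3 + ε / 3 := by
          have h3 := h2 n
          have h4 := h2 N
          rw [dist_comm] at h4
          have h5 := hN' n hn
          linarith
      _ = ε := by ring
  -- the limits
  choose L hL using fun j x => cauchySeq_tendsto_of_complete (hcauchy j x)
  have hLim : ∀ j, Tendsto (fun n x => avg T g n j x) atTop (𝓝 (L j)) := fun j =>
    tendsto_pi_nhds.mpr (hL j)
  have hbd : ∀ j, Bornology.IsBounded (Set.range fun n => avg T g n j) := by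
    intro j
    rw [isBounded_iff_forall_norm_le]
    exact ⟨M, by rintro _ ⟨n, rfl⟩; exact avg_norm_le T g hM n j⟩
  let R : ℕ → Y →L[ℂ] Y := fun j =>
    ContinuousLinearMap.ofTendstoOfBoundedRange (L j) (fun n => avg T g n j) (hLim j) (hbd j)
  have hR : ∀ j x, R j x = L j x := fun j x => rfl
  have hRlim : ∀ j x, Tendsto (fun n => avg T g n j x) atTop (𝓝 (R j x)) := hL
  refine ⟨R, ?_, ?_⟩
  · intro s c
    have hB0 : 0 ≤ M * Real.sqrt (∑ j ∈ s, ‖c j‖ ^ 2) := by positivity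
    have h1 : ‖∑ j ∈ s, c j • R j‖ ≤ M * Real.sqrt (∑ j ∈ s, ‖c j‖ ^ 2) := by
      refine ContinuousLinearMap.opNorm_le_bound _ hB0 fun x => ?_
      have h2 : Tendsto (fun n => (∑ j ∈ s, c j • avg T g n j) x) atTop
          (𝓝 ((∑ j ∈ s, c j • R j) x)) := by
        simp only [_root_.sum_apply, smul_apply]
        exact tendsto_finsetSum _ fun j _ => (hRlim j x).const_smul (c j)
      refine le_of_tendsto h2.norm ?_
      filter_upwards [eventually_gt_atTop (s.sup id)] with n hn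
      have hs : s ⊆ range n := by
        intro j hj
        have := le_sup (f := id) hj
        simp only [id_eq] at this
        rw [mem_range]
        omega
      have h3 := avg_comb T g hM n s hs c
      have h4 : ‖∑ j ∈ s, c j • avg T g n j‖ ≤ M * Real.sqrt (∑ j ∈ s, ‖c j‖ ^ 2) := by
        rw [← abs_of_nonneg hB0, ← abs_of_nonneg (norm_nonneg (∑ j ∈ s, c j • avg T g n j))]
        rw [← sq_le_sq, mul_pow, Real.sq_sqrt (by positivity)]
        exact h3
      exact le_trans (ContinuousLinearMap.le_opNorm _ _) (by gcongr)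
    calc ‖∑ j ∈ s, c j • R j‖ ^ 2 ≤ (M * Real.sqrt (∑ j ∈ s, ‖c j‖ ^ 2)) ^ 2 := by gcongr
      _ = M ^ 2 * ∑ j ∈ s, ‖c j‖ ^ 2 := by
        rw [mul_pow, Real.sq_sqrt (by positivity)]
  · intro j K hK
    have h1 : κ / 2 / 4 ≤ ‖R j - K‖ := by
      refine dist_compact_of_sep (by positivity) (fun N => ?_) hK
      obtain ⟨n₀, hn₀⟩ := exists_pow_lt_of_lt_one hθ (show (2 : ℝ)⁻¹ < 1 by norm_num)
      set n := N + j + 1 + n₀ with hn
      have hnθ : ((2 : ℝ) ^ n)⁻¹ ≤ θ := by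
        rw [← inv_pow]
        refine le_trans ?_ hn₀.le
        exact pow_le_pow_of_le_one (by norm_num) (by norm_num) (by omega)
      have hnn : NoNet (avg T g n j) κ := by
        have h3 : ∀ i < 2 ^ n, (fun a => if h : ∃ i < 2 ^ n, g i = a then
            ((2 : ℂ) ^ n)⁻¹ * rs j h.choose else 0) (g i) = ((2 : ℂ) ^ n)⁻¹ * rs j i := by
          intro i hi
          have h4 : ∃ i' < 2 ^ n, g i' = g i := ⟨i, hi, rfl⟩
          show (if h : ∃ i' < 2 ^ n, g i' = g i then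
            ((2 : ℂ) ^ n)⁻¹ * rs j h.choose else 0) = _
          rw [dif_pos h4, hg h4.choose_spec.2]
        have h5 : ∑ i ∈ range (2 ^ n), (fun a => if h : ∃ i < 2 ^ n, g i = a then
            ((2 : ℂ) ^ n)⁻¹ * rs j h.choose else 0) (g i) • T (g i) = avg T g n j := by
          unfold avg
          rw [smul_sum]
          refine sum_congr rfl fun i hi => ?_
          rw [h3 i (mem_range.mp hi), smul_smul]
        have h6 : ∑ i ∈ range (2 ^ n), ‖(fun a => if h : ∃ i < 2 ^ n, g i = a then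
            ((2 : ℂ) ^ n)⁻¹ * rs j h.choose else 0) (g i)‖ = 1 := by
          rw [sum_congr rfl (g := fun _ => ((2 : ℝ) ^ n)⁻¹)]
          · rw [sum_const, card_range, nsmul_eq_mul]
            push_cast
            field_simp
          · intro i hi
            rw [h3 i (mem_range.mp hi), norm_mul, norm_rs, norm_inv_two_pow, mul_one]
        have h2 := hN ((range (2 ^ n)).image g)
          (fun a => if h : ∃ i < 2 ^ n, g i = a then ((2 : ℂ) ^ n)⁻¹ * rs j h.choose else 0)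
          (by rw [sum_image (fun a _ b _ h => hg h)]; exact h6)
          (by
            intro a ha
            obtain ⟨i, hi, rfl⟩ := mem_image.mp ha
            refine le_trans (le_of_eq ?_) hnθ
            exact (congrArg norm (h3 i (mem_range.mp hi))).trans (by
              rw [norm_mul, norm_rs, norm_inv_two_pow, mul_one]))
        rw [sum_image (fun a _ b _ h => hg h), h5] at h2
        exact h2
      obtain ⟨hw1, hw2⟩ := sepSeq_spec hnn
      refine ⟨sepSeq κ (avg T g n j), hw1, fun k l hkl hl => ?_⟩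
      have hclose : ∀ k ≤ N, ‖R j (sepSeq κ (avg T g n j) k)
          - avg T g n j (sepSeq κ (avg T g n j) k)‖ ≤ κ / 8 := by
        intro k hk
        have hmem : sepSeq κ (avg T g n j) k ∈ D n g := by
          refine mem_insert_of_mem (mem_biUnion.mpr ⟨j, by rw [mem_range]; omega, ?_⟩)
          exact mem_image_of_mem _ (by rw [mem_range]; omega)
        have h2 := dist_le_of_le_geometric_of_tendsto₀ (1 / 2) _ (by norm_num)
          (hgeo j n n le_rfl (by omega) _ hmem) (a := R j (sepSeq κ (avg T g n j) k)) (by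
            have h3 := hRlim j (sepSeq κ (avg T g n j) k)
            have h4 := (tendsto_add_atTop_iff_nat n).mpr h3
            simpa [add_comm] using h4)
        rw [dist_comm, dist_eq_norm, add_zero] at h2
        refine le_trans h2 ?_
        have h5 : ((1 : ℝ) / 2) ^ n ≤ 1 := pow_le_one₀ (by norm_num) (by norm_num)
        have h6 : κ / 8 / 2 * (1 / 2) ^ n / (1 - 1 / 2) = κ / 8 * (1 / 2) ^ n := by ring
        rw [h6]
        nlinarith
      have h7 := hw2 k l (by omega)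
      have h8 := hclose k (by omega)
      have h9 := hclose l hl
      have h10 : ‖avg T g n j (sepSeq κ (avg T g n j) k) - avg T g n j (sepSeq κ (avg T g n j) l)‖
          ≤ ‖R j (sepSeq κ (avg T g n j) k) - avg T g n j (sepSeq κ (avg T g n j) k)‖
          + ‖R j (sepSeq κ (avg T g n j) k) - R j (sepSeq κ (avg T g n j) l)‖
          + ‖R j (sepSeq κ (avg T g n j) l) - avg T g n j (sepSeq κ (avg T g n j) l)‖ := by
        have e : avg T g n j (sepSeq κ (avg T g n j) k) - avg T g n j (sepSeq κ (avg T g n j) l)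
            = -(R j (sepSeq κ (avg T g n j) k) - avg T g n j (sepSeq κ (avg T g n j) k))
            + (R j (sepSeq κ (avg T g n j) k) - R j (sepSeq κ (avg T g n j) l))
            + (R j (sepSeq κ (avg T g n j) l) - avg T g n j (sepSeq κ (avg T g n j) l)) := by
          abel
        rw [e]
        refine le_trans (norm_add₃_le) ?_
        rw [norm_neg]
      linarith
    linarith

/-- The core theorem: contradiction from a family without finite nets. -/
theorem core_net {A : Type w} [Uncountable A] {Γ : Type v} [CompleteSpace Y]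
    [TopologicalSpace.SeparableSpace Y] (Φ : (Y →L[ℂ] Y) →L[ℂ] EllOneUnit Γ) (C : ℝ)
    (hΦ : ∀ (S : Y →L[ℂ] Y) (ε : ℝ), 0 < ε →
      ∃ K : Y →L[ℂ] Y, IsCompactOperator K ∧ ‖S - K‖ ≤ C * ‖Φ S‖ + ε)
    (T : A → Y →L[ℂ] Y) {M κ θ : ℝ} (hM : ∀ a, ‖T a‖ ≤ M) (hκ : 0 < κ) (hθ : 0 < θ)
    (hN : ∀ (s : Finset A) (c : A → ℂ), ∑ a ∈ s, ‖c a‖ = 1 → (∀ a ∈ s, ‖c a‖ ≤ θ) →
      NoNet (∑ a ∈ s, c a • T a) κ) :
    False := by
  obtain ⟨R, hR1, hR2⟩ := exists_limits T hM hκ hθ hN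
  refine schur_contra_unit (fun j => Φ (R j)) (‖Φ‖ ^ 2 * M ^ 2) (κ / 16 / (|C| + 1))
    (by positivity) ?_ ?_
  · intro j
    obtain ⟨K, hK1, hK2⟩ := hΦ (R j) (κ / 16) (by positivity)
    have h1 := hR2 j K hK1
    have h2 : C * ‖Φ (R j)‖ ≤ (|C| + 1) * ‖Φ (R j)‖ := by
      gcongr
      linarith [le_abs_self C]
    rw [div_le_iff₀ (by positivity), mul_comm]
    linarith
  · intro s c
    have h1 : ∑ j ∈ s, c j • Φ (R j) = Φ (∑ j ∈ s, c j • R j) := by
      rw [map_sum]
      exact sum_congr rfl fun j _ => by rw [map_smul]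
    rw [h1]
    calc ‖Φ (∑ j ∈ s, c j • R j)‖ ^ 2 ≤ (‖Φ‖ * ‖∑ j ∈ s, c j • R j‖) ^ 2 := by
          gcongr
          exact Φ.le_opNorm _
      _ = ‖Φ‖ ^ 2 * ‖∑ j ∈ s, c j • R j‖ ^ 2 := by ring
      _ ≤ ‖Φ‖ ^ 2 * (M ^ 2 * ∑ j ∈ s, ‖c j‖ ^ 2) := by
          gcongr
          exact hR1 s c
      _ = ‖Φ‖ ^ 2 * M ^ 2 * ∑ j ∈ s, ‖c j‖ ^ 2 := by ring

end Pool.Agent.Lib.MP_66dece_an
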