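import Pool.Agent.Lib.MP_66dece_an.Core

/-!
# Multiplicative maps into the unitization of `ℓ₁(Γ)`
-/

set_option autoImplicit false

namespace Pool.Agent.Lib.MP_66dece_an

universe u v w

open Finset Filter Topology

variable {Y : Type u} [NormedAddCommGroup Y] [NormedSpace ℂ Y] {Γ : Type v}

/-- Multiplicativity of a map `L(Y) → ℓ₁(Γ) ⊕ ℂ`. -/
def MulMap (Φ : (Y →L[ℂ] Y) →L[ℂ] EllOneUnit Γ) : Prop :=
  ∀ S T : Y →L[ℂ] Y, (Φ (S.comp T)).2 = (Φ S).2 * (Φ T).2 ∧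
    ∀ g : Γ, (Φ (S.comp T)).1 g = (Φ S).1 g * (Φ T).1 g + (Φ S).2 * (Φ T).1 g
        + (Φ T).2 * (Φ S).1 g

theorem MulMap.idem {Φ : (Y →L[ℂ] Y) →L[ℂ] EllOneUnit Γ} (hΦ : MulMap Φ) {Q : Y →L[ℂ] Y}
    (hQ : Q.comp Q = Q) : ((Φ Q).2 = 0 ∨ (Φ Q).2 = 1) ∧
      ∀ g, (Φ Q).1 g = (Φ Q).1 g * (Φ Q).1 g + 2 * (Φ Q).2 * (Φ Q).1 g := by
  have h1 := hΦ Q Q
  rw [hQ] at h1
  obtain ⟨h3, h4⟩ := h1
  refine ⟨?_, fun g => ?_⟩
  · have h5 : (Φ Q).2 * ((Φ Q).2 - 1) = 0 := by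
      rw [mul_sub, mul_one, ← h3, sub_self]
    rcases mul_eq_zero.mp h5 with h6 | h6
    · exact Or.inl h6
    · exact Or.inr (sub_eq_zero.mp h6)
  · conv_lhs => rw [h4 g]
    ring

theorem MulMap.coord_zero {Φ : (Y →L[ℂ] Y) →L[ℂ] EllOneUnit Γ} (hΦ : MulMap Φ) {Q : Y →L[ℂ] Y}
    (hQ : Q.comp Q = Q) (h0 : (Φ Q).2 = 0) {g : Γ} (hg : (Φ Q).1 g ≠ 0) : (Φ Q).1 g = 1 := by
  have h1 := (hΦ.idem hQ).2 g
  rw [h0, mul_zero, zero_mul, add_zero] at h1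
  have h4 : (Φ Q).1 g * (Φ Q).1 g = (Φ Q).1 g * 1 := by rw [mul_one]; exact h1.symm
  exact mul_left_cancel₀ hg h4

theorem MulMap.coord_one {Φ : (Y →L[ℂ] Y) →L[ℂ] EllOneUnit Γ} (hΦ : MulMap Φ) {Q : Y →L[ℂ] Y}
    (hQ : Q.comp Q = Q) (h0 : (Φ Q).2 = 1) {g : Γ} (hg : (Φ Q).1 g ≠ 0) : (Φ Q).1 g = -1 := by
  have h1 := (hΦ.idem hQ).2 g
  rw [h0, mul_one] at h1
  have h4 : (Φ Q).1 g * ((Φ Q).1 g + 1) = 0 := by linear_combination -h1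
  rcases mul_eq_zero.mp h4 with h5 | h5
  · exact absurd h5 hg
  · linear_combination h5

theorem MulMap.support_finite {Φ : (Y →L[ℂ] Y) →L[ℂ] EllOneUnit Γ} (hΦ : MulMap Φ)
    {Q : Y →L[ℂ] Y} (hQ : Q.comp Q = Q) : {g | (Φ Q).1 g ≠ 0}.Finite := by
  have h1 : ∀ g, (Φ Q).1 g ≠ 0 → 1 ≤ ‖(Φ Q).1 g‖ := by
    intro g hg
    rcases (hΦ.idem hQ).1 with h0 | h0
    · rw [hΦ.coord_zero hQ h0 hg, norm_one]
    · rw [hΦ.coord_one hQ h0 hg, norm_neg, norm_one]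
  have h2 := (summable_one (Φ Q).1).tendsto_cofinite_zero
  have h3 : ∀ᶠ g in Filter.cofinite, ‖(Φ Q).1 g‖ < 1 := h2.eventually (gt_mem_nhds one_pos)
  rw [Filter.eventually_cofinite] at h3
  refine h3.subset fun g hg => ?_
  simp only [Set.mem_ofPred_eq, not_lt]
  exact h1 g hg

/-- In a decomposition with infinitely many noncompact projections all scalar parts vanish. -/
theorem MulMap.decomposition_snd {Φ : (Y →L[ℂ] Y) →L[ℂ] EllOneUnit Γ} (hΦ : MulMap Φ)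
    (hker : ∀ S, Φ S = 0 → IsCompactOperator S) {Q : ℕ → Y →L[ℂ] Y}
    (hQ1 : ∀ n, (Q n).comp (Q n) = Q n) (hQ2 : ∀ m n, m ≠ n → (Q m).comp (Q n) = 0)
    (hQ3 : {n | ¬ IsCompactOperator (Q n)}.Infinite) (n : ℕ) : (Φ (Q n)).2 = 0 := by
  classical
  rcases (hΦ.idem (hQ1 n)).1 with h0 | h0
  · exact h0
  exfalso
  -- the other projections have scalar part `0`
  have h1 : ∀ m, m ≠ n → (Φ (Q m)).2 = 0 := by
    intro m hm
    have h2 := (hΦ (Q m) (Q n)).1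
    rw [hQ2 m n hm, map_zero, h0, mul_one] at h2
    exact h2.symm
  have h3 : ∀ m, m ≠ n → ¬ IsCompactOperator (Q m) → ∃ g, (Φ (Q m)).1 g ≠ 0 := by
    intro m hm hc
    by_contra hno
    push Not at hno
    apply hc
    apply hker
    refine Prod.ext ?_ (h1 m hm)
    ext g
    rw [hno g]
    rfl
  have hne : Nonempty Γ := by
    obtain ⟨m, hm⟩ := (hQ3.sdiff (Set.finite_singleton n)).nonempty
    obtain ⟨g0, -⟩ := h3 m hm.2 hm.1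
    exact ⟨g0⟩
  choose! γ hγ using h3
  have hinf : ({m | ¬ IsCompactOperator (Q m)} \ {n}).Infinite := hQ3.sdiff (Set.finite_singleton n)
  have hmaps : Set.MapsTo γ ({m | ¬ IsCompactOperator (Q m)} \ {n}) {g | (Φ (Q n)).1 g ≠ 0} := by
    rintro m ⟨hm1, hm2⟩
    have hmn : m ≠ n := hm2
    have h4 := hγ m hmn hm1
    have h5 := hΦ.coord_zero (hQ1 m) (h1 m hmn) h4
    have h6 := (hΦ (Q m) (Q n)).2 (γ m)
    rw [hQ2 m n hmn, map_zero, h0, h1 m hmn, h5] at h6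
    intro h7
    rw [h7] at h6
    simp at h6
  have hinj : Set.InjOn γ ({m | ¬ IsCompactOperator (Q m)} \ {n}) := by
    rintro m ⟨hm1, hm2⟩ m' ⟨hm1', hm2'⟩ he
    by_contra hne
    have h4 := hγ m hm2 hm1
    have h5 := hΦ.coord_zero (hQ1 m) (h1 m hm2) h4
    have h4' := hγ m' hm2' hm1'
    have h5' := hΦ.coord_zero (hQ1 m') (h1 m' hm2') h4'
    have h6 := (hΦ (Q m) (Q m')).2 (γ m)
    rw [hQ2 m m' hne, map_zero, h1 m hm2, h1 m' hm2', h5, he, h5'] at h6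
    simp at h6
  exact hinf (Set.Finite.of_injOn hmaps hinj (hΦ.support_finite (hQ1 n)))

/-- The approximation property relative to the maximal ideal `{S | (Φ S).2 = 0}`. -/
def ApproxBy (Φ : (Y →L[ℂ] Y) →L[ℂ] EllOneUnit Γ) : Prop :=
  ∃ l : ℝ, 0 ≤ l ∧ ∀ (F : Finset Y) (ε : ℝ), 0 < ε → ∃ V : Y →L[ℂ] Y,
    (Φ V).2 = 0 ∧ ‖V‖ ≤ l ∧ ∀ x ∈ F, ‖V x - x‖ ≤ ε

theorem MulMap.approxBy [CompleteSpace Y] {Φ : (Y →L[ℂ] Y) →L[ℂ] EllOneUnit Γ} (hΦ : MulMap Φ)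
    (hker : ∀ S, Φ S = 0 → IsCompactOperator S) (hY : HasDecomposition Y) : ApproxBy Φ := by
  obtain ⟨Q, hQ1, hQ2, hQ3, hQ4⟩ := hY
  have h0 := hΦ.decomposition_snd hker hQ1 hQ2 hQ3
  obtain ⟨l, hl⟩ := banach_steinhaus (g := fun N => ∑ n ∈ range N, Q n) (by
    intro x
    have h1 : Tendsto (fun N => ‖(∑ n ∈ range N, Q n) x‖) atTop (𝓝 ‖x‖) := by
      have := (hQ4 x).norm
      simpa only [_root_.sum_apply] using this
    obtain ⟨C, hC⟩ := h1.bddAbove_range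
    exact ⟨C, fun N => hC ⟨N, rfl⟩⟩)
  refine ⟨l, le_trans (norm_nonneg _) (hl 0), fun F ε hε => ?_⟩
  have h2 : ∀ᶠ N in atTop, ∀ x ∈ F, ‖(∑ n ∈ range N, Q n) x - x‖ ≤ ε := by
    rw [Filter.eventually_all_finset]
    intro x _
    have h3 := (hQ4 x)
    rw [Metric.tendsto_nhds] at h3
    filter_upwards [h3 ε hε] with N hN
    rw [dist_eq_norm] at hN
    rw [_root_.sum_apply]
    exact hN.le
  obtain ⟨N, hN⟩ := h2.exists
  refine ⟨∑ n ∈ range N, Q n, ?_, hl N, hN⟩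
  rw [map_sum, Prod.snd_sum]
  exact sum_eq_zero fun n _ => h0 n

theorem norm_le_of_coord {x y : lp (fun _ : Γ => ℂ) 1} {θ : ℝ} {z : Γ → ℂ} (hθ : ∀ g, ‖z g‖ ≤ θ)
    (h : ∀ g, x g = y g * z g) : ‖x‖ ≤ θ * ‖y‖ := by
  rw [norm_eq_tsum_one, norm_eq_tsum_one, ← tsum_mul_left]
  refine (summable_one x).tsum_le_tsum (fun g => ?_) ((summable_one y).mul_left θ)
  rw [h g, norm_mul, mul_comm]
  exact mul_le_mul_of_nonneg_right (hθ g) (norm_nonneg _)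

/-- Averages with small coefficients have no finite nets. -/
theorem noNet_of_approxBy {A : Type w} {Φ : (Y →L[ℂ] Y) →L[ℂ] EllOneUnit Γ} (hΦ : MulMap Φ)
    (hA : ApproxBy Φ) {B : ℝ} (hB0 : 0 ≤ B)
    (hB : ∀ (S : Y →L[ℂ] Y) (ε : ℝ), 0 < ε →
      ∃ K : Y →L[ℂ] Y, IsCompactOperator K ∧ ‖S - K‖ ≤ B * ‖Φ S‖ + ε)
    (T : A → Y →L[ℂ] Y) (j : A → Γ) (hj : Function.Injective j) (hTj : ∀ a, Φ (T a) = unitVec (j a))
    {c₀ : ℝ} (hc₀ : 0 < c₀)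
    (hT : ∀ (s : Finset A) (c : A → ℂ) (K : Y →L[ℂ] Y), IsCompactOperator K →
      c₀ * ∑ a ∈ s, ‖c a‖ ≤ ‖∑ a ∈ s, c a • T a - K‖) :
    ∃ κ > 0, ∃ θ > 0, ∀ (s : Finset A) (c : A → ℂ), ∑ a ∈ s, ‖c a‖ = 1 →
      (∀ a ∈ s, ‖c a‖ ≤ θ) → NoNet (∑ a ∈ s, c a • T a) κ := by
  classical
  obtain ⟨l, hl0, hl⟩ := hA
  set D : ℝ := (B + 1) * (‖Φ‖ + 1) * (l + 1) with hD
  have hD0 : 0 < D := by positivity
  refine ⟨c₀ / (4 * (1 + l)), by positivity, c₀ / (4 * D), by positivity, ?_⟩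
  intro s c hc hcθ F
  set S := ∑ a ∈ s, c a • T a with hS
  obtain ⟨W, hW0, hWn, hWF⟩ := hl F (c₀ / 8) (by positivity)
  -- the class of `S`
  have hΦS : Φ S = ∑ a ∈ s, c a • unitVec (j a) := by
    rw [hS, map_sum]
    exact sum_congr rfl fun a _ => by rw [map_smul, hTj]
  have hS2 : (Φ S).2 = 0 := by
    rw [hΦS, Prod.snd_sum]
    refine sum_eq_zero fun a _ => ?_
    rw [Prod.smul_snd, unitVec_snd, smul_zero]
  have hS1 : ∀ g, ‖(Φ S).1 g‖ ≤ c₀ / (4 * D) := by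
    intro g
    have h1 : (Φ S).1 g = ∑ a ∈ s, c a * (if g = j a then 1 else 0) := by
      rw [hΦS, Prod.fst_sum, lp.coeFn_sum, Finset.sum_apply]
      refine sum_congr rfl fun a _ => ?_
      rw [Prod.smul_fst, lp.coeFn_smul, Pi.smul_apply, unitVec_fst, smul_eq_mul]
    rw [h1]
    by_cases hg : ∃ a ∈ s, g = j a
    · obtain ⟨a, ha, rfl⟩ := hg
      rw [sum_eq_single_of_mem a ha]
      · rw [if_pos rfl, mul_one]
        exact hcθ a ha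
      · intro b _ hb
        rw [if_neg (fun h => hb (hj h).symm), mul_zero]
    · push Not at hg
      rw [sum_eq_zero (fun a ha => by rw [if_neg (hg a ha), mul_zero]), norm_zero]
      positivity
  have hWS := hΦ W S
  rw [hW0, hS2] at hWS
  have hn : ‖Φ (W.comp S)‖ ≤ c₀ / (4 * D) * (‖Φ‖ * l) := by
    rw [Prod.norm_def, hWS.1, zero_mul, norm_zero]
    refine max_le ?_ (by positivity)
    have h1 : ‖(Φ (W.comp S)).1‖ ≤ c₀ / (4 * D) * ‖(Φ W).1‖ := by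
      refine norm_le_of_coord (z := fun g => (Φ S).1 g) hS1 fun g => ?_
      rw [hWS.2 g]
      ring
    refine le_trans h1 ?_
    gcongr
    calc ‖(Φ W).1‖ ≤ ‖Φ W‖ := norm_fst_le _
      _ ≤ ‖Φ‖ * ‖W‖ := Φ.le_opNorm _
      _ ≤ ‖Φ‖ * l := by gcongr
  obtain ⟨K, hK1, hK2⟩ := hB (W.comp S) (c₀ / 8) (by positivity)
  have hK3 : ‖W.comp S - K‖ ≤ c₀ / 4 + c₀ / 8 := by
    refine le_trans hK2 ?_
    have h1 : B * ‖Φ (W.comp S)‖ ≤ c₀ / 4 := by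
      calc B * ‖Φ (W.comp S)‖ ≤ B * (c₀ / (4 * D) * (‖Φ‖ * l)) := by gcongr
        _ = c₀ / (4 * D) * (B * ‖Φ‖ * l) := by ring
        _ ≤ c₀ / (4 * D) * D := by
            gcongr
            rw [hD]
            gcongr
            · linarith
            · linarith
            · linarith
        _ = c₀ / 4 := by field_simp
    linarith
  have h2 : c₀ ≤ ‖S - K‖ := by
    have := hT s c K hK1
    rwa [hc, mul_one] at this
  have h3 : c₀ / 2 < ‖S - W.comp S‖ := by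
    have h4 : ‖S - K‖ ≤ ‖S - W.comp S‖ + ‖W.comp S - K‖ := by
      have : S - K = (S - W.comp S) + (W.comp S - K) := by abel
      rw [this]
      exact norm_add_le _ _
    linarith
  obtain ⟨x, hx, hx2⟩ := exists_norm_gt h3
  refine ⟨x, hx, fun y hy => ?_⟩
  have h5 : (S - W.comp S) x = (S x - y) - W (S x - y) - (W y - y) := by
    simp only [sub_apply, ContinuousLinearMap.comp_apply, map_sub]
    abel
  have h6 : ‖(S - W.comp S) x‖ ≤ ‖S x - y‖ + l * ‖S x - y‖ + c₀ / 8 := by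
    rw [h5]
    refine le_trans (norm_sub_le _ _) (add_le_add (le_trans (norm_sub_le _ _) ?_) (hWF y hy))
    gcongr
    exact le_trans (W.le_opNorm _) (by gcongr)
  have h7 : c₀ / 4 ≤ (1 + l) * ‖S x - y‖ := by linarith
  have h8 : c₀ / (4 * (1 + l)) = (c₀ / 4) / (1 + l) := by field_simp
  rw [h8, div_le_iff₀ (by positivity)]
  linarith

/-- The core theorem for multiplicative maps. -/
theorem core_mult {A : Type w} [Uncountable A] [CompleteSpace Y]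
    (hY : TopologicalSpace.SeparableSpace Y ∧ (BCAP Y ∨ ¬ ContainsEllOne Y ∨ HasDecomposition Y))
    {Φ : (Y →L[ℂ] Y) →L[ℂ] EllOneUnit Γ} (hΦ : MulMap Φ)
    (hker : ∀ S, Φ S = 0 → IsCompactOperator S) {B : ℝ} (hB0 : 0 ≤ B)
    (hB : ∀ (S : Y →L[ℂ] Y) (ε : ℝ), 0 < ε →
      ∃ K : Y →L[ℂ] Y, IsCompactOperator K ∧ ‖S - K‖ ≤ B * ‖Φ S‖ + ε)
    (T : A → Y →L[ℂ] Y) (j : A → Γ) (hj : Function.Injective j) (hTj : ∀ a, Φ (T a) = unitVec (j a))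
    {M c₀ : ℝ} (hM : ∀ a, ‖T a‖ ≤ M) (hc₀ : 0 < c₀)
    (hT : ∀ (s : Finset A) (c : A → ℂ) (K : Y →L[ℂ] Y), IsCompactOperator K →
      c₀ * ∑ a ∈ s, ‖c a‖ ≤ ‖∑ a ∈ s, c a • T a - K‖) : False := by
  obtain ⟨hsep, h1 | h1 | h1⟩ := hY
  · exact core ⟨hsep, Or.inl h1⟩ Φ B hB T hM hc₀ hT
  · exact core ⟨hsep, Or.inr h1⟩ Φ B hB T hM hc₀ hT
  · obtain ⟨κ, hκ, θ, hθ, hN⟩ := noNet_of_approxBy hΦ (hΦ.approxBy hker h1) hB0 hB T j hj hTj hc₀ hT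
    exact core_net Φ B hB T hM hκ hθ hN

end Pool.Agent.Lib.MP_66dece_an
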