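import Pool.Agent.Lib.MP_66dece_an.Inner

/-!
# A gliding hump in `ℓ₁(Γ)`

There is no sequence in `ℓ₁(Γ) ⊕ ℂ` which is bounded away from `0` and satisfies an upper
`2`-estimate.
-/

set_option autoImplicit false

namespace Pool.Agent.Lib.MP_66dece_an

universe u v

open Filter Topology

/-- The `ℓ₁` norm is a sum. -/
theorem norm_eq_tsum_one {Γ : Type v} (x : lp (fun _ : Γ => ℂ) 1) : ‖x‖ = ∑' g, ‖x g‖ := by
  rw [lp.norm_eq_tsum_rpow (by simp)]
  simp

theorem summable_one {Γ : Type v} (x : lp (fun _ : Γ => ℂ) 1) : Summable fun g => ‖x g‖ := by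
  have := (lp.memℓp x).summable (by simp)
  simpa using this

/-- A scalar sequence with an upper `2`-estimate tends to `0`. -/
theorem scalar_tendsto (t : ℕ → ℂ) (C : ℝ)
    (hup : ∀ (s : Finset ℕ) (c : ℕ → ℂ), ‖∑ j ∈ s, c j * t j‖ ^ 2 ≤ C * ∑ j ∈ s, ‖c j‖ ^ 2) :
    Tendsto t atTop (𝓝 0) := by
  have key : ∀ s : Finset ℕ, ∑ j ∈ s, ‖t j‖ ^ 2 ≤ C := by
    intro s
    have h := hup s (fun j => (starRingEnd ℂ) (t j))
    have h2 : ∑ j ∈ s, (starRingEnd ℂ) (t j) * t j = ((∑ j ∈ s, ‖t j‖ ^ 2 : ℝ) : ℂ) := by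
      push_cast
      refine Finset.sum_congr rfl fun j _ => ?_
      rw [mul_comm, Complex.mul_conj, Complex.normSq_eq_norm_sq]
      push_cast
      rfl
    rw [h2] at h
    set r : ℝ := ∑ j ∈ s, ‖t j‖ ^ 2 with ht
    have ht0 : 0 ≤ r := Finset.sum_nonneg fun j _ => by positivity
    rw [Complex.norm_real, Real.norm_of_nonneg ht0] at h
    have h3 : ∑ j ∈ s, ‖(starRingEnd ℂ) (t j)‖ ^ 2 = r := by
      simp [ht]
    rw [h3] at h
    rcases eq_or_lt_of_le ht0 with h5 | h5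
    · have h6 := hup {0} (fun _ => 1)
      have h7 : 0 ≤ C := by
        have : 0 ≤ ‖∑ j ∈ ({0} : Finset ℕ), (1 : ℂ) * t j‖ ^ 2 := by positivity
        simpa using le_trans this h6
      linarith
    · nlinarith
  have hs : Summable (fun j => ‖t j‖ ^ 2) :=
    summable_of_sum_le (fun j => by positivity) key
  have h0 := hs.tendsto_atTop_zero
  rw [tendsto_zero_iff_norm_tendsto_zero]
  have := h0.sqrt
  simpa using this

/-- Coordinates of a sequence with an upper `2`-estimate tend to `0`. -/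
theorem coord_tendsto {Γ : Type v} (a : ℕ → lp (fun _ : Γ => ℂ) 1) (C : ℝ)
    (hup : ∀ (s : Finset ℕ) (c : ℕ → ℂ), ‖∑ j ∈ s, c j • a j‖ ^ 2 ≤ C * ∑ j ∈ s, ‖c j‖ ^ 2)
    (g : Γ) : Tendsto (fun j => a j g) atTop (𝓝 0) := by
  refine scalar_tendsto _ C fun s c => ?_
  have h1 : ‖(∑ j ∈ s, c j • a j : lp (fun _ : Γ => ℂ) 1) g‖
      ≤ ‖∑ j ∈ s, c j • a j‖ := lp.norm_apply_le_norm (by simp) _ g
  have h2 : (∑ j ∈ s, c j • a j : lp (fun _ : Γ => ℂ) 1) g = ∑ j ∈ s, c j * a j g := by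
    rw [lp.coeFn_sum, Finset.sum_apply]
    rfl
  rw [← h2]
  exact le_trans (by gcongr) (hup s c)

/-- Adding a late term adds its norm. -/
theorem norm_add_late {Γ : Type v} (a : ℕ → lp (fun _ : Γ => ℂ) 1)
    (h0 : ∀ g, Tendsto (fun j => a j g) atTop (𝓝 0)) (v : lp (fun _ : Γ => ℂ) 1) (ε : ℝ)
    (hε : 0 < ε) : ∀ᶠ j in atTop, ‖v‖ + ‖a j‖ - ε ≤ ‖v + a j‖ := by
  have hmin : Tendsto (fun j => ∑' g, min ‖v g‖ ‖a j g‖) atTop (𝓝 (∑' _ : Γ, (0 : ℝ))) := by
    refine tendsto_tsum_of_dominated_convergence (summable_one v) ?_ ?_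
    · intro g
      have h1 := (h0 g).norm
      have h2 : Tendsto (fun j => min ‖v g‖ ‖a j g‖) atTop (𝓝 (min ‖v g‖ ‖(0 : ℂ)‖)) :=
        tendsto_const_nhds.min h1
      simpa using h2
    · filter_upwards with j g
      rw [Real.norm_of_nonneg (le_min (norm_nonneg _) (norm_nonneg _))]
      exact min_le_left _ _
  rw [tsum_zero] at hmin
  have hev := hmin.eventually (gt_mem_nhds (show (0 : ℝ) < ε / 2 by positivity))
  filter_upwards [hev] with j hj
  have hsm : Summable fun g => min ‖v g‖ ‖a j g‖ :=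
    Summable.of_nonneg_of_le (fun g => le_min (norm_nonneg _) (norm_nonneg _))
      (fun g => min_le_left _ _) (summable_one v)
  rw [norm_eq_tsum_one v, norm_eq_tsum_one (a j), norm_eq_tsum_one (v + a j)]
  have h3 : ∑' g, ‖v g‖ + ∑' g, ‖a j g‖ - 2 * ∑' g, min ‖v g‖ ‖a j g‖
      ≤ ∑' g, ‖(v + a j : lp (fun _ : Γ => ℂ) 1) g‖ := by
    rw [← tsum_mul_left, ← (summable_one v).tsum_add (summable_one (a j)),
      ← ((summable_one v).add (summable_one (a j))).tsum_sub (hsm.mul_left 2)]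
    refine Summable.tsum_le_tsum (fun g => ?_) (((summable_one v).add (summable_one (a j))).sub
      (hsm.mul_left 2)) (summable_one (v + a j))
    rw [lp.coeFn_add, Pi.add_apply]
    rcases le_total ‖v g‖ ‖a j g‖ with h | h
    · rw [min_eq_left h]
      have := norm_sub_norm_le (a j g) (-v g)
      rw [norm_neg, sub_neg_eq_add, add_comm (a j g)] at this
      linarith
    · rw [min_eq_right h]
      have := norm_sub_norm_le (v g) (-a j g)
      rw [norm_neg, sub_neg_eq_add] at this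
      linarith
  linarith

/-- Gliding hump: there is no sequence in `ℓ₁(Γ)` with an upper `2`-estimate which is eventually
bounded away from `0`. -/
theorem schur_contra {Γ : Type v} (a : ℕ → lp (fun _ : Γ => ℂ) 1) (C δ : ℝ) (hδ : 0 < δ)
    (hlow : ∀ᶠ j in atTop, δ ≤ ‖a j‖)
    (hup : ∀ (s : Finset ℕ) (c : ℕ → ℂ), ‖∑ j ∈ s, c j • a j‖ ^ 2 ≤ C * ∑ j ∈ s, ‖c j‖ ^ 2) :
    False := by
  have h0 := coord_tendsto a C hup
  have key : ∀ N : ℕ, ∃ s : Finset ℕ, s.card = N ∧ (N : ℝ) * (δ / 2) ≤ ‖∑ j ∈ s, a j‖ := by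
    intro N
    induction N with
    | zero => exact ⟨∅, by simp, by simp⟩
    | succ N ih =>
      obtain ⟨s, hs, hn⟩ := ih
      have h1 := norm_add_late a h0 (∑ j ∈ s, a j) (δ / 2) (by positivity)
      obtain ⟨j, hj1, hj2, hj3⟩ := (h1.and (hlow.and (eventually_gt_atTop (s.sup id)))).exists
      have hjs : j ∉ s := fun h => by
        have := Finset.le_sup (f := id) h
        simp only [id_eq] at this
        omega
      refine ⟨insert j s, by rw [Finset.card_insert_of_notMem hjs, hs], ?_⟩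
      rw [Finset.sum_insert hjs, add_comm (a j)]
      push_cast
      linarith
  obtain ⟨N, hN⟩ := exists_nat_gt (4 * C / δ ^ 2)
  obtain ⟨s, hs, hn⟩ := key (N + 1)
  have h1 := hup s (fun _ => 1)
  simp only [one_smul, norm_one, one_pow, Finset.sum_const, nsmul_eq_mul, mul_one, hs] at h1
  have h2 : (((N + 1 : ℕ) : ℝ) * (δ / 2)) ^ 2 ≤ C * ((N + 1 : ℕ) : ℝ) :=
    le_trans (by gcongr) h1
  rw [div_lt_iff₀ (by positivity)] at hN
  push_cast at h2
  have h3 : (0 : ℝ) < (N : ℝ) + 1 := by positivity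
  have h4 : ((N : ℝ) + 1) * (δ ^ 2 / 4) ≤ C := by
    have : ((N : ℝ) + 1) * (((N : ℝ) + 1) * (δ ^ 2 / 4)) ≤ ((N : ℝ) + 1) * C := by
      nlinarith
    exact le_of_mul_le_mul_left this h3
  nlinarith

/-- The same in `ℓ₁(Γ) ⊕ ℂ`. -/
theorem schur_contra_unit {Γ : Type v} (b : ℕ → EllOneUnit Γ) (C δ : ℝ) (hδ : 0 < δ)
    (hlow : ∀ j, δ ≤ ‖b j‖)
    (hup : ∀ (s : Finset ℕ) (c : ℕ → ℂ), ‖∑ j ∈ s, c j • b j‖ ^ 2 ≤ C * ∑ j ∈ s, ‖c j‖ ^ 2) :
    False := by
  have hup1 : ∀ (s : Finset ℕ) (c : ℕ → ℂ),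
      ‖∑ j ∈ s, c j • (b j).1‖ ^ 2 ≤ C * ∑ j ∈ s, ‖c j‖ ^ 2 := by
    intro s c
    have h1 : ‖∑ j ∈ s, c j • (b j).1‖ ≤ ‖∑ j ∈ s, c j • b j‖ := by
      have : ∑ j ∈ s, c j • (b j).1 = (∑ j ∈ s, c j • b j).1 := by
        rw [Prod.fst_sum]
        rfl
      rw [this]
      exact norm_fst_le _
    exact le_trans (by gcongr) (hup s c)
  have hup2 : ∀ (s : Finset ℕ) (c : ℕ → ℂ),
      ‖∑ j ∈ s, c j • (b j).2‖ ^ 2 ≤ C * ∑ j ∈ s, ‖c j‖ ^ 2 := by
    intro s c
    have h1 : ‖∑ j ∈ s, c j • (b j).2‖ ≤ ‖∑ j ∈ s, c j • b j‖ := by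
      have : ∑ j ∈ s, c j • (b j).2 = (∑ j ∈ s, c j • b j).2 := by
        rw [Prod.snd_sum]
        rfl
      rw [this]
      exact norm_snd_le _
    exact le_trans (by gcongr) (hup s c)
  -- the scalar part tends to zero
  have hsc : Tendsto (fun j => (b j).2) atTop (𝓝 0) := scalar_tendsto _ C hup2
  refine schur_contra (fun j => (b j).1) C δ hδ ?_ hup1
  have h1 := hsc.norm
  rw [norm_zero] at h1
  filter_upwards [h1.eventually (gt_mem_nhds hδ)] with j hj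
  have h2 := hlow j
  rw [Prod.norm_def] at h2
  rcases le_max_iff.mp h2 with h3 | h3
  · exact h3
  · linarith

end Pool.Agent.Lib.MP_66dece_an
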